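import Mathlib

set_option autoImplicit false
open Complex Metric Set Filter Topology

namespace Pool.Agent.Y242.AC


theorem mob_norm {β w : ℂ} (hβ : ‖β‖ < 1) (hw : ‖w‖ ≤ 1) :
    1 + (starRingEnd ℂ) β * w ≠ 0 ∧ 1 - ‖β‖ ≤ ‖1 + (starRingEnd ℂ) β * w‖ ∧ ‖w + β‖ ≤ ‖1 + (starRingEnd ℂ) β * w‖ := by
  have h1 : ‖(starRingEnd ℂ) β * w‖ ≤ ‖β‖ := by
    rw [norm_mul, RCLike.norm_conj]
    exact mul_le_of_le_one_right (norm_nonneg _) hw
  have h2 : 1 - ‖β‖ ≤ ‖1 + (starRingEnd ℂ) β * w‖ := by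
    have h3 : ‖(1 : ℂ)‖ ≤ ‖1 + (starRingEnd ℂ) β * w‖ + ‖(starRingEnd ℂ) β * w‖ := by
      calc ‖(1 : ℂ)‖ = ‖(1 + (starRingEnd ℂ) β * w) - (starRingEnd ℂ) β * w‖ := by ring_nf
        _ ≤ _ := norm_sub_le _ _
    rw [norm_one] at h3
    linarith
  refine ⟨?_, h2, ?_⟩
  · intro h
    rw [h, norm_zero] at h2
    linarith
  · rw [← sq_le_sq₀ (norm_nonneg _) (norm_nonneg _), Complex.sq_norm, Complex.sq_norm, normSq_apply,
      normSq_apply]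
    simp only [add_re, add_im, mul_re, mul_im, conj_re, conj_im, one_re, one_im]
    have hb2 : β.re * β.re + β.im * β.im ≤ 1 := by
      rw [← normSq_apply, ← Complex.sq_norm]
      nlinarith [norm_nonneg β]
    have hw2 : w.re * w.re + w.im * w.im ≤ 1 := by
      rw [← normSq_apply, ← Complex.sq_norm]
      nlinarith [norm_nonneg w]
    nlinarith [mul_nonneg (sub_nonneg.2 hb2) (sub_nonneg.2 hw2)]

/-- the Schwarz functions with derivative `β`, `u` a free unimodular parameter -/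
noncomputable def Om (β z u : ℂ) : ℂ := z * ((z * u + β) / (1 + (starRingEnd ℂ) β * (z * u)))

/-- variation direction -/
noncomputable def Ee (β c z u : ℂ) : ℂ :=
  z * ((1 - Om β z u) * (c + (starRingEnd ℂ) c * u) / (1 + (starRingEnd ℂ) β * (z * u)))

/-- second order variation -/
noncomputable def Ww (β c : ℂ) (ε : ℝ) (T : ℂ → ℂ) (z u : ℂ) : ℂ :=
  Om β z u + ε * Ee β c z u - ε ^ 2 / 2 * (Ee β c z u) ^ 2 * T (Om β z u)

theorem zu_le {z u : ℂ} (hz : ‖z‖ ≤ 1) (hu : ‖u‖ ≤ 1) : ‖z * u‖ ≤ 1 := by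
  rw [norm_mul]; nlinarith [norm_nonneg z, norm_nonneg u]

theorem Om_le {β z u : ℂ} (hβ : ‖β‖ < 1) (hz : ‖z‖ ≤ 1) (hu : ‖u‖ ≤ 1) : ‖Om β z u‖ ≤ ‖z‖ := by
  obtain ⟨h1, h2, h3⟩ := mob_norm hβ (zu_le hz hu)
  rw [Om, norm_mul, norm_div]
  have : ‖z * u + β‖ / ‖1 + (starRingEnd ℂ) β * (z * u)‖ ≤ 1 := div_le_one_of_le₀ h3 (norm_nonneg _)
  exact mul_le_of_le_one_right (norm_nonneg _) this

theorem c_le {c u : ℂ} (hc : ‖c‖ = 1) (hu : ‖u‖ ≤ 1) : ‖c + (starRingEnd ℂ) c * u‖ ≤ 2 := by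
  calc ‖c + (starRingEnd ℂ) c * u‖ ≤ ‖c‖ + ‖(starRingEnd ℂ) c * u‖ := norm_add_le _ _
    _ ≤ 1 + 1 := by
      rw [norm_mul, RCLike.norm_conj, hc, one_mul]; linarith
    _ = 2 := by norm_num

theorem torus {β c z u : ℂ} (hβ : ‖β‖ < 1) (hc : ‖c‖ = 1) (hz : ‖z‖ = 1) (hu : ‖u‖ = 1) :
    ‖Om β z u‖ = 1 ∧ ∃ x : ℝ, Ee β c z u = (x : ℂ) * I * Om β z u ∧
      |x| * (1 - ‖β‖) ≤ 2 * ‖1 - Om β z u‖ := by
  obtain ⟨h1, h2, h3⟩ := mob_norm hβ (zu_le hz.le hu.le)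
  have hzz : z * (starRingEnd ℂ) z = 1 := by rw [mul_conj, ← Complex.sq_norm, hz]; simp
  have huu : u * (starRingEnd ℂ) u = 1 := by rw [mul_conj, ← Complex.sq_norm, hu]; simp
  have hz0 : z ≠ 0 := fun h => by rw [h] at hz; simp at hz
  have hu0 : u ≠ 0 := fun h => by rw [h] at hu; simp at hu
  have hβ1 : 0 < 1 - ‖β‖ := by linarith
  have hca : (starRingEnd ℂ) (1 + (starRingEnd ℂ) β * (z * u)) = (starRingEnd ℂ) z * (starRingEnd ℂ) u * (z * u + β) := by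
    simp only [map_add, map_mul, map_one, conj_conj]
    linear_combination (-1 : ℂ) * hzz * (u * (starRingEnd ℂ) u) - huu
  have hca' : (starRingEnd ℂ) (z * u + β) = (starRingEnd ℂ) z * (starRingEnd ℂ) u * (1 + (starRingEnd ℂ) β * (z * u)) := by
    simp only [map_add, map_mul]
    linear_combination (-((starRingEnd ℂ) β) * (u * (starRingEnd ℂ) u)) * hzz - (starRingEnd ℂ) β * huu
  have hna : ‖z * u + β‖ = ‖1 + (starRingEnd ℂ) β * (z * u)‖ := by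
    have := congrArg norm hca
    rw [RCLike.norm_conj, norm_mul, norm_mul, RCLike.norm_conj, RCLike.norm_conj, hz, hu] at this
    linarith
  have ha'0 : z * u + β ≠ 0 := by
    rw [← norm_pos_iff, hna, norm_pos_iff]; exact h1
  set a := 1 + (starRingEnd ℂ) β * (z * u) with ha
  set a' := z * u + β with ha'
  have hOm : Om β z u = z * (a' / a) := rfl
  have hOmn : ‖Om β z u‖ = 1 := by
    rw [hOm, norm_mul, norm_div, hz, hna, div_self (norm_ne_zero_iff.2 h1), one_mul]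
  refine ⟨hOmn, ?_⟩
  set s := (a - z * a') * (c + (starRingEnd ℂ) c * u) / (a * a') with hs
  have hcz : (starRingEnd ℂ) z ≠ 0 := (map_ne_zero _).2 hz0
  have hcu : (starRingEnd ℂ) u ≠ 0 := (map_ne_zero _).2 hu0
  have hcs : (starRingEnd ℂ) s = -s := by
    rw [hs, map_div₀, map_mul, map_mul, map_sub, map_mul, hca, hca', map_add, map_mul, conj_conj]
    field_simp
    linear_combination (((starRingEnd ℂ) z * a - a') * (starRingEnd ℂ) c) * huu - ((starRingEnd ℂ) u * a' * (c + (starRingEnd ℂ) c * u)) * hzz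
  have hsr : s.re = 0 := by
    have := congrArg re hcs
    rw [conj_re, neg_re] at this
    linarith
  have hsi : s = (s.im : ℂ) * I := by
    apply Complex.ext <;> simp [hsr]
  have hE : Ee β c z u = s * Om β z u := by
    rw [Ee, ← ha, hOm, hs]
    field_simp
  refine ⟨s.im, ?_, ?_⟩
  · rw [← hsi]; exact hE
  · have h4 : |s.im| ≤ ‖s‖ := abs_im_le_norm s
    have h5 : ‖s‖ * (1 - ‖β‖) ≤ 2 * ‖1 - Om β z u‖ := by
      have h6 : ‖s‖ * ‖a'‖ = ‖1 - Om β z u‖ * ‖c + (starRingEnd ℂ) c * u‖ := by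
        rw [← norm_mul, ← norm_mul]
        congr 1
        rw [hs, hOm]
        field_simp
      have h7 := c_le hc hu.le
      calc ‖s‖ * (1 - ‖β‖) ≤ ‖s‖ * ‖a'‖ := by
            rw [hna]; exact mul_le_mul_of_nonneg_left h2 (norm_nonneg _)
        _ = ‖1 - Om β z u‖ * ‖c + (starRingEnd ℂ) c * u‖ := h6
        _ ≤ ‖1 - Om β z u‖ * 2 := mul_le_mul_of_nonneg_left h7 (norm_nonneg _)
        _ = _ := by ring
    calc |s.im| * (1 - ‖β‖) ≤ ‖s‖ * (1 - ‖β‖) := mul_le_mul_of_nonneg_right h4 hβ1.le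
      _ ≤ _ := h5

/-- real variable estimate -/
theorem real_est {x ε κ d hr hi hn C δ : ℝ} (hκ : 0 ≤ κ) (hd0 : 0 ≤ d) (hd : d ≤ 2)
    (hx : |x| ≤ 2 * κ * d) (hn0 : 0 ≤ hn) (hhn : hr ^ 2 + hi ^ 2 = hn ^ 2) (hC : hn * d ≤ C)
    (hδ0 : 0 ≤ δ) (hδ : d ^ 2 * (1 + hr) ≤ δ) :
    (1 + ε ^ 2 / 2 * x ^ 2 * hr) ^ 2 + (ε * x + ε ^ 2 / 2 * x ^ 2 * hi) ^ 2 ≤
      1 + 4 * κ ^ 2 * δ * ε ^ 2 + 32 * κ ^ 3 * C * |ε| ^ 3 + 16 * κ ^ 4 * C ^ 2 * ε ^ 4 := by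
  have hC0 : 0 ≤ C := le_trans (by positivity) hC
  have hx2 : x ^ 2 ≤ 4 * κ ^ 2 * d ^ 2 := by
    rw [← sq_abs]
    calc |x| ^ 2 ≤ (2 * κ * d) ^ 2 := pow_le_pow_left₀ (abs_nonneg _) hx 2
      _ = _ := by ring
  have hx16 : x ^ 2 ≤ 16 * κ ^ 2 := by
    have : d ^ 2 ≤ 4 := by nlinarith
    nlinarith [sq_nonneg κ]
  have t1 : x ^ 2 * (1 + hr) ≤ 4 * κ ^ 2 * δ := by
    rcases le_total 0 (1 + hr) with h | h
    · calc x ^ 2 * (1 + hr) ≤ 4 * κ ^ 2 * d ^ 2 * (1 + hr) := mul_le_mul_of_nonneg_right hx2 h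
        _ = 4 * κ ^ 2 * (d ^ 2 * (1 + hr)) := by ring
        _ ≤ 4 * κ ^ 2 * δ := mul_le_mul_of_nonneg_left hδ (by positivity)
    · have : x ^ 2 * (1 + hr) ≤ 0 := mul_nonpos_of_nonneg_of_nonpos (sq_nonneg _) h
      have : 0 ≤ 4 * κ ^ 2 * δ := by positivity
      linarith
  have hxh : |x| * hn ≤ 2 * κ * C := by
    calc |x| * hn ≤ 2 * κ * d * hn := mul_le_mul_of_nonneg_right hx hn0
      _ = 2 * κ * (hn * d) := by ring
      _ ≤ 2 * κ * C := mul_le_mul_of_nonneg_left hC (by positivity)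
  have hhi : |hi| ≤ hn := by
    apply abs_le_of_sq_le_sq _ hn0
    nlinarith [sq_nonneg hr]
  have t2 : ε ^ 3 * x ^ 3 * hi ≤ 32 * κ ^ 3 * C * |ε| ^ 3 := by
    calc ε ^ 3 * x ^ 3 * hi ≤ |ε ^ 3 * x ^ 3 * hi| := le_abs_self _
      _ = |ε| ^ 3 * (x ^ 2 * (|x| * |hi|)) := by
        rw [abs_mul, abs_mul, abs_pow, abs_pow, ← sq_abs x]; ring
      _ ≤ |ε| ^ 3 * (16 * κ ^ 2 * (2 * κ * C)) := by
        have h7 : |x| * |hi| ≤ 2 * κ * C :=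
          (mul_le_mul_of_nonneg_left hhi (abs_nonneg _)).trans hxh
        have h8 : x ^ 2 * (|x| * |hi|) ≤ 16 * κ ^ 2 * (2 * κ * C) :=
          mul_le_mul hx16 h7 (by positivity) (by positivity)
        exact mul_le_mul_of_nonneg_left h8 (by positivity)
      _ = _ := by ring
  have t3 : ε ^ 4 * x ^ 4 * hn ^ 2 / 4 ≤ 16 * κ ^ 4 * C ^ 2 * ε ^ 4 := by
    have h1 : x ^ 4 * hn ^ 2 = x ^ 2 * (|x| * hn) ^ 2 := by
      rw [mul_pow, sq_abs]; ring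
    have h2 : (|x| * hn) ^ 2 ≤ (2 * κ * C) ^ 2 := pow_le_pow_left₀ (by positivity) hxh 2
    have h3 : x ^ 4 * hn ^ 2 ≤ 16 * κ ^ 2 * (2 * κ * C) ^ 2 := by
      rw [h1]; exact mul_le_mul hx16 h2 (by positivity) (by positivity)
    have h4 : 0 ≤ ε ^ 4 := by positivity
    nlinarith [mul_le_mul_of_nonneg_left h3 h4]
  have e : (1 + ε ^ 2 / 2 * x ^ 2 * hr) ^ 2 + (ε * x + ε ^ 2 / 2 * x ^ 2 * hi) ^ 2 =
      1 + ε ^ 2 * (x ^ 2 * (1 + hr)) + ε ^ 3 * x ^ 3 * hi + ε ^ 4 * x ^ 4 * hn ^ 2 / 4 := by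
    rw [← hhn]; ring
  rw [e]
  have h5 : ε ^ 2 * (x ^ 2 * (1 + hr)) ≤ ε ^ 2 * (4 * κ ^ 2 * δ) :=
    mul_le_mul_of_nonneg_left t1 (sq_nonneg _)
  linarith

theorem torus_bound {β c z u : ℂ} {ε C δ : ℝ} {T : ℂ → ℂ} (hβ : ‖β‖ < 1) (hc : ‖c‖ = 1)
    (hz : ‖z‖ = 1) (hu : ‖u‖ = 1) (hδ0 : 0 ≤ δ)
    (hT2 : ∀ w : ℂ, ‖w‖ = 1 → ‖T w‖ * ‖1 - w‖ ≤ C)
    (hT3 : ∀ w : ℂ, ‖w‖ = 1 → ‖1 - w‖ ^ 2 * (1 + (w * T w).re) ≤ δ) :
    ‖Ww β c ε T z u‖ ^ 2 ≤ 1 + 4 * ((1 - ‖β‖)⁻¹) ^ 2 * δ * ε ^ 2 +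
      32 * ((1 - ‖β‖)⁻¹) ^ 3 * C * |ε| ^ 3 + 16 * ((1 - ‖β‖)⁻¹) ^ 4 * C ^ 2 * ε ^ 4 := by
  obtain ⟨h1, x, hE, hx⟩ := torus hβ hc hz hu
  have hβ1 : 0 < 1 - ‖β‖ := by linarith
  set w := Om β z u with hw
  set h := w * T w with hh
  have hd : ‖1 - w‖ ≤ 2 := (norm_sub_le _ _).trans (by rw [norm_one, h1]; norm_num)
  have hx' : |x| ≤ 2 * (1 - ‖β‖)⁻¹ * ‖1 - w‖ := by
    rw [← div_eq_mul_inv, div_mul_eq_mul_div, le_div_iff₀ hβ1]
    exact hx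
  have hn : ‖h‖ = ‖T w‖ := by rw [hh, norm_mul, h1, one_mul]
  have key := real_est (x := x) (ε := ε) (κ := (1 - ‖β‖)⁻¹) (d := ‖1 - w‖) (hr := h.re)
    (hi := h.im) (hn := ‖h‖) (C := C) (δ := δ) (by positivity) (norm_nonneg _) hd hx'
    (norm_nonneg _) (by rw [Complex.sq_norm, normSq_apply]; ring) (by rw [hn]; exact hT2 w h1) hδ0
    (hT3 w h1)
  have e : Ww β c ε T z u = w * (1 + ((ε * x : ℝ) : ℂ) * I + ((ε ^ 2 / 2 * x ^ 2 : ℝ) : ℂ) * h) := by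
    rw [Ww, hE, ← hw, hh]
    push_cast
    have hI : I ^ 2 = -1 := I_sq
    linear_combination (-(ε : ℂ) ^ 2 / 2 * x ^ 2 * w ^ 2 * T w) * hI
  rw [e, norm_mul, h1, one_mul, Complex.sq_norm, normSq_apply]
  simp only [add_re, add_im, mul_re, mul_im, ofReal_re, ofReal_im, I_re, I_im, one_re, one_im]
  refine le_trans (le_of_eq ?_) key
  ring

theorem Om_diff_z {β u : ℂ} (hβ : ‖β‖ < 1) (hu : ‖u‖ ≤ 1) :
    DifferentiableOn ℂ (fun z => Om β z u) (closedBall 0 1) := by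
  unfold Om
  refine differentiableOn_id.mul (DifferentiableOn.div (by fun_prop) (by fun_prop) ?_)
  intro z hz
  exact (mob_norm hβ (zu_le (mem_closedBall_zero_iff.1 hz) hu)).1

theorem Om_diff_u {β z : ℂ} (hβ : ‖β‖ < 1) (hz : ‖z‖ ≤ 1) :
    DifferentiableOn ℂ (fun u => Om β z u) (closedBall 0 1) := by
  unfold Om
  refine (differentiableOn_const z).mul (DifferentiableOn.div (by fun_prop) (by fun_prop) ?_)
  intro u hu
  exact (mob_norm hβ (zu_le hz (mem_closedBall_zero_iff.1 hu))).1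

theorem Ee_diff_z {β c u : ℂ} (hβ : ‖β‖ < 1) (hu : ‖u‖ ≤ 1) :
    DifferentiableOn ℂ (fun z => Ee β c z u) (closedBall 0 1) := by
  unfold Ee
  refine differentiableOn_id.mul (DifferentiableOn.div
    (((Om_diff_z hβ hu).const_sub 1).mul_const _) (by fun_prop) ?_)
  intro z hz
  exact (mob_norm hβ (zu_le (mem_closedBall_zero_iff.1 hz) hu)).1

theorem Ee_diff_u {β c z : ℂ} (hβ : ‖β‖ < 1) (hz : ‖z‖ ≤ 1) :
    DifferentiableOn ℂ (fun u => Ee β c z u) (closedBall 0 1) := by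
  unfold Ee
  refine (differentiableOn_const z).mul (DifferentiableOn.div
    (((Om_diff_u hβ hz).const_sub 1).mul (by fun_prop)) (by fun_prop) ?_)
  intro u hu
  exact (mob_norm hβ (zu_le hz (mem_closedBall_zero_iff.1 hu))).1

theorem Ww_bound {β c : ℂ} {ε N : ℝ} {T : ℂ → ℂ} (hβ : ‖β‖ < 1)
    (hT : DifferentiableOn ℂ T (closedBall 0 1))
    (hN : ∀ z u : ℂ, ‖z‖ = 1 → ‖u‖ = 1 → ‖Ww β c ε T z u‖ ≤ N) {z u : ℂ} (hz : ‖z‖ ≤ 1)
    (hu : ‖u‖ ≤ 1) : ‖Ww β c ε T z u‖ ≤ N := by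
  have hcl : closure (ball (0 : ℂ) 1) = closedBall 0 1 := closure_ball _ one_ne_zero
  have hfr : frontier (ball (0 : ℂ) 1) = sphere 0 1 := frontier_ball _ one_ne_zero
  have step1 : ∀ z u : ℂ, ‖z‖ ≤ 1 → ‖u‖ = 1 → ‖Ww β c ε T z u‖ ≤ N := by
    intro z u hz hu
    have hd : DifferentiableOn ℂ (fun z => Ww β c ε T z u) (closedBall 0 1) := by
      unfold Ww
      refine ((Om_diff_z hβ hu.le).add ((Ee_diff_z hβ hu.le).const_mul _)).sub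
        ((((Ee_diff_z hβ hu.le).pow 2).const_mul _).mul (hT.comp (Om_diff_z hβ hu.le) ?_))
      intro w hw
      rw [mem_closedBall_zero_iff] at hw ⊢
      exact (Om_le hβ hw hu.le).trans hw
    refine norm_le_of_forall_mem_frontier_norm_le isBounded_ball (hd.diffContOnCl_ball subset_rfl)
      ?_ (by rw [hcl]; exact mem_closedBall_zero_iff.2 hz)
    intro w hw
    rw [hfr, mem_sphere_zero_iff_norm] at hw
    exact hN w u hw hu
  have hd : DifferentiableOn ℂ (fun u => Ww β c ε T z u) (closedBall 0 1) := by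
    unfold Ww
    refine ((Om_diff_u hβ hz).add ((Ee_diff_u hβ hz).const_mul _)).sub
      ((((Ee_diff_u hβ hz).pow 2).const_mul _).mul (hT.comp (Om_diff_u hβ hz) ?_))
    intro w hw
    rw [mem_closedBall_zero_iff] at hw ⊢
    exact (Om_le hβ hz hw).trans hz
  refine norm_le_of_forall_mem_frontier_norm_le isBounded_ball (hd.diffContOnCl_ball subset_rfl)
    ?_ (by rw [hcl]; exact mem_closedBall_zero_iff.2 hu)
  intro w hw
  rw [hfr, mem_sphere_zero_iff_norm] at hw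
  exact step1 z w hz hw

end Pool.Agent.Y242.AC
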