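import Mathlib
import Pool.Agent.Y242.AC10

set_option autoImplicit false
open Complex Metric Set Filter Topology

namespace Pool.Agent.Y242.AC


theorem lip {F : ℂ → ℂ} (hF : DifferentiableOn ℂ F (ball 0 1)) {M : ℝ}
    (hM : ∀ w : ℂ, ‖w‖ ≤ 3 / 4 → ‖deriv F w‖ ≤ M) {x y : ℂ} (hx : ‖x‖ ≤ 3 / 4)
    (hy : ‖y‖ ≤ 3 / 4) : ‖F y - F x‖ ≤ M * ‖y - x‖ := by
  refine Convex.norm_image_sub_le_of_norm_deriv_le (s := closedBall 0 (3 / 4)) ?_ ?_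
    (convex_closedBall _ _) (mem_closedBall_zero_iff.2 hx) (mem_closedBall_zero_iff.2 hy)
  · intro w hw
    rw [mem_closedBall_zero_iff] at hw
    exact hF.differentiableAt (isOpen_ball.mem_nhds (mem_ball_zero_iff.2 (by linarith)))
  · intro w hw
    exact hM w (mem_closedBall_zero_iff.1 hw)

theorem taylor2 {F : ℂ → ℂ} (hF : DifferentiableOn ℂ F (ball 0 1)) {M : ℝ}
    (hM : ∀ w : ℂ, ‖w‖ ≤ 3 / 4 → ‖deriv (deriv (deriv F)) w‖ ≤ M) {w k : ℂ} (hw : ‖w‖ ≤ 1 / 2)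
    (hk : ‖k‖ ≤ 1 / 4) :
    ‖F (w + k) - F w - deriv F w * k - deriv (deriv F) w * (k ^ 2 / 2)‖ ≤ M * ‖k‖ ^ 3 := by
  have hM0 : 0 ≤ M := (norm_nonneg _).trans (hM 0 (by rw [norm_zero]; norm_num))
  have hF1 : DifferentiableOn ℂ (deriv F) (ball 0 1) := hF.deriv isOpen_ball
  have hF2 : DifferentiableOn ℂ (deriv (deriv F)) (ball 0 1) := hF1.deriv isOpen_ball
  set B := closedBall (0 : ℂ) ‖k‖ with hB
  have hBc : Convex ℝ B := convex_closedBall _ _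
  have h0 : (0 : ℂ) ∈ B := mem_closedBall_self (norm_nonneg _)
  have hkB : k ∈ B := mem_closedBall_zero_iff.2 le_rfl
  have hin : ∀ s ∈ B, ‖w + s‖ ≤ 3 / 4 := by
    intro s hs
    have := mem_closedBall_zero_iff.1 hs
    linarith [norm_add_le w s]
  have hin' : ∀ s ∈ B, w + s ∈ ball (0 : ℂ) 1 := fun s hs =>
    mem_ball_zero_iff.2 (by linarith [hin s hs])
  have hsh : ∀ (G : ℂ → ℂ), DifferentiableOn ℂ G (ball 0 1) → ∀ s ∈ B,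
      HasDerivAt (fun s => G (w + s)) (deriv G (w + s)) s := by
    intro G hG s hs
    have h1 := (hG.differentiableAt (isOpen_ball.mem_nhds (hin' s hs))).hasDerivAt
    have h2 : HasDerivAt (fun s => w + s) 1 s := (hasDerivAt_id s).const_add w
    have h3 : HasDerivAt (fun s => G (w + s)) (deriv G (w + s) * 1) s := HasDerivAt.comp s h1 h2
    rwa [mul_one] at h3
  have R0 : ∀ s ∈ B, ‖deriv (deriv F) (w + s) - deriv (deriv F) w‖ ≤ M * ‖k‖ := by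
    intro s hs
    have h := Convex.norm_image_sub_le_of_norm_hasDerivWithin_le (s := B)
      (f := fun s => deriv (deriv F) (w + s)) (f' := fun s => deriv (deriv (deriv F)) (w + s))
      (C := M) (fun s hs => (hsh _ hF2 s hs).hasDerivWithinAt) (fun s hs => hM _ (hin s hs)) hBc
      h0 hs
    simp only [add_zero, sub_zero] at h
    exact h.trans (mul_le_mul_of_nonneg_left (mem_closedBall_zero_iff.1 hs) hM0)
  have R1 : ∀ s ∈ B, ‖deriv F (w + s) - deriv F w - deriv (deriv F) w * s‖ ≤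
      M * ‖k‖ * ‖k‖ := by
    intro s hs
    have h := Convex.norm_image_sub_le_of_norm_hasDerivWithin_le (s := B)
      (f := fun s => deriv F (w + s) - deriv F w - deriv (deriv F) w * s)
      (f' := fun s => deriv (deriv F) (w + s) - deriv (deriv F) w)
      (C := M * ‖k‖) (fun s hs => by
        have := (((hsh _ hF1 s hs).sub_const (deriv F w)).sub
          ((hasDerivAt_id s).const_mul (deriv (deriv F) w)))
        refine (this.congr_deriv ?_).hasDerivWithinAt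
        ring) R0 hBc h0 hs
    simp only [add_zero, sub_zero, mul_zero, sub_self] at h
    exact h.trans (mul_le_mul_of_nonneg_left (mem_closedBall_zero_iff.1 hs) (by positivity))
  have h := Convex.norm_image_sub_le_of_norm_hasDerivWithin_le (s := B)
      (f := fun s => F (w + s) - F w - deriv F w * s - deriv (deriv F) w * (s ^ 2 / 2))
      (f' := fun s => deriv F (w + s) - deriv F w - deriv (deriv F) w * s)
      (C := M * ‖k‖ * ‖k‖) (fun s hs => by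
        have := ((((hsh _ hF s hs).sub_const (F w)).sub
          ((hasDerivAt_id s).const_mul (deriv F w)))).sub
          ((((hasDerivAt_id s).pow 2).div_const 2).const_mul (deriv (deriv F) w))
        refine (this.congr_deriv ?_).hasDerivWithinAt
        simp only [id]
        push_cast
        ring) R1 hBc h0 hkB
  simp only [add_zero, sub_zero, mul_zero, sub_self] at h
  norm_num at h
  calc _ ≤ M * ‖k‖ * ‖k‖ * ‖k‖ := h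
    _ = M * ‖k‖ ^ 3 := by ring

theorem second_diff {F Θ : ℂ → ℂ} (hF : DifferentiableOn ℂ F (ball 0 1)) {M : ℝ}
    (hM1 : ∀ w : ℂ, ‖w‖ ≤ 3 / 4 → ‖deriv F w‖ ≤ M)
    (hM3 : ∀ w : ℂ, ‖w‖ ≤ 3 / 4 → ‖deriv (deriv (deriv F)) w‖ ≤ M)
    (hΘ : ∀ w ∈ ball (0 : ℂ) 1, deriv (deriv F) w = Θ w * deriv F w)
    {ρ ε N A C : ℝ} {ω E τ : ℂ} (hω : ‖ω‖ ≤ 1 / 2) (hE : ‖E‖ ≤ 3) (hτ : τ = ρ * Θ (ρ * ω))
    (hτC : ‖τ‖ ≤ C) (hε : 0 < ε) (hε1 : ε ≤ 1) (hρ : ρ = 1 - ε ^ 3)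
    (hsm : (3 + 9 / 2 * C) * ε ≤ 1 / 8) (hA : 0 ≤ A) (hN : N = 1 + A * ε ^ 3) :
    ‖F (ρ / N * (ω + ε * E - ε ^ 2 / 2 * E ^ 2 * τ)) +
      F (ρ / N * (ω + (-ε : ℝ) * E - (-ε : ℝ) ^ 2 / 2 * E ^ 2 * τ)) - 2 * F ω‖ ≤
      M * (2 * (3 + 9 / 2 * C) ^ 3 + 21 * C ^ 3 + 2 * A + 2) * ε ^ 3 := by
  have hM0 : 0 ≤ M := (norm_nonneg _).trans (hM1 0 (by rw [norm_zero]; norm_num))
  have hC0 : 0 ≤ C := (norm_nonneg _).trans hτC
  have hε3 : 0 < ε ^ 3 := by positivity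
  have hε3' : ε ^ 3 ≤ 1 := pow_le_one₀ hε.le hε1
  have hρ0 : 0 ≤ ρ := by rw [hρ]; linarith
  have hρ1 : ρ ≤ 1 := by rw [hρ]; linarith
  have hρn : ‖(ρ : ℂ)‖ = ρ := by rw [norm_real, Real.norm_of_nonneg hρ0]
  have hN1 : 1 ≤ N := by rw [hN]; nlinarith
  set c1 := 3 + 9 / 2 * C with hc1
  have hc10 : 0 ≤ c1 := by positivity
  have hwn : ‖(ρ : ℂ) * ω‖ ≤ 1 / 2 := by
    rw [norm_mul, hρn]; nlinarith [norm_nonneg ω]
  have hwb : (ρ : ℂ) * ω ∈ ball (0 : ℂ) 1 := mem_ball_zero_iff.2 (by linarith)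
  -- one-sided increments
  have hinc : ∀ σ : ℝ, |σ| = ε → ‖(ρ : ℂ) * ((σ : ℂ) * E - (σ : ℂ) ^ 2 / 2 * E ^ 2 * τ)‖ ≤
      c1 * ε := by
    intro σ hσ
    rw [norm_mul, hρn]
    have h1 : ‖(σ : ℂ) * E - (σ : ℂ) ^ 2 / 2 * E ^ 2 * τ‖ ≤ c1 * ε := by
      calc ‖(σ : ℂ) * E - (σ : ℂ) ^ 2 / 2 * E ^ 2 * τ‖ ≤
          ‖(σ : ℂ) * E‖ + ‖(σ : ℂ) ^ 2 / 2 * E ^ 2 * τ‖ := norm_sub_le _ _
        _ = ε * ‖E‖ + ε ^ 2 / 2 * ‖E‖ ^ 2 * ‖τ‖ := by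
          rw [norm_mul, norm_mul, norm_mul, norm_div, norm_pow, norm_pow, norm_real,
            Real.norm_eq_abs, hσ]
          simp
        _ ≤ ε * 3 + ε ^ 2 / 2 * 3 ^ 2 * C := by gcongr
        _ ≤ c1 * ε := by
          rw [hc1]
          nlinarith [mul_nonneg hC0 (mul_nonneg hε.le (sub_nonneg.2 hε1))]
    calc ρ * ‖(σ : ℂ) * E - (σ : ℂ) ^ 2 / 2 * E ^ 2 * τ‖ ≤
        1 * ‖(σ : ℂ) * E - (σ : ℂ) ^ 2 / 2 * E ^ 2 * τ‖ :=
          mul_le_mul_of_nonneg_right hρ1 (norm_nonneg _)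
      _ ≤ c1 * ε := by rw [one_mul]; exact h1
  have hTay : ∀ σ : ℝ, |σ| = ε →
      ‖F (ρ * (ω + σ * E - σ ^ 2 / 2 * E ^ 2 * τ)) - F (ρ * ω) -
        deriv F (ρ * ω) * ((ρ : ℂ) * ((σ : ℂ) * E - (σ : ℂ) ^ 2 / 2 * E ^ 2 * τ)) -
        deriv (deriv F) (ρ * ω) *
          (((ρ : ℂ) * ((σ : ℂ) * E - (σ : ℂ) ^ 2 / 2 * E ^ 2 * τ)) ^ 2 / 2)‖ ≤
        M * (c1 * ε) ^ 3 := by
    intro σ hσ
    have h1 := hinc σ hσ
    have h2 := taylor2 hF hM3 hwn (k := (ρ : ℂ) * ((σ : ℂ) * E - (σ : ℂ) ^ 2 / 2 * E ^ 2 * τ))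
      (by linarith)
    have e : (ρ : ℂ) * (ω + σ * E - σ ^ 2 / 2 * E ^ 2 * τ) =
      (ρ : ℂ) * ω + (ρ : ℂ) * ((σ : ℂ) * E - (σ : ℂ) ^ 2 / 2 * E ^ 2 * τ) := by ring
    rw [e]
    refine h2.trans (mul_le_mul_of_nonneg_left (pow_le_pow_left₀ (norm_nonneg _) h1 3) hM0)
  have hShr : ∀ σ : ℝ, |σ| = ε →
      ‖F (ρ / N * (ω + σ * E - σ ^ 2 / 2 * E ^ 2 * τ)) -
        F (ρ * (ω + σ * E - σ ^ 2 / 2 * E ^ 2 * τ))‖ ≤ M * (A * ε ^ 3) := by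
    intro σ hσ
    have h1 := hinc σ hσ
    set v := (ρ : ℂ) * (ω + σ * E - σ ^ 2 / 2 * E ^ 2 * τ) with hv
    have hvn : ‖v‖ ≤ 5 / 8 := by
      have e : v = (ρ : ℂ) * ω + (ρ : ℂ) * ((σ : ℂ) * E - (σ : ℂ) ^ 2 / 2 * E ^ 2 * τ) := by
        rw [hv]; ring
      rw [e]
      refine (norm_add_le _ _).trans ?_
      linarith
    have hN0 : (N : ℂ) ≠ 0 := by
      have : (N : ℝ) ≠ 0 := by linarith
      exact_mod_cast this
    have e2 : (ρ : ℂ) / N * (ω + σ * E - σ ^ 2 / 2 * E ^ 2 * τ) = v / N := by rw [hv]; ring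
    rw [e2]
    have hvN : ‖v / (N : ℂ)‖ ≤ 3 / 4 := by
      rw [norm_div, norm_real, Real.norm_of_nonneg (by linarith)]
      exact (div_le_self (norm_nonneg _) hN1).trans (by linarith)
    refine (lip hF hM1 (by linarith : ‖v‖ ≤ 3 / 4) hvN).trans ?_
    refine mul_le_mul_of_nonneg_left ?_ hM0
    have e3 : v / N - v = -(v * (((N - 1) / N : ℝ) : ℂ)) := by
      push_cast; field_simp; ring
    rw [e3, norm_neg, norm_mul, norm_real, Real.norm_of_nonneg (div_nonneg (by linarith)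
      (by linarith))]
    have h4 : (N - 1) / N ≤ A * ε ^ 3 := by
      rw [div_le_iff₀ (by linarith)]
      have : N - 1 = A * ε ^ 3 := by rw [hN]; ring
      rw [this]
      have : 0 ≤ A * ε ^ 3 := by positivity
      nlinarith
    have h5 : 0 ≤ (N - 1) / N := div_nonneg (by linarith) (by linarith)
    nlinarith [norm_nonneg v]
  have hbase : ‖F (ρ * ω) - F ω‖ ≤ M * ε ^ 3 := by
    refine (lip hF hM1 (by linarith : ‖ω‖ ≤ 3 / 4) (by linarith)).trans ?_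
    refine mul_le_mul_of_nonneg_left ?_ hM0
    have e3 : (ρ : ℂ) * ω - ω = -(ω * ((ε ^ 3 : ℝ) : ℂ)) := by
      rw [hρ]; push_cast; ring
    rw [e3, norm_neg, norm_mul, norm_real, Real.norm_of_nonneg hε3.le]
    nlinarith [norm_nonneg ω]
  have hp : |ε| = ε := abs_of_pos hε
  have hm : |-ε| = ε := by rw [abs_neg, hp]
  have a1 := hTay ε hp
  have a2 := hTay (-ε) hm
  have b1 := hShr ε hp
  have b2 := hShr (-ε) hm
  set X1 := (ρ : ℂ) * (ω + (ε : ℂ) * E - (ε : ℂ) ^ 2 / 2 * E ^ 2 * τ) with hX1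
  set X2 := (ρ : ℂ) * (ω + ((-ε : ℝ) : ℂ) * E - ((-ε : ℝ) : ℂ) ^ 2 / 2 * E ^ 2 * τ) with hX2
  set Y1 := (ρ : ℂ) / N * (ω + (ε : ℂ) * E - (ε : ℂ) ^ 2 / 2 * E ^ 2 * τ) with hY1
  set Y2 := (ρ : ℂ) / N * (ω + ((-ε : ℝ) : ℂ) * E - ((-ε : ℝ) : ℂ) ^ 2 / 2 * E ^ 2 * τ) with hY2
  set k1 := (ρ : ℂ) * ((ε : ℂ) * E - (ε : ℂ) ^ 2 / 2 * E ^ 2 * τ) with hk1
  set k2 := (ρ : ℂ) * (((-ε : ℝ) : ℂ) * E - ((-ε : ℝ) : ℂ) ^ 2 / 2 * E ^ 2 * τ) with hk2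
  set D1 := deriv F (ρ * ω) with hD1
  set D2 := deriv (deriv F) (ρ * ω) with hD2
  have hD2e : D2 = Θ (ρ * ω) * D1 := hΘ _ hwb
  -- the middle term
  have mid : D1 * (k1 + k2) + D2 * ((k1 ^ 2 + k2 ^ 2) / 2) =
      D1 * (ρ * (ε ^ 4 / 4) * E ^ 4 * τ ^ 3) := by
    rw [hD2e, hk1, hk2]
    have : (ρ : ℂ) * Θ (ρ * ω) = τ := hτ.symm
    push_cast
    linear_combination (D1 * ρ * (ε ^ 2 * E ^ 2 + ε ^ 4 / 4 * E ^ 4 * τ ^ 2)) * this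
  have hD1n : ‖D1‖ ≤ M := hM1 _ (by linarith)
  have midn : ‖D1 * (ρ * (ε ^ 4 / 4) * E ^ 4 * τ ^ 3)‖ ≤ M * (21 * C ^ 3 * ε ^ 3) := by
    rw [norm_mul]
    refine mul_le_mul hD1n ?_ (norm_nonneg _) hM0
    rw [norm_mul, norm_mul, norm_mul, norm_pow, norm_pow, hρn]
    have h1 : ‖(ε : ℂ) ^ 4 / 4‖ = ε ^ 4 / 4 := by
      rw [norm_div, norm_pow, norm_real, Real.norm_of_nonneg hε.le]; simp
    rw [h1]
    calc ρ * (ε ^ 4 / 4) * ‖E‖ ^ 4 * ‖τ‖ ^ 3 ≤ 1 * (ε ^ 4 / 4) * 3 ^ 4 * C ^ 3 := by gcongr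
      _ = 81 / 4 * C ^ 3 * ε ^ 4 := by ring
      _ ≤ 21 * C ^ 3 * ε ^ 3 := by
        have h2 : ε ^ 4 ≤ ε ^ 3 := pow_le_pow_of_le_one hε.le hε1 (by norm_num)
        have h3 : 0 ≤ C ^ 3 := by positivity
        have h4 : 0 ≤ ε ^ 3 := hε3.le
        nlinarith [mul_le_mul_of_nonneg_left h2 h3, mul_nonneg h3 h4]
  have e : F Y1 + F Y2 - 2 * F ω =
      (F X1 - F (ρ * ω) - D1 * k1 - D2 * (k1 ^ 2 / 2)) +
      (F X2 - F (ρ * ω) - D1 * k2 - D2 * (k2 ^ 2 / 2)) +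
      D1 * (ρ * (ε ^ 4 / 4) * E ^ 4 * τ ^ 3) + (F Y1 - F X1) + (F Y2 - F X2) +
      2 * (F (ρ * ω) - F ω) := by
    rw [← mid]; ring
  rw [e]
  have n2 : ‖(2 : ℂ) * (F (ρ * ω) - F ω)‖ ≤ 2 * (M * ε ^ 3) := by
    rw [norm_mul]
    have : ‖(2 : ℂ)‖ = 2 := by simp
    rw [this]; linarith
  have tri : ∀ a b c d e f : ℂ, ‖a + b + c + d + e + f‖ ≤ ‖a‖ + ‖b‖ + ‖c‖ + ‖d‖ + ‖e‖ + ‖f‖ := by
    intro a b c d e f
    have h1 := norm_add_le (a + b + c + d + e) f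
    have h2 := norm_add_le (a + b + c + d) e
    have h3 := norm_add_le (a + b + c) d
    have h4 := norm_add_le (a + b) c
    have h5 := norm_add_le a b
    linarith
  refine (tri _ _ _ _ _ _).trans ?_
  have : (c1 * ε) ^ 3 = c1 ^ 3 * ε ^ 3 := by ring
  rw [this] at a1 a2
  nlinarith

end Pool.Agent.Y242.AC
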