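import Mathlib
import Pool.Agent.Y242.AC11

set_option autoImplicit false
open Complex Metric Set Filter Topology

namespace Pool.Agent.Y242.AC


theorem contDiffAt_zero {g : ℂ → ℂ} (hg : DifferentiableOn ℂ g (ball 0 1)) {n : WithTop ℕ∞} :
    ContDiffAt ℂ n g 0 :=
  (hg.analyticAt (isOpen_ball.mem_nhds (mem_ball_self one_pos))).contDiffAt

theorem iteratedDeriv_diffOn {F : ℂ → ℂ} (hF : DifferentiableOn ℂ F (ball 0 1)) (n : ℕ) :
    DifferentiableOn ℂ (iteratedDeriv n F) (ball 0 1) := by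
  induction n with
  | zero => simpa using hF
  | succ n ih =>
    rw [iteratedDeriv_succ]
    exact ih.deriv isOpen_ball

theorem iteratedDeriv_scale {F : ℂ → ℂ} (hF : DifferentiableOn ℂ F (ball 0 1)) {β : ℂ}
    (hβ : ‖β‖ ≤ 1) (n : ℕ) : ∀ z ∈ ball (0 : ℂ) 1,
    iteratedDeriv n (fun z => F (β * z)) z = β ^ n * iteratedDeriv n F (β * z) := by
  induction n with
  | zero => intro z _; simp
  | succ n ih =>
    intro z hz
    rw [iteratedDeriv_succ, iteratedDeriv_succ]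
    have h1 : iteratedDeriv n (fun z => F (β * z)) =ᶠ[𝓝 z]
        fun z => β ^ n * iteratedDeriv n F (β * z) := by
      filter_upwards [isOpen_ball.mem_nhds hz] with w hw
      exact ih w hw
    rw [h1.deriv_eq]
    have hβz : β * z ∈ ball (0 : ℂ) 1 := by
      rw [mem_ball_zero_iff] at hz ⊢
      rw [norm_mul]
      nlinarith [norm_nonneg z, norm_nonneg β]
    have h2 := ((iteratedDeriv_diffOn hF n).differentiableAt (isOpen_ball.mem_nhds hβz)).hasDerivAt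
    have h3 : HasDerivAt (fun z => β * z) β z := by simpa using (hasDerivAt_id z).const_mul β
    have h4 : HasDerivAt (fun z => β ^ n * iteratedDeriv n F (β * z))
        (β ^ n * (deriv (iteratedDeriv n F) (β * z) * β)) z :=
      (HasDerivAt.comp z h2 h3).const_mul _
    rw [h4.deriv, pow_succ]
    ring

theorem Dbound {g : ℂ → ℂ} (hg : DifferentiableOn ℂ g (ball 0 1)) (n : ℕ) {X : ℝ}
    (hX : ∀ z : ℂ, ‖z‖ = 1 / 2 → ‖g z‖ ≤ X) : ‖iteratedDeriv n g 0‖ ≤ n.factorial * 2 ^ n * X := by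
  have h := norm_iteratedDeriv_le_of_forall_mem_sphere_norm_le (c := 0) (R := 1 / 2) (f := g) n
    (by norm_num) (hg.diffContOnCl_ball (closedBall_subset_ball (by norm_num)))
    (fun z hz => hX z (mem_sphere_zero_iff_norm.1 hz))
  refine h.trans (le_of_eq ?_)
  rw [one_div, inv_pow, div_inv_eq_mul]
  ring

/-- Schwarz functions with `|ω'(0)| < 1` -/
def SchS (ω : ℂ → ℂ) : Prop :=
  DifferentiableOn ℂ ω (ball 0 1) ∧ (∀ z ∈ ball (0 : ℂ) 1, ‖ω z‖ ≤ ‖z‖) ∧ ‖deriv ω 0‖ < 1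

theorem schwarz_pick {ω : ℂ → ℂ} (h : SchS ω) : ∃ B : ℂ → ℂ, DifferentiableOn ℂ B (ball 0 1) ∧
    (∀ z ∈ ball (0 : ℂ) 1, ‖B z‖ ≤ 1) ∧
    ∀ z ∈ ball (0 : ℂ) 1, ω z = Om (deriv ω 0) z (B z) := by
  obtain ⟨hd, hle, hβ⟩ := h
  have h0b : (0 : ℂ) ∈ ball (0 : ℂ) 1 := mem_ball_self one_pos
  have hω0 : ω 0 = 0 := by
    have := hle 0 h0b
    rw [norm_zero] at this
    exact norm_le_zero_iff.1 this
  set β := deriv ω 0 with hβd
  set g := dslope ω 0 with hg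
  have hgd : DifferentiableOn ℂ g (ball 0 1) :=
    (differentiableOn_dslope (isOpen_ball.mem_nhds h0b)).2 hd
  have hzg : ∀ z, z * g z = ω z := by
    intro z
    have := sub_smul_dslope ω 0 z
    rw [sub_zero, hω0, sub_zero, smul_eq_mul] at this
    exact this
  have hg0 : g 0 = β := by rw [hg, dslope_same]
  have hg1 : ∀ z ∈ ball (0 : ℂ) 1, ‖g z‖ ≤ 1 := by
    intro z hz
    rcases eq_or_ne z 0 with h | h
    · rw [h, hg0]; exact hβ.le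
    · have h1 := hle z hz
      rw [← hzg z, norm_mul] at h1
      have h2 : 0 < ‖z‖ := norm_pos_iff.2 h
      by_contra hc
      push Not at hc
      nlinarith
  have hβ' : ‖-β‖ < 1 := by rwa [norm_neg]
  have hden : ∀ z ∈ ball (0 : ℂ) 1, 1 + (starRingEnd ℂ) (-β) * g z ≠ 0 := fun z hz =>
    (mob_norm hβ' (hg1 z hz)).1
  set φ : ℂ → ℂ := fun z => (g z + -β) / (1 + (starRingEnd ℂ) (-β) * g z) with hφ
  have hφd : DifferentiableOn ℂ φ (ball 0 1) :=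
    (hgd.add_const _).div ((hgd.const_mul _).const_add 1) hden
  have hφ0 : φ 0 = 0 := by simp [hφ, hg0]
  have hφ1 : ∀ z ∈ ball (0 : ℂ) 1, ‖φ z‖ ≤ 1 := by
    intro z hz
    simp only [hφ]
    rw [norm_div]
    exact div_le_one_of_le₀ (mob_norm hβ' (hg1 z hz)).2.2 (norm_nonneg _)
  set B := dslope φ 0 with hB
  have hzB : ∀ z, z * B z = φ z := by
    intro z
    have := sub_smul_dslope φ 0 z
    rw [sub_zero, hφ0, sub_zero, smul_eq_mul] at this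
    exact this
  refine ⟨B, (differentiableOn_dslope (isOpen_ball.mem_nhds h0b)).2 hφd, fun z hz => ?_,
    fun z hz => ?_⟩
  · have := norm_dslope_le_div_of_mapsTo_ball hφd (R₂ := 1) (fun w hw => by
      rw [hφ0, mem_closedBall_zero_iff]; exact hφ1 w hw) hz
    simpa using this
  · rw [Om, hzB z, ← hzg z]
    congr 1
    have h1 := hden z hz
    have h2 := (mob_norm hβ (hφ1 z hz)).1
    rw [eq_div_iff h2]
    have h3 : φ z * (1 + (starRingEnd ℂ) (-β) * g z) = g z + -β := by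
      simp only [hφ]
      rw [div_mul_cancel₀ _ h1]
    simp only [map_neg] at h3
    linear_combination -h3

theorem one_sub_le {ρ : ℝ} {w : ℂ} (hρ0 : 0 ≤ ρ) (hρ1 : ρ ≤ 1) (hw : ‖w‖ ≤ 1) :
    ‖1 - w‖ ≤ 2 * ‖1 - ρ * w‖ := by
  have hρn : ‖(ρ : ℂ)‖ = ρ := by rw [norm_real, Real.norm_of_nonneg hρ0]
  have h1 : ‖1 - w‖ ≤ ‖1 - ρ * w‖ + ‖((1 - ρ : ℝ) : ℂ) * w‖ := by
    have : 1 - w = (1 - ρ * w) - ((1 - ρ : ℝ) : ℂ) * w := by push_cast; ring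
    rw [this]; exact norm_sub_le _ _
  have h2 : ‖((1 - ρ : ℝ) : ℂ) * w‖ ≤ 1 - ρ := by
    rw [norm_mul, norm_real, Real.norm_of_nonneg (by linarith)]
    nlinarith [norm_nonneg w]
  have h3 : 1 - ρ ≤ ‖1 - ρ * w‖ := by
    have h4 : ‖(1 : ℂ)‖ ≤ ‖1 - ρ * w‖ + ‖(ρ : ℂ) * w‖ := by
      have h5 : (1 : ℂ) = (1 - ρ * w) + ρ * w := by ring
      calc ‖(1 : ℂ)‖ = ‖(1 - ρ * w) + ρ * w‖ := by rw [← h5]
        _ ≤ _ := norm_add_le _ _
    rw [norm_one, norm_mul, hρn] at h4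
    nlinarith [norm_nonneg w]
  linarith

/-- hypotheses on the pre-Schwarzian `Θ` -/
structure Conv (Θ : ℂ → ℂ) (b C₀ : ℝ) : Prop where
  diff : DifferentiableOn ℂ Θ (ball 0 1)
  b0 : 0 ≤ b
  bound : ∀ z : ℂ, ‖z‖ < 1 → ‖Θ z‖ ≤ C₀ / ‖1 - z‖
  re : ∀ z : ℂ, ‖z‖ < 1 → (1 + z * Θ z).re ≤ b * ((1 - ‖z‖ ^ 2) / ‖1 - z‖ ^ 2)

section
variable {Θ : ℂ → ℂ} {b C₀ : ℝ} (h : Conv Θ b C₀)
include h

theorem Conv.C0 : 0 ≤ C₀ := by
  have := h.bound 0 (by simp)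
  simp at this
  exact (norm_nonneg _).trans this

theorem T_diff {ρ : ℝ} (hρ0 : 0 ≤ ρ) (hρ1 : ρ < 1) :
    DifferentiableOn ℂ (fun w => (ρ : ℂ) * Θ (ρ * w)) (closedBall 0 1) := by
  refine (h.diff.comp (by fun_prop) ?_).const_mul _
  intro w hw
  rw [mem_closedBall_zero_iff] at hw
  rw [mem_ball_zero_iff, norm_mul, norm_real, Real.norm_of_nonneg hρ0]
  nlinarith [norm_nonneg w]

theorem T_two {ρ : ℝ} (hρ0 : 0 ≤ ρ) (hρ1 : ρ < 1) {w : ℂ} (hw : ‖w‖ ≤ 1) :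
    ‖(ρ : ℂ) * Θ (ρ * w)‖ * ‖1 - w‖ ≤ 2 * C₀ := by
  have hρn : ‖(ρ : ℂ)‖ = ρ := by rw [norm_real, Real.norm_of_nonneg hρ0]
  have hb : ‖(ρ : ℂ) * w‖ < 1 := by rw [norm_mul, hρn]; nlinarith [norm_nonneg w]
  have h1 := one_sub_le hρ0 hρ1.le hw
  have hne : 0 < ‖1 - (ρ : ℂ) * w‖ := by
    rw [norm_pos_iff]
    intro h0
    have : (ρ : ℂ) * w = 1 := by linear_combination -h0
    rw [this] at hb; simp at hb
  have h2 := h.bound _ hb
  rw [le_div_iff₀ hne] at h2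
  rw [norm_mul, hρn]
  have hC := h.C0
  calc ρ * ‖Θ (ρ * w)‖ * ‖1 - w‖ ≤ 1 * ‖Θ (ρ * w)‖ * (2 * ‖1 - ρ * w‖) := by gcongr
    _ = 2 * (‖Θ (ρ * w)‖ * ‖1 - ρ * w‖) := by ring
    _ ≤ 2 * C₀ := by linarith

theorem T_three {ρ : ℝ} (hρ0 : 0 ≤ ρ) (hρ1 : ρ < 1) {w : ℂ} (hw : ‖w‖ = 1) :
    ‖1 - w‖ ^ 2 * (1 + (w * ((ρ : ℂ) * Θ (ρ * w))).re) ≤ 4 * b * (1 - ρ ^ 2) := by
  have hρn : ‖(ρ : ℂ)‖ = ρ := by rw [norm_real, Real.norm_of_nonneg hρ0]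
  have hb : ‖(ρ : ℂ) * w‖ < 1 := by rw [norm_mul, hρn, hw]; linarith
  have h1 := one_sub_le hρ0 hρ1.le hw.le
  have hne : 0 < ‖1 - (ρ : ℂ) * w‖ := by
    rw [norm_pos_iff]
    intro h0
    have : (ρ : ℂ) * w = 1 := by linear_combination -h0
    rw [this] at hb; simp at hb
  have h2 := h.re _ hb
  have e : (1 + (ρ : ℂ) * w * Θ (ρ * w)).re = 1 + (w * ((ρ : ℂ) * Θ (ρ * w))).re := by
    rw [add_re, one_re]
    congr 2
    ring
  rw [e, norm_mul, hρn, hw, mul_one] at h2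
  have h3 : ‖1 - w‖ ^ 2 ≤ 4 * ‖1 - (ρ : ℂ) * w‖ ^ 2 := by
    calc ‖1 - w‖ ^ 2 ≤ (2 * ‖1 - ρ * w‖) ^ 2 := pow_le_pow_left₀ (norm_nonneg _) h1 2
      _ = _ := by ring
  have hρ2 : 0 ≤ 1 - ρ ^ 2 := by nlinarith
  calc ‖1 - w‖ ^ 2 * (1 + (w * ((ρ : ℂ) * Θ (ρ * w))).re) ≤
      ‖1 - w‖ ^ 2 * (b * ((1 - ρ ^ 2) / ‖1 - ρ * w‖ ^ 2)) :=
        mul_le_mul_of_nonneg_left h2 (sq_nonneg _)
    _ ≤ (4 * ‖1 - (ρ : ℂ) * w‖ ^ 2) * (b * ((1 - ρ ^ 2) / ‖1 - ρ * w‖ ^ 2)) := by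
        refine mul_le_mul_of_nonneg_right h3 ?_
        have := h.b0
        positivity
    _ = 4 * b * (1 - ρ ^ 2) := by field_simp

end

end Pool.Agent.Y242.AC
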