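import Mathlib
import Pool.Agent.Y242.AC12

set_option autoImplicit false
open Complex Metric Set Filter Topology

namespace Pool.Agent.Y242.AC


/-- the competitor -/
noncomputable def Vf (β c : ℂ) (s : ℂ) (ε : ℝ) (T B : ℂ → ℂ) (z : ℂ) : ℂ :=
  s * Ww β c ε T z (B z)

theorem Vf_SchS {β c : ℂ} {ρ N ε : ℝ} {T B : ℂ → ℂ} (hβ : ‖β‖ < 1)
    (hB : DifferentiableOn ℂ B (ball 0 1)) (hB1 : ∀ z ∈ ball (0 : ℂ) 1, ‖B z‖ ≤ 1)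
    (hT : DifferentiableOn ℂ T (closedBall 0 1)) (hρ0 : 0 ≤ ρ) (hρ1 : ρ < 1) (hN : 1 ≤ N)
    (hW : ∀ z u : ℂ, ‖z‖ ≤ 1 → ‖u‖ ≤ 1 → ‖Ww β c ε T z u‖ ≤ N) :
    SchS (Vf β c (ρ / N) ε T B) ∧
      deriv (Vf β c (ρ / N) ε T B) 0 = ρ / N * (β + ε * (c + (starRingEnd ℂ) c * B 0)) := by
  have h0b : (0 : ℂ) ∈ ball (0 : ℂ) 1 := mem_ball_self one_pos
  have hzB : ∀ z ∈ ball (0 : ℂ) 1, ‖z * B z‖ ≤ 1 := fun z hz =>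
    zu_le (mem_ball_zero_iff.1 hz).le (hB1 z hz)
  have hden : ∀ z ∈ ball (0 : ℂ) 1, 1 + (starRingEnd ℂ) β * (z * B z) ≠ 0 := fun z hz =>
    (mob_norm hβ (hzB z hz)).1
  have hdd : DifferentiableOn ℂ (fun z => 1 + (starRingEnd ℂ) β * (z * B z)) (ball 0 1) :=
    ((differentiableOn_id.mul hB).const_mul _).const_add 1
  have he1 : DifferentiableOn ℂ (fun z => (z * B z + β) / (1 + (starRingEnd ℂ) β * (z * B z))) (ball 0 1) :=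
    ((differentiableOn_id.mul hB).add_const β).div hdd hden
  have hOm : DifferentiableOn ℂ (fun z => Om β z (B z)) (ball 0 1) := differentiableOn_id.mul he1
  have hTO : DifferentiableOn ℂ (fun z => T (Om β z (B z))) (ball 0 1) := by
    refine hT.comp hOm ?_
    intro z hz
    rw [mem_closedBall_zero_iff]
    have hz1 := (mem_ball_zero_iff.1 hz).le
    exact (Om_le hβ hz1 (hB1 z hz)).trans hz1
  have he2 : DifferentiableOn ℂ (fun z => (1 - Om β z (B z)) * (c + (starRingEnd ℂ) c * B z) /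
      (1 + (starRingEnd ℂ) β * (z * B z))) (ball 0 1) :=
    ((hOm.const_sub 1).mul ((hB.const_mul _).const_add c)).div hdd hden
  set e1 : ℂ → ℂ := fun z => (z * B z + β) / (1 + (starRingEnd ℂ) β * (z * B z)) with he1d
  set e2 : ℂ → ℂ := fun z => (1 - Om β z (B z)) * (c + (starRingEnd ℂ) c * B z) /
      (1 + (starRingEnd ℂ) β * (z * B z)) with he2d
  set w : ℂ → ℂ := fun z => (ρ / N : ℂ) * (e1 z + ε * e2 z -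
    ε ^ 2 / 2 * z * (e2 z) ^ 2 * T (Om β z (B z))) with hw
  have hwd : DifferentiableOn ℂ w (ball 0 1) := by
    refine DifferentiableOn.const_mul ?_ _
    exact (he1.add (he2.const_mul _)).sub
      (((differentiableOn_id.const_mul _).mul (he2.pow 2)).mul hTO)
  have hVw : ∀ z, Vf β c (ρ / N) ε T B z = z * w z := by
    intro z
    simp only [hw, he1d, he2d]
    rw [Vf, Ww, Ee]
    set O := Om β z (B z) with hO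
    have hO' : O = z * ((z * B z + β) / (1 + (starRingEnd ℂ) β * (z * B z))) := rfl
    linear_combination (ρ / N : ℂ) * hO'
  have hV : Vf β c (ρ / N) ε T B = fun z => z * w z := funext hVw
  have hVd : DifferentiableOn ℂ (Vf β c (ρ / N) ε T B) (ball 0 1) := by
    rw [hV]; exact differentiableOn_id.mul hwd
  have hV0 : Vf β c (ρ / N) ε T B 0 = 0 := by rw [hVw, zero_mul]
  have hVle : ∀ z ∈ ball (0 : ℂ) 1, ‖Vf β c (ρ / N) ε T B z‖ ≤ ρ := by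
    intro z hz
    rw [Vf, norm_mul, norm_div, norm_real, norm_real, Real.norm_of_nonneg hρ0,
      Real.norm_of_nonneg (by linarith : (0 : ℝ) ≤ N)]
    have := hW z (B z) (mem_ball_zero_iff.1 hz).le (hB1 z hz)
    calc ρ / N * ‖Ww β c ε T z (B z)‖ ≤ ρ / N * N :=
          mul_le_mul_of_nonneg_left this (by positivity)
      _ = ρ := by field_simp
  refine ⟨⟨hVd, fun z hz => ?_, ?_⟩, ?_⟩
  · refine norm_le_norm_of_mapsTo_ball hVd (fun z hz => ?_) hV0 (mem_ball_zero_iff.1 hz)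
    rw [mem_closedBall_zero_iff]
    exact (hVle z hz).trans hρ1.le
  · have := norm_deriv_le_div_of_mapsTo_ball (c := 0) (R₁ := 1) (R₂ := ρ) hVd (fun z hz => by
      rw [hV0, mem_closedBall_zero_iff]; exact hVle z hz) one_pos
    rw [div_one] at this
    linarith
  · have h1 : HasDerivAt (fun z => z * w z) (1 * w 0 + 0 * deriv w 0) 0 :=
      (hasDerivAt_id 0).mul (hwd.differentiableAt (isOpen_ball.mem_nhds h0b)).hasDerivAt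
    rw [hV, h1.deriv]
    simp [hw, he1d, he2d, Om]

theorem small_eps {a₁ a₂ a₃ c₁ c₂ c₃ : ℝ} (ha₁ : 0 ≤ a₁) (ha₂ : 0 ≤ a₂) (ha₃ : 0 ≤ a₃)
    (hc₁ : 0 < c₁) (hc₂ : 0 < c₂) (hc₃ : 0 < c₃) :
    ∃ ε : ℝ, 0 < ε ∧ ε ≤ 1 ∧ a₁ * ε ≤ c₁ ∧ a₂ * ε ≤ c₂ ∧ a₃ * ε ≤ c₃ := by
  set D := 1 + a₁ / c₁ + a₂ / c₂ + a₃ / c₃ with hD
  have h1 : 0 ≤ a₁ / c₁ := by positivity
  have h2 : 0 ≤ a₂ / c₂ := by positivity
  have h3 : 0 ≤ a₃ / c₃ := by positivity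
  have hD1 : 1 ≤ D := by rw [hD]; linarith
  have hD0 : 0 < D := by linarith
  have key : ∀ a c : ℝ, 0 < c → a / c ≤ D → a * D⁻¹ ≤ c := by
    intro a c hc h
    rw [← div_eq_mul_inv, div_le_iff₀ hD0]
    rw [div_le_iff₀ hc] at h
    linarith
  refine ⟨D⁻¹, by positivity, inv_le_one_of_one_le₀ hD1, key _ _ hc₁ ?_, key _ _ hc₂ ?_,
    key _ _ hc₃ ?_⟩ <;> rw [hD] <;> linarith

theorem choose_c {u : ℂ} : ∃ c : ℂ, ‖c‖ = 1 ∧ 1 ≤ ‖c + (starRingEnd ℂ) c * u‖ := by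
  by_contra hcon
  push Not at hcon
  have a1 := hcon 1 (by simp)
  have a2 := hcon I (by simp)
  have b1 : ‖1 + (starRingEnd ℂ) 1 * u‖ ^ 2 < 1 := by
    have := norm_nonneg (1 + (starRingEnd ℂ) 1 * u)
    nlinarith
  have b2 : ‖I + (starRingEnd ℂ) I * u‖ ^ 2 < 1 := by
    have := norm_nonneg (I + (starRingEnd ℂ) I * u)
    nlinarith
  rw [Complex.sq_norm, normSq_apply] at b1 b2
  simp at b1 b2
  nlinarith [sq_nonneg u.re, sq_nonneg u.im]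

theorem W_le_N {Θ : ℂ → ℂ} {b C₀ : ℝ} (hΘc : Conv Θ b C₀) {β c : ℂ} {κ C A ε ρ N σ : ℝ}
    (hβ : ‖β‖ < 1) (hc : ‖c‖ = 1) (hκβ : (1 - ‖β‖)⁻¹ ≤ κ) (hC : C = 2 * C₀)
    (hA : A = 32 * κ ^ 2 * b + 32 * κ ^ 3 * C + 16 * κ ^ 4 * C ^ 2) (hε : 0 < ε) (hε1 : ε ≤ 1)
    (hρ : ρ = 1 - ε ^ 3) (hN : N = 1 + A * ε ^ 3) (hσ : |σ| = ε) {z u : ℂ} (hz : ‖z‖ ≤ 1)
    (hu : ‖u‖ ≤ 1) : ‖Ww β c σ (fun w => (ρ : ℂ) * Θ (ρ * w)) z u‖ ≤ N := by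
  have hκβ0 : 0 ≤ (1 - ‖β‖)⁻¹ := by
    have : 0 < 1 - ‖β‖ := by linarith
    positivity
  have hκ0 : 0 ≤ κ := hκβ0.trans hκβ
  have hb0 := hΘc.b0
  have hC' : 0 ≤ C := by rw [hC]; have := hΘc.C0; positivity
  have hA0 : 0 ≤ A := by rw [hA]; positivity
  have hε3 : 0 < ε ^ 3 := by positivity
  have hε3' : ε ^ 3 ≤ 1 := pow_le_one₀ hε.le hε1
  have hε2' : ε ^ 2 ≤ 1 := pow_le_one₀ hε.le hε1
  have hρ0 : 0 ≤ ρ := by rw [hρ]; linarith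
  have hρ1 : ρ < 1 := by rw [hρ]; linarith
  have hN1 : 1 ≤ N := by rw [hN]; nlinarith
  refine Ww_bound hβ (T_diff hΘc hρ0 hρ1) ?_ hz hu
  intro z u hz hu
  have hρ2 : 0 ≤ 1 - ρ ^ 2 := by nlinarith
  have h1 := torus_bound (β := β) (c := c) (z := z) (u := u) (ε := σ) (C := C)
    (δ := 4 * b * (1 - ρ ^ 2)) (T := fun w => (ρ : ℂ) * Θ (ρ * w)) hβ hc hz hu (by positivity)
    (fun w hw => by rw [hC]; exact T_two hΘc hρ0 hρ1 hw.le)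
    (fun w hw => T_three hΘc hρ0 hρ1 hw)
  have hσ2 : σ ^ 2 = ε ^ 2 := by rw [← hσ, sq_abs]
  have hσ4 : σ ^ 4 = ε ^ 4 := by
    have : σ ^ 4 = (σ ^ 2) ^ 2 := by ring
    rw [this, hσ2]; ring
  rw [hσ, hσ2, hσ4] at h1
  have h2 : 1 - ρ ^ 2 ≤ 2 * ε ^ 3 := by rw [hρ]; nlinarith
  have t1 : 4 * ((1 - ‖β‖)⁻¹) ^ 2 * (4 * b * (1 - ρ ^ 2)) * ε ^ 2 ≤ 32 * κ ^ 2 * b * ε ^ 3 := by
    calc 4 * ((1 - ‖β‖)⁻¹) ^ 2 * (4 * b * (1 - ρ ^ 2)) * ε ^ 2 ≤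
        4 * κ ^ 2 * (4 * b * (2 * ε ^ 3)) * 1 := by gcongr
      _ = 32 * κ ^ 2 * b * ε ^ 3 := by ring
  have t2 : 32 * ((1 - ‖β‖)⁻¹) ^ 3 * C * ε ^ 3 ≤ 32 * κ ^ 3 * C * ε ^ 3 := by gcongr
  have t3 : 16 * ((1 - ‖β‖)⁻¹) ^ 4 * C ^ 2 * ε ^ 4 ≤ 16 * κ ^ 4 * C ^ 2 * ε ^ 3 := by
    have : ε ^ 4 ≤ ε ^ 3 := pow_le_pow_of_le_one hε.le hε1 (by norm_num)
    gcongr
  have h3 : ‖Ww β c σ (fun w => (ρ : ℂ) * Θ (ρ * w)) z u‖ ^ 2 ≤ N ^ 2 := by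
    have h4 : (1 : ℝ) + A * ε ^ 3 ≤ N ^ 2 := by
      rw [hN]; nlinarith [mul_nonneg hA0 hε3.le]
    have h5 : A * ε ^ 3 = 32 * κ ^ 2 * b * ε ^ 3 + 32 * κ ^ 3 * C * ε ^ 3 +
        16 * κ ^ 4 * C ^ 2 * ε ^ 3 := by rw [hA]; ring
    linarith
  exact (pow_le_pow_iff_left₀ (norm_nonneg _) (by linarith) two_ne_zero).1 h3

theorem one_sub_ge {w : ℂ} (hw : ‖w‖ ≤ 1 / 2) : 1 / 2 ≤ ‖1 - w‖ := by
  have h3 : ‖(1 : ℂ)‖ ≤ ‖1 - w‖ + ‖w‖ := by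
    have h5 : (1 : ℂ) = (1 - w) + w := by ring
    calc ‖(1 : ℂ)‖ = ‖(1 - w) + w‖ := by rw [← h5]
      _ ≤ _ := norm_add_le _ _
  rw [norm_one] at h3
  linarith

theorem pt_est {F Θ : ℂ → ℂ} {b C₀ M : ℝ} (hΘc : Conv Θ b C₀)
    (hF : DifferentiableOn ℂ F (ball 0 1))
    (hM1 : ∀ w : ℂ, ‖w‖ ≤ 3 / 4 → ‖deriv F w‖ ≤ M)
    (hM3 : ∀ w : ℂ, ‖w‖ ≤ 3 / 4 → ‖deriv (deriv (deriv F)) w‖ ≤ M)
    (hΘ : ∀ w ∈ ball (0 : ℂ) 1, deriv (deriv F) w = Θ w * deriv F w)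
    {β c : ℂ} {C A ε ρ N : ℝ} (hβ : ‖β‖ < 1) (hc : ‖c‖ = 1) (hC : C = 2 * C₀) (hA0 : 0 ≤ A)
    (hε : 0 < ε) (hε1 : ε ≤ 1) (hρ : ρ = 1 - ε ^ 3) (hN : N = 1 + A * ε ^ 3)
    (s1 : (3 + 9 / 2 * (2 * C)) * ε ≤ 1 / 8) {z u : ℂ} (hz : ‖z‖ = 1 / 2) (hu : ‖u‖ ≤ 1) :
    ‖F (ρ / N * Ww β c ε (fun w => (ρ : ℂ) * Θ (ρ * w)) z u) +
      F (ρ / N * Ww β c (-ε) (fun w => (ρ : ℂ) * Θ (ρ * w)) z u) - 2 * F (Om β z u)‖ ≤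
      M * (2 * (3 + 9 / 2 * (2 * C)) ^ 3 + 21 * (2 * C) ^ 3 + 2 * A + 2) * ε ^ 3 := by
  have hε3 : 0 < ε ^ 3 := by positivity
  have hε3' : ε ^ 3 ≤ 1 := pow_le_one₀ hε.le hε1
  have hρ0 : 0 ≤ ρ := by rw [hρ]; linarith
  have hρ1 : ρ < 1 := by rw [hρ]; linarith
  have hOmn : ‖Om β z u‖ ≤ 1 / 2 := by
    have := Om_le hβ (by rw [hz]; norm_num) hu
    linarith
  have hE3 : ‖Ee β c z u‖ ≤ 3 := by
    have h1 : ‖(starRingEnd ℂ) β * (z * u)‖ ≤ 1 / 2 := by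
      rw [norm_mul, norm_mul, RCLike.norm_conj, hz]
      nlinarith [norm_nonneg β, norm_nonneg u]
    have h2 : 1 / 2 ≤ ‖1 + (starRingEnd ℂ) β * (z * u)‖ := by
      have := one_sub_ge (w := -((starRingEnd ℂ) β * (z * u))) (by rwa [norm_neg])
      rwa [sub_neg_eq_add] at this
    have h3 : ‖1 - Om β z u‖ ≤ 3 / 2 := by
      refine (norm_sub_le _ _).trans ?_
      rw [norm_one]; linarith
    have h4 := c_le hc hu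
    have h5 : ‖1 - Om β z u‖ * ‖c + (starRingEnd ℂ) c * u‖ ≤ 3 / 2 * 2 :=
      mul_le_mul h3 h4 (norm_nonneg _) (by norm_num)
    rw [Ee, norm_mul, norm_div, norm_mul, hz]
    rw [mul_div_assoc', div_le_iff₀ (by linarith)]
    linarith
  have hτC : ‖(ρ : ℂ) * Θ (ρ * Om β z u)‖ ≤ 2 * C := by
    have h1 := T_two hΘc hρ0 hρ1 (w := Om β z u) (by linarith)
    have h2 := one_sub_ge hOmn
    rw [← hC] at h1
    nlinarith [norm_nonneg ((ρ : ℂ) * Θ (ρ * Om β z u))]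
  have h := second_diff hF hM1 hM3 hΘ (ρ := ρ) (ε := ε) (N := N) (A := A) (C := 2 * C)
    (ω := Om β z u) (E := Ee β c z u) (τ := (ρ : ℂ) * Θ (ρ * Om β z u)) hOmn hE3 rfl hτC hε hε1
    hρ s1 hA0 hN
  have e1 : Ww β c ε (fun w => (ρ : ℂ) * Θ (ρ * w)) z u = Om β z u + ε * Ee β c z u -
    ε ^ 2 / 2 * (Ee β c z u) ^ 2 * ((ρ : ℂ) * Θ (ρ * Om β z u)) := rfl
  have e2 : Ww β c (-ε) (fun w => (ρ : ℂ) * Θ (ρ * w)) z u = Om β z u +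
    ((-ε : ℝ) : ℂ) * Ee β c z u -
    ((-ε : ℝ) : ℂ) ^ 2 / 2 * (Ee β c z u) ^ 2 * ((ρ : ℂ) * Θ (ρ * Om β z u)) := rfl
  rw [e1, e2]
  exact h

theorem deriv_gain {β e : ℂ} {A ε ρ N x y : ℝ} (hβ : ‖β‖ < 1) (he : 1 ≤ ‖e‖) (hA0 : 0 ≤ A)
    (hε : 0 < ε) (hε1 : ε ≤ 1) (hρ : ρ = 1 - ε ^ 3) (hN : N = 1 + A * ε ^ 3)
    (s2 : (1 + A) * ε ≤ 1) (hx : x = ‖(ρ : ℂ) / N * (β + ε * e)‖)
    (hy : y = ‖(ρ : ℂ) / N * (β + ((-ε : ℝ) : ℂ) * e)‖) :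
    2 * ‖β‖ ^ 2 + 2 * ε ^ 2 - 8 * (1 + A) * ε ^ 3 ≤ x ^ 2 + y ^ 2 := by
  have hε3 : 0 < ε ^ 3 := by positivity
  have hε3' : ε ^ 3 ≤ 1 := pow_le_one₀ hε.le hε1
  have hε2' : ε ^ 2 ≤ 1 := pow_le_one₀ hε.le hε1
  have hρ0 : 0 ≤ ρ := by rw [hρ]; linarith
  have hN1 : 1 ≤ N := by rw [hN]; nlinarith
  have hpar : x ^ 2 + y ^ 2 = (ρ / N) ^ 2 * (2 * (‖β‖ ^ 2 + ε ^ 2 * ‖e‖ ^ 2)) := by
    rw [hx, hy, norm_mul, norm_mul, norm_div, norm_real, norm_real, Real.norm_of_nonneg hρ0,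
      Real.norm_of_nonneg (by linarith : (0 : ℝ) ≤ N)]
    have h1 : ‖β + (ε : ℂ) * e‖ ^ 2 + ‖β + ((-ε : ℝ) : ℂ) * e‖ ^ 2 =
        2 * (‖β‖ ^ 2 + ε ^ 2 * ‖e‖ ^ 2) := by
      rw [Complex.sq_norm, Complex.sq_norm, Complex.sq_norm, Complex.sq_norm, normSq_apply,
        normSq_apply, normSq_apply, normSq_apply]
      simp only [add_re, add_im, mul_re, mul_im, ofReal_re, ofReal_im]
      ring
    rw [mul_pow, mul_pow, ← mul_add, h1]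
  have hq : 1 - 2 * (1 + A) * ε ^ 3 ≤ (ρ / N) ^ 2 := by
    have h1 : 1 - (1 + A) * ε ^ 3 ≤ ρ / N := by
      rw [le_div_iff₀ (by linarith), hρ, hN]
      have : 0 ≤ A * (1 + A) * (ε ^ 3 * ε ^ 3) := by positivity
      nlinarith
    have h2 : (1 + A) * ε ^ 3 ≤ 1 := by
      have h3 : ε ^ 3 ≤ ε := by
        calc ε ^ 3 ≤ ε ^ 1 := pow_le_pow_of_le_one hε.le hε1 (by norm_num)
          _ = ε := pow_one _
      calc (1 + A) * ε ^ 3 ≤ (1 + A) * ε := mul_le_mul_of_nonneg_left h3 (by positivity)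
        _ ≤ 1 := s2
    have h3 : 0 ≤ 1 - (1 + A) * ε ^ 3 := by linarith
    calc 1 - 2 * (1 + A) * ε ^ 3 ≤ (1 - (1 + A) * ε ^ 3) ^ 2 := by
          nlinarith [sq_nonneg ((1 + A) * ε ^ 3)]
      _ ≤ (ρ / N) ^ 2 := pow_le_pow_left₀ h3 h1 2
  rw [hpar]
  have h1 : ‖β‖ ^ 2 + ε ^ 2 ≤ ‖β‖ ^ 2 + ε ^ 2 * ‖e‖ ^ 2 := by
    have : 1 ≤ ‖e‖ ^ 2 := one_le_pow₀ he
    nlinarith [sq_nonneg ε]
  have h2 : ‖β‖ ^ 2 ≤ 1 := by nlinarith [norm_nonneg β]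
  have h3 : (ρ / N) ^ 2 * (2 * (‖β‖ ^ 2 + ε ^ 2)) ≤
      (ρ / N) ^ 2 * (2 * (‖β‖ ^ 2 + ε ^ 2 * ‖e‖ ^ 2)) :=
    mul_le_mul_of_nonneg_left (by linarith) (sq_nonneg _)
  have h4 : (1 - 2 * (1 + A) * ε ^ 3) * (2 * (‖β‖ ^ 2 + ε ^ 2)) ≤
      (ρ / N) ^ 2 * (2 * (‖β‖ ^ 2 + ε ^ 2)) :=
    mul_le_mul_of_nonneg_right hq (by positivity)
  have h5 : 2 * (1 + A) * ε ^ 3 * (2 * (‖β‖ ^ 2 + ε ^ 2)) ≤ 2 * (1 + A) * ε ^ 3 * (2 * 2) := by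
    refine mul_le_mul_of_nonneg_left ?_ (by positivity)
    linarith
  linarith

theorem comp_diff {F V : ℂ → ℂ} (hF : DifferentiableOn ℂ F (ball 0 1)) (hV : SchS V) :
    DifferentiableOn ℂ (fun z => F (V z)) (ball 0 1) := by
  refine hF.comp hV.1 ?_
  intro z hz
  rw [mem_ball_zero_iff] at hz ⊢
  exact (hV.2.1 z (mem_ball_zero_iff.2 hz)).trans_lt hz

theorem D_gain {F V₁ V₂ ω : ℂ → ℂ} (hF : DifferentiableOn ℂ F (ball 0 1)) (h1 : SchS V₁)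
    (h2 : SchS V₂) (h0 : SchS ω) (n : ℕ) {X : ℝ}
    (hpt : ∀ z : ℂ, ‖z‖ = 1 / 2 → ‖F (V₁ z) + F (V₂ z) - 2 * F (ω z)‖ ≤ X) {l : ℂ} (hl : ‖l‖ ≤ 1) :
    2 * (l * iteratedDeriv n (fun z => F (ω z)) 0).re - n.factorial * 2 ^ n * X ≤
      (l * iteratedDeriv n (fun z => F (V₁ z)) 0).re +
      (l * iteratedDeriv n (fun z => F (V₂ z)) 0).re := by
  have hd1 := comp_diff hF h1
  have hd2 := comp_diff hF h2
  have hd0 := comp_diff hF h0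
  have hD := Dbound ((hd1.add hd2).sub (hd0.const_mul 2)) n hpt
  have hDe : iteratedDeriv n (fun z => F (V₁ z) + F (V₂ z) - 2 * F (ω z)) 0 =
      iteratedDeriv n (fun z => F (V₁ z)) 0 + iteratedDeriv n (fun z => F (V₂ z)) 0 -
        2 * iteratedDeriv n (fun z => F (ω z)) 0 := by
    rw [iteratedDeriv_fun_sub ((contDiffAt_zero hd1).add (contDiffAt_zero hd2))
      (contDiffAt_zero (hd0.const_mul 2)), iteratedDeriv_fun_add (contDiffAt_zero hd1)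
      (contDiffAt_zero hd2), iteratedDeriv_const_mul_field]
  have hDe' : ‖iteratedDeriv n (fun z => F (V₁ z)) 0 + iteratedDeriv n (fun z => F (V₂ z)) 0 -
        2 * iteratedDeriv n (fun z => F (ω z)) 0‖ ≤ n.factorial * 2 ^ n * X := by
    rw [← hDe]; exact hD
  generalize iteratedDeriv n (fun z => F (V₁ z)) 0 = a1 at *
  generalize iteratedDeriv n (fun z => F (V₂ z)) 0 = a2 at *
  generalize iteratedDeriv n (fun z => F (ω z)) 0 = a0 at *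
  have h1 : (l * a1).re + (l * a2).re - 2 * (l * a0).re = (l * (a1 + a2 - 2 * a0)).re := by
    have e : l * (a1 + a2 - 2 * a0) = l * a1 + l * a2 - ((2 : ℝ) : ℂ) * (l * a0) := by
      push_cast; ring
    rw [e, sub_re, add_re, re_ofReal_mul]
  have h2 : |(l * (a1 + a2 - 2 * a0)).re| ≤ ‖l * (a1 + a2 - 2 * a0)‖ := abs_re_le_norm _
  rw [norm_mul] at h2
  have h3 : ‖l‖ * ‖a1 + a2 - 2 * a0‖ ≤ 1 * (n.factorial * 2 ^ n * X) :=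
    mul_le_mul hl hDe' (norm_nonneg _) zero_le_one
  have h4 := neg_abs_le (l * (a1 + a2 - 2 * a0)).re
  linarith

/-- The strict gain. -/
theorem gain {F Θ : ℂ → ℂ} {b C₀ M : ℝ} (hΘc : Conv Θ b C₀)
    (hF : DifferentiableOn ℂ F (ball 0 1))
    (hM1 : ∀ w : ℂ, ‖w‖ ≤ 3 / 4 → ‖deriv F w‖ ≤ M)
    (hM3 : ∀ w : ℂ, ‖w‖ ≤ 3 / 4 → ‖deriv (deriv (deriv F)) w‖ ≤ M)
    (hΘ : ∀ w ∈ ball (0 : ℂ) 1, deriv (deriv F) w = Θ w * deriv F w)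
    (n : ℕ) {l : ℂ} (hl : ‖l‖ ≤ 1) {δ : ℝ} (hδ : 0 < δ) {η : ℝ} (hη : 0 < η) :
    ∃ c₀ : ℝ, 0 < c₀ ∧ ∀ ω : ℂ → ℂ, SchS ω → ‖deriv ω 0‖ ≤ 1 - η →
      ∃ V₁ V₂ : ℂ → ℂ, SchS V₁ ∧ SchS V₂ ∧
        2 * ((l * iteratedDeriv n (fun z => F (ω z)) 0).re + δ * ‖deriv ω 0‖ ^ 2) + c₀ ≤
        ((l * iteratedDeriv n (fun z => F (V₁ z)) 0).re + δ * ‖deriv V₁ 0‖ ^ 2) +
        ((l * iteratedDeriv n (fun z => F (V₂ z)) 0).re + δ * ‖deriv V₂ 0‖ ^ 2) := by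
  have hM0 : 0 ≤ M := (norm_nonneg _).trans (hM1 0 (by rw [norm_zero]; norm_num))
  have hC0 := hΘc.C0
  have hb0 := hΘc.b0
  obtain ⟨κ, hκ⟩ : ∃ κ : ℝ, κ = η⁻¹ := ⟨_, rfl⟩
  have hκ0 : 0 < κ := by rw [hκ]; positivity
  obtain ⟨C, hC⟩ : ∃ C : ℝ, C = 2 * C₀ := ⟨_, rfl⟩
  have hC' : 0 ≤ C := by rw [hC]; positivity
  obtain ⟨A, hA⟩ : ∃ A : ℝ, A = 32 * κ ^ 2 * b + 32 * κ ^ 3 * C + 16 * κ ^ 4 * C ^ 2 := ⟨_, rfl⟩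
  have hA0 : 0 ≤ A := by rw [hA]; positivity
  obtain ⟨M', hM'⟩ : ∃ M' : ℝ,
    M' = M * (2 * (3 + 9 / 2 * (2 * C)) ^ 3 + 21 * (2 * C) ^ 3 + 2 * A + 2) := ⟨_, rfl⟩
  have hM'0 : 0 ≤ M' := by rw [hM']; positivity
  obtain ⟨C3, hC3⟩ : ∃ C3 : ℝ, C3 = n.factorial * 2 ^ n * M' + 8 * δ * (1 + A) := ⟨_, rfl⟩
  have hC30 : 0 ≤ C3 := by rw [hC3]; positivity
  obtain ⟨ε, hε, hε1, s1, s2, s3⟩ := small_eps (a₁ := 3 + 9 / 2 * (2 * C)) (a₂ := 1 + A)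
    (a₃ := C3) (c₁ := 1 / 8) (c₂ := 1) (c₃ := δ) (by positivity) (by positivity) hC30
    (by norm_num) one_pos hδ
  obtain ⟨ρ, hρ⟩ : ∃ ρ : ℝ, ρ = 1 - ε ^ 3 := ⟨_, rfl⟩
  obtain ⟨N, hN⟩ : ∃ N : ℝ, N = 1 + A * ε ^ 3 := ⟨_, rfl⟩
  have hε3 : 0 < ε ^ 3 := by positivity
  have hε3' : ε ^ 3 ≤ 1 := pow_le_one₀ hε.le hε1
  have hρ0 : 0 ≤ ρ := by rw [hρ]; linarith
  have hρ1 : ρ < 1 := by rw [hρ]; linarith
  have hN1 : 1 ≤ N := by rw [hN]; nlinarith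
  refine ⟨δ * ε ^ 2, by positivity, ?_⟩
  intro ω hω hβη
  obtain ⟨B, hB, hB1, hωB⟩ := schwarz_pick hω
  have hβ := hω.2.2
  obtain ⟨β, hβd⟩ : ∃ β : ℂ, β = deriv ω 0 := ⟨_, rfl⟩
  rw [← hβd] at hωB hβ hβη ⊢
  have h0b : (0 : ℂ) ∈ ball (0 : ℂ) 1 := mem_ball_self one_pos
  obtain ⟨c, hc, hce⟩ := choose_c (u := B 0)
  have hTd := T_diff hΘc hρ0 hρ1
  have hκβ : (1 - ‖β‖)⁻¹ ≤ κ := by
    rw [hκ]
    exact inv_anti₀ hη (by linarith)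
  have hp : |ε| = ε := abs_of_pos hε
  have hm : |-ε| = ε := by rw [abs_neg, hp]
  obtain ⟨hV1, hV1'⟩ := Vf_SchS (c := c) hβ hB hB1 hTd hρ0 hρ1 hN1
    (fun z u hz hu => W_le_N hΘc hβ hc hκβ hC hA hε hε1 hρ hN hp hz hu)
  obtain ⟨hV2, hV2'⟩ := Vf_SchS (c := c) hβ hB hB1 hTd hρ0 hρ1 hN1
    (fun z u hz hu => W_le_N hΘc hβ hc hκβ hC hA hε hε1 hρ hN hm hz hu)
  refine ⟨_, _, hV1, hV2, ?_⟩
  have hpt : ∀ z : ℂ, ‖z‖ = 1 / 2 →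
      ‖F (Vf β c (ρ / N) ε (fun w => (ρ : ℂ) * Θ (ρ * w)) B z) +
        F (Vf β c (ρ / N) (-ε) (fun w => (ρ : ℂ) * Θ (ρ * w)) B z) - 2 * F (ω z)‖ ≤
        M' * ε ^ 3 := by
    intro z hz
    have hzb : z ∈ ball (0 : ℂ) 1 := mem_ball_zero_iff.2 (by rw [hz]; norm_num)
    rw [hωB z hzb, hM']
    unfold Vf
    exact pt_est hΘc hF hM1 hM3 hΘ hβ hc hC hA0 hε hε1 hρ hN s1 hz (hB1 z hzb)
  have hD := D_gain hF hV1 hV2 hω n hpt hl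
  have hG := deriv_gain hβ hce hA0 hε hε1 hρ hN s2 rfl rfl
  rw [← hV1', ← hV2'] at hG
  have hfin : C3 * ε ^ 3 ≤ δ * ε ^ 2 := by
    have : C3 * ε ^ 3 = (C3 * ε) * ε ^ 2 := by ring
    rw [this]
    exact mul_le_mul_of_nonneg_right s3 (sq_nonneg _)
  have hg2 := mul_le_mul_of_nonneg_left hG hδ.le
  have hC3e : C3 * ε ^ 3 = n.factorial * 2 ^ n * (M' * ε ^ 3) + δ * (8 * (1 + A) * ε ^ 3) := by
    rw [hC3]; ring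
  rw [hC3e] at hfin
  linarith

end Pool.Agent.Y242.AC
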