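import Mathlib
import Pool.Agent.Y242.AC13

set_option autoImplicit false
open Complex Metric Set Filter Topology

namespace Pool.Agent.Y242.AC


/-- near the rotations -/
theorem near_rot {F : ℂ → ℂ} {M : ℝ} (hF : DifferentiableOn ℂ F (ball 0 1))
    (hM1 : ∀ w : ℂ, ‖w‖ ≤ 3 / 4 → ‖deriv F w‖ ≤ M) (n : ℕ) {ω : ℂ → ℂ} (hω : SchS ω) {η : ℝ}
    (hη : 1 - η ≤ ‖deriv ω 0‖) :
    ‖iteratedDeriv n (fun z => F (ω z)) 0‖ ≤ ‖iteratedDeriv n F 0‖ +
      n.factorial * 2 ^ n * (M * η) := by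
  have hM0 : 0 ≤ M := (norm_nonneg _).trans (hM1 0 (by rw [norm_zero]; norm_num))
  obtain ⟨B, hB, hB1, hωB⟩ := schwarz_pick hω
  have hd0 := comp_diff hF hω
  have hβ := hω.2.2
  obtain ⟨β, hβd⟩ : ∃ β : ℂ, β = deriv ω 0 := ⟨_, rfl⟩
  rw [← hβd] at hωB hβ hη
  have hdr : DifferentiableOn ℂ (fun z => F (β * z)) (ball 0 1) := by
    refine hF.comp (by fun_prop) ?_
    intro z hz
    rw [mem_ball_zero_iff] at hz ⊢
    rw [norm_mul]; nlinarith [norm_nonneg z, norm_nonneg β]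
  have hpt : ∀ z : ℂ, ‖z‖ = 1 / 2 → ‖F (ω z) - F (β * z)‖ ≤ M * η := by
    intro z hz
    have hzb : z ∈ ball (0 : ℂ) 1 := mem_ball_zero_iff.2 (by rw [hz]; norm_num)
    have hu := hB1 z hzb
    have h1 : ‖ω z‖ ≤ 1 / 2 := by rw [← hz]; exact hω.2.1 z hzb
    have h2 : ‖β * z‖ ≤ 1 / 2 := by rw [norm_mul, hz]; linarith
    refine (lip hF hM1 (by linarith) (by linarith)).trans ?_
    refine mul_le_mul_of_nonneg_left ?_ hM0
    rw [hωB z hzb, Om]
    obtain ⟨d1, d2, d3⟩ := mob_norm hβ (zu_le (by rw [hz]; norm_num : ‖z‖ ≤ 1) hu)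
    have h3 : ‖(starRingEnd ℂ) β * (z * B z)‖ ≤ 1 / 2 := by
      rw [norm_mul, norm_mul, RCLike.norm_conj, hz]
      nlinarith [norm_nonneg β, norm_nonneg (B z)]
    have h4 : 1 / 2 ≤ ‖1 + (starRingEnd ℂ) β * (z * B z)‖ := by
      have := one_sub_ge (w := -((starRingEnd ℂ) β * (z * B z))) (by rwa [norm_neg])
      rwa [sub_neg_eq_add] at this
    have e : z * ((z * B z + β) / (1 + (starRingEnd ℂ) β * (z * B z))) - β * z =
        z * (z * B z) * ((1 - ‖β‖ ^ 2 : ℝ) : ℂ) / (1 + (starRingEnd ℂ) β * (z * B z)) := by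
      have h5 : ((‖β‖ ^ 2 : ℝ) : ℂ) = β * (starRingEnd ℂ) β := by
        rw [mul_conj, ← Complex.sq_norm]
      rw [ofReal_sub, h5, ofReal_one, eq_div_iff d1]
      have e5 : z * ((z * B z + β) / (1 + (starRingEnd ℂ) β * (z * B z))) * (1 + (starRingEnd ℂ) β * (z * B z)) =
          z * (z * B z + β) := by rw [mul_assoc, div_mul_cancel₀ _ d1]
      linear_combination e5
    have h6 : 0 ≤ 1 - ‖β‖ ^ 2 := by nlinarith [norm_nonneg β]
    rw [e, norm_div, norm_mul, norm_mul, norm_mul, norm_real, Real.norm_of_nonneg h6, hz,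
      div_le_iff₀ (by linarith)]
    have h7 : 1 - ‖β‖ ^ 2 ≤ 2 * η := by nlinarith [norm_nonneg β]
    have h8 : (1 : ℝ) / 2 * (1 / 2 * ‖B z‖) ≤ 1 / 4 := by nlinarith [norm_nonneg (B z)]
    have h9 : 0 ≤ η := by linarith
    calc (1 : ℝ) / 2 * (1 / 2 * ‖B z‖) * (1 - ‖β‖ ^ 2) ≤ 1 / 4 * (2 * η) :=
          mul_le_mul h8 h7 h6 (by norm_num)
      _ = η * (1 / 2) := by ring
      _ ≤ η * ‖1 + (starRingEnd ℂ) β * (z * B z)‖ := mul_le_mul_of_nonneg_left h4 h9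
  have hD := Dbound (hd0.sub hdr) n hpt
  have hDe : iteratedDeriv n (fun z => F (ω z) - F (β * z)) 0 =
      iteratedDeriv n (fun z => F (ω z)) 0 - iteratedDeriv n (fun z => F (β * z)) 0 :=
    iteratedDeriv_fun_sub (contDiffAt_zero hd0) (contDiffAt_zero hdr)
  have hD' : ‖iteratedDeriv n (fun z => F (ω z)) 0 - iteratedDeriv n (fun z => F (β * z)) 0‖ ≤
      n.factorial * 2 ^ n * (M * η) := by rw [← hDe]; exact hD
  have hsc := iteratedDeriv_scale hF hβ.le n 0 (mem_ball_self one_pos)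
  rw [mul_zero] at hsc
  have hsn : ‖iteratedDeriv n (fun z => F (β * z)) 0‖ ≤ ‖iteratedDeriv n F 0‖ := by
    rw [hsc, norm_mul, norm_pow]
    exact mul_le_of_le_one_left (norm_nonneg _) (pow_le_one₀ (norm_nonneg _) hβ.le)
  have := norm_sub_norm_le (iteratedDeriv n (fun z => F (ω z)) 0)
    (iteratedDeriv n (fun z => F (β * z)) 0)
  linarith

theorem zero_SchS : SchS (fun _ => 0) :=
  ⟨differentiableOn_const 0, fun z _ => by simp, by simp⟩

/-- Main inequality for `SchS`. -/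
theorem domS {F Θ : ℂ → ℂ} {b C₀ M : ℝ} (hΘc : Conv Θ b C₀)
    (hF : DifferentiableOn ℂ F (ball 0 1))
    (hM : ∀ w : ℂ, ‖w‖ ≤ 3 / 4 → ‖F w‖ ≤ M)
    (hM1 : ∀ w : ℂ, ‖w‖ ≤ 3 / 4 → ‖deriv F w‖ ≤ M)
    (hM3 : ∀ w : ℂ, ‖w‖ ≤ 3 / 4 → ‖deriv (deriv (deriv F)) w‖ ≤ M)
    (hΘ : ∀ w ∈ ball (0 : ℂ) 1, deriv (deriv F) w = Θ w * deriv F w)
    (n : ℕ) {l : ℂ} (hl : ‖l‖ ≤ 1) {ω : ℂ → ℂ} (hω : SchS ω) :
    (l * iteratedDeriv n (fun z => F (ω z)) 0).re ≤ ‖iteratedDeriv n F 0‖ := by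
  refine le_of_forall_pos_le_add fun δ hδ => ?_
  set J : (ℂ → ℂ) → ℝ := fun ω =>
    (l * iteratedDeriv n (fun z => F (ω z)) 0).re + δ * ‖deriv ω 0‖ ^ 2 with hJ
  have hlre : ∀ a : ℂ, (l * a).re ≤ ‖a‖ := by
    intro a
    refine (re_le_norm _).trans ?_
    rw [norm_mul]
    exact mul_le_of_le_one_left (norm_nonneg _) hl
  have hdle : ∀ V : ℂ → ℂ, SchS V → δ * ‖deriv V 0‖ ^ 2 ≤ δ := by
    intro V hV
    have h1 := hV.2.2
    have : ‖deriv V 0‖ ^ 2 ≤ 1 := by nlinarith [norm_nonneg (deriv V 0)]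
    nlinarith
  have hbdd : BddAbove (J '' {V | SchS V}) := by
    refine ⟨n.factorial * 2 ^ n * M + δ, ?_⟩
    rintro _ ⟨V, hV, rfl⟩
    have hV' : SchS V := hV
    have h1 : ‖iteratedDeriv n (fun z => F (V z)) 0‖ ≤ n.factorial * 2 ^ n * M := by
      refine Dbound (comp_diff hF hV') n fun z hz => hM _ ?_
      have := hV'.2.1 z (mem_ball_zero_iff.2 (by rw [hz]; norm_num))
      linarith
    have h2 := hlre (iteratedDeriv n (fun z => F (V z)) 0)
    have h3 := hdle V hV'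
    simp only [hJ]
    linarith
  have hne : (J '' {V | SchS V}).Nonempty := ⟨_, mem_image_of_mem J zero_SchS⟩
  set S := sSup (J '' {V | SchS V}) with hS
  have hJS : ∀ V, SchS V → J V ≤ S := fun V hV => le_csSup hbdd (mem_image_of_mem J hV)
  have hM0 : 0 ≤ M := (norm_nonneg _).trans (hM1 0 (by rw [norm_zero]; norm_num))
  -- S ≤ ‖D F‖ + δ + C η
  have key : ∀ η : ℝ, 0 < η → S ≤ ‖iteratedDeriv n F 0‖ + δ + n.factorial * 2 ^ n * M * η := by
    intro η hη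
    by_contra hcon
    push Not at hcon
    obtain ⟨c₀, hc₀, hgain⟩ := gain hΘc hF hM1 hM3 hΘ n hl hδ hη
    have hlt : max (‖iteratedDeriv n F 0‖ + δ + n.factorial * 2 ^ n * M * η) (S - c₀ / 4) < S :=
      max_lt hcon (by linarith)
    obtain ⟨_, ⟨V, hV, rfl⟩, hVlt⟩ := exists_lt_of_lt_csSup hne hlt
    have hV' : SchS V := hV
    have hV1 := (le_max_left _ _).trans_lt hVlt
    have hV2 := (le_max_right _ _).trans_lt hVlt
    rcases le_or_gt ‖deriv V 0‖ (1 - η) with h | h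
    · obtain ⟨V₁, V₂, hV₁, hV₂, hg⟩ := hgain V hV' h
      have a1 := hJS V₁ hV₁
      have a2 := hJS V₂ hV₂
      simp only [hJ] at a1 a2 hV2
      linarith
    · have h1 := near_rot hF hM1 n hV' h.le
      have h2 := hlre (iteratedDeriv n (fun z => F (V z)) 0)
      have h3 := hdle V hV'
      simp only [hJ] at hV1
      have h4 : (n.factorial : ℝ) * 2 ^ n * (M * η) = n.factorial * 2 ^ n * M * η := by ring
      linarith
  have hS2 : S ≤ ‖iteratedDeriv n F 0‖ + δ := by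
    refine le_of_forall_pos_le_add fun e he => ?_
    have hK : 0 < n.factorial * 2 ^ n * M + 1 := by positivity
    have h1 := key (e / (n.factorial * 2 ^ n * M + 1)) (by positivity)
    have h2 : n.factorial * 2 ^ n * M * (e / (n.factorial * 2 ^ n * M + 1)) ≤ e := by
      rw [mul_div_assoc', div_le_iff₀ hK]
      nlinarith
    linarith
  have h1 := hJS ω hω
  have h2 : 0 ≤ δ * ‖deriv ω 0‖ ^ 2 := by positivity
  simp only [hJ] at h1
  linarith

/-- **Theorem V** : coefficient domination -/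
theorem dom {F Θ : ℂ → ℂ} {b C₀ : ℝ} (hΘc : Conv Θ b C₀)
    (hF : DifferentiableOn ℂ F (ball 0 1))
    (hΘ : ∀ w ∈ ball (0 : ℂ) 1, deriv (deriv F) w = Θ w * deriv F w)
    (n : ℕ) {ω : ℂ → ℂ} (hω : DifferentiableOn ℂ ω (ball 0 1))
    (hω1 : ∀ z ∈ ball (0 : ℂ) 1, ‖ω z‖ ≤ ‖z‖) :
    ‖iteratedDeriv n (fun z => F (ω z)) 0‖ ≤ ‖iteratedDeriv n F 0‖ := by
  -- bounds on a compact disc
  have hF1 : DifferentiableOn ℂ (deriv F) (ball 0 1) := hF.deriv isOpen_ball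
  have hF2 : DifferentiableOn ℂ (deriv (deriv F)) (ball 0 1) := hF1.deriv isOpen_ball
  have hF3 : DifferentiableOn ℂ (deriv (deriv (deriv F))) (ball 0 1) := hF2.deriv isOpen_ball
  have hcb : closedBall (0 : ℂ) (3 / 4) ⊆ ball 0 1 := closedBall_subset_ball (by norm_num)
  have hcpt : IsCompact (closedBall (0 : ℂ) (3 / 4)) := isCompact_closedBall _ _
  obtain ⟨m0, hm0⟩ := hcpt.exists_bound_of_continuousOn (hF.continuousOn.mono hcb)
  obtain ⟨m1, hm1⟩ := hcpt.exists_bound_of_continuousOn (hF1.continuousOn.mono hcb)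
  obtain ⟨m3, hm3⟩ := hcpt.exists_bound_of_continuousOn (hF3.continuousOn.mono hcb)
  set M := max m0 (max m1 m3) with hMd
  have hM : ∀ w : ℂ, ‖w‖ ≤ 3 / 4 → ‖F w‖ ≤ M := fun w hw =>
    (hm0 w (mem_closedBall_zero_iff.2 hw)).trans (le_max_left _ _)
  have hM1 : ∀ w : ℂ, ‖w‖ ≤ 3 / 4 → ‖deriv F w‖ ≤ M := fun w hw =>
    (hm1 w (mem_closedBall_zero_iff.2 hw)).trans ((le_max_left _ _).trans (le_max_right _ _))
  have hM3 : ∀ w : ℂ, ‖w‖ ≤ 3 / 4 → ‖deriv (deriv (deriv F)) w‖ ≤ M := fun w hw =>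
    (hm3 w (mem_closedBall_zero_iff.2 hw)).trans ((le_max_right _ _).trans (le_max_right _ _))
  have hM0 : 0 ≤ M := (norm_nonneg _).trans (hM1 0 (by rw [norm_zero]; norm_num))
  have h0b : (0 : ℂ) ∈ ball (0 : ℂ) 1 := mem_ball_self one_pos
  -- norm version for SchS
  have hS : ∀ V : ℂ → ℂ, SchS V →
      ‖iteratedDeriv n (fun z => F (V z)) 0‖ ≤ ‖iteratedDeriv n F 0‖ := by
    intro V hV
    set a := iteratedDeriv n (fun z => F (V z)) 0 with ha
    rcases eq_or_ne a 0 with h | h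
    · rw [h, norm_zero]; exact norm_nonneg _
    · have hn : 0 < ‖a‖ := norm_pos_iff.2 h
      have hl : ‖(starRingEnd ℂ) a / (‖a‖ : ℂ)‖ ≤ 1 := by
        rw [norm_div, RCLike.norm_conj, norm_real, norm_norm, div_self hn.ne']
      have h1 := domS hΘc hF hM hM1 hM3 hΘ n hl hV
      rw [← ha] at h1
      have h2 : (starRingEnd ℂ) a / (‖a‖ : ℂ) * a = ((‖a‖ : ℝ) : ℂ) := by
        have h3 : (starRingEnd ℂ) a * a = ((‖a‖ ^ 2 : ℝ) : ℂ) := by
          rw [mul_comm, mul_conj, ← Complex.sq_norm]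
        have h4 : (‖a‖ : ℂ) ≠ 0 := by exact_mod_cast hn.ne'
        field_simp
        rw [h3]
        push_cast
        ring
      rw [h2, ofReal_re] at h1
      exact h1
  -- limit r → 1
  have hcd : DifferentiableOn ℂ (fun z => F (ω z)) (ball 0 1) := by
    refine hF.comp hω ?_
    intro z hz
    rw [mem_ball_zero_iff] at hz ⊢
    exact (hω1 z (mem_ball_zero_iff.2 hz)).trans_lt hz
  refine le_of_forall_pos_le_add fun e he => ?_
  set K := (n.factorial : ℝ) * 2 ^ n * M + 1 with hK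
  have hK0 : 0 < K := by positivity
  obtain ⟨t, ht0, ht1, htK⟩ : ∃ t : ℝ, 0 < t ∧ t ≤ 1 ∧ K * t ≤ e := by
    refine ⟨min 1 (e / K), by positivity, min_le_left _ _, ?_⟩
    calc K * min 1 (e / K) ≤ K * (e / K) := mul_le_mul_of_nonneg_left (min_le_right _ _) hK0.le
      _ = e := by field_simp
  set r := 1 - t with hr
  have hr0 : 0 ≤ r := by linarith
  have hrn : ‖(r : ℂ)‖ = r := by rw [norm_real, Real.norm_of_nonneg hr0]
  have hV : SchS (fun z => (r : ℂ) * ω z) := by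
    refine ⟨hω.const_mul _, fun z hz => ?_, ?_⟩
    · rw [norm_mul, hrn]
      have := hω1 z hz
      nlinarith [norm_nonneg (ω z)]
    · have hω0 : ω 0 = 0 := by
        have := hω1 0 h0b
        rw [norm_zero] at this
        exact norm_le_zero_iff.1 this
      have h1 : ‖deriv ω 0‖ ≤ 1 := by
        have := norm_deriv_le_div_of_mapsTo_ball (c := 0) (R₁ := 1) (R₂ := 1) hω (fun z hz => by
          rw [hω0, mem_closedBall_zero_iff]
          exact (hω1 z hz).trans (mem_ball_zero_iff.1 hz).le) one_pos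
        simpa using this
      have h2 : deriv (fun z => (r : ℂ) * ω z) 0 = r * deriv ω 0 :=
        deriv_const_mul _ (hω.differentiableAt (isOpen_ball.mem_nhds h0b))
      rw [h2, norm_mul, hrn]
      nlinarith [norm_nonneg (deriv ω 0)]
  have h1 := hS _ hV
  have hdr := comp_diff hF hV
  have hpt : ∀ z : ℂ, ‖z‖ = 1 / 2 → ‖F (ω z) - F (r * ω z)‖ ≤ M * t := by
    intro z hz
    have hzb : z ∈ ball (0 : ℂ) 1 := mem_ball_zero_iff.2 (by rw [hz]; norm_num)
    have h1 : ‖ω z‖ ≤ 1 / 2 := by rw [← hz]; exact hω1 z hzb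
    have h2 : ‖(r : ℂ) * ω z‖ ≤ 1 / 2 := by
      rw [norm_mul, hrn]; nlinarith [norm_nonneg (ω z)]
    refine (lip hF hM1 (by linarith) (by linarith)).trans ?_
    refine mul_le_mul_of_nonneg_left ?_ hM0
    have e1 : ω z - r * ω z = (t : ℂ) * ω z := by rw [hr]; push_cast; ring
    rw [e1, norm_mul, norm_real, Real.norm_of_nonneg ht0.le]
    nlinarith [norm_nonneg (ω z)]
  have hD := Dbound (hcd.sub hdr) n hpt
  have hDe : iteratedDeriv n (fun z => F (ω z) - F (r * ω z)) 0 =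
      iteratedDeriv n (fun z => F (ω z)) 0 - iteratedDeriv n (fun z => F (r * ω z)) 0 :=
    iteratedDeriv_fun_sub (contDiffAt_zero hcd) (contDiffAt_zero hdr)
  have hD' : ‖iteratedDeriv n (fun z => F (ω z)) 0 - iteratedDeriv n (fun z => F (r * ω z)) 0‖ ≤
      n.factorial * 2 ^ n * (M * t) := by rw [← hDe]; exact hD
  have h3 := norm_sub_norm_le (iteratedDeriv n (fun z => F (ω z)) 0)
    (iteratedDeriv n (fun z => F (r * ω z)) 0)
  have h4 : (n.factorial : ℝ) * 2 ^ n * (M * t) ≤ e := by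
    have : (n.factorial : ℝ) * 2 ^ n * (M * t) = K * t - t := by rw [hK]; ring
    rw [this]; linarith
  linarith

end Pool.Agent.Y242.AC
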