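import Mathlib

set_option autoImplicit false
open Complex Metric Set Filter Topology

namespace Pool.Agent.Y242.AC

/-- derivative of `t ↦ ‖G (γ t)‖²` type computations: real derivative of `re (G ∘ γ)`. -/
theorem hasDerivAt_re {G : ℂ → ℂ} {γ : ℝ → ℂ} {t : ℝ} {γ' : ℂ}
    (hG : DifferentiableAt ℂ G (γ t)) (hγ : HasDerivAt γ γ' t) :
    HasDerivAt (fun s => (G (γ s)).re) (deriv G (γ t) * γ').re t := by
  have h1 : HasDerivAt (fun s => G (γ s)) (deriv G (γ t) * γ') t := by
    have := hG.hasDerivAt.comp_of_eq t hγ rfl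
    exact this
  exact (reCLM.hasFDerivAt.comp_hasDerivAt t h1 : _)

/-- First-touch lemma (Miller–Mocanu): lower bound `0` for the real part. -/
theorem mm {g : ℂ → ℂ} (hg : DifferentiableOn ℂ g (ball 0 1)) {a : ℝ} (ha : 0 < a)
    (h0 : g 0 = a)
    (hT : ∀ z ∈ ball (0 : ℂ) 1, z ≠ 0 → (g z).re = 0 → (z * deriv g z).im = 0 →
      (z * deriv g z).re ≤ -((a ^ 2 + (g z).im ^ 2) / (2 * a)) → False) :
    ∀ z ∈ ball (0 : ℂ) 1, 0 < (g z).re := by
  by_contra hcon
  push Not at hcon
  obtain ⟨z1, hz1, hz1r⟩ := hcon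
  have hz1n : ‖z1‖ < 1 := mem_ball_zero_iff.1 hz1
  have hsub : closedBall (0 : ℂ) ‖z1‖ ⊆ ball 0 1 := closedBall_subset_ball hz1n
  have hcont : ContinuousOn (fun z => (g z).re) (closedBall 0 ‖z1‖) :=
    continuous_re.comp_continuousOn (hg.continuousOn.mono hsub)
  have hcomp : IsCompact (closedBall (0 : ℂ) ‖z1‖ ∩ (fun z => (g z).re) ⁻¹' Iic 0) :=
    (isCompact_closedBall _ _).of_isClosed_subset
      (hcont.preimage_isClosed_of_isClosed isClosed_closedBall isClosed_Iic) inter_subset_left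
  obtain ⟨z0, hz0, hmin⟩ := hcomp.exists_isMinOn ⟨z1, by simp, hz1r⟩ continuous_norm.continuousOn
  have hz0b : z0 ∈ ball (0 : ℂ) 1 := hsub hz0.1
  have hz0n : ‖z0‖ < 1 := mem_ball_zero_iff.1 hz0b
  have hz0r : (g z0).re ≤ 0 := hz0.2
  have hz0le : ‖z0‖ ≤ ‖z1‖ := mem_closedBall_zero_iff.1 hz0.1
  have hz00 : z0 ≠ 0 := by
    rintro rfl
    rw [h0] at hz0r
    simp at hz0r
    linarith
  have hpos0 : 0 < ‖z0‖ := norm_pos_iff.2 hz00
  have hin : ∀ w : ℂ, ‖w‖ < ‖z0‖ → 0 < (g w).re := by
    intro w hw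
    by_contra hc
    push Not at hc
    have : w ∈ closedBall (0 : ℂ) ‖z1‖ ∩ (fun z => (g z).re) ⁻¹' Iic 0 :=
      ⟨mem_closedBall_zero_iff.2 (by linarith), hc⟩
    have h2 := hmin this
    simp only [mem_ofPred_eq] at h2
    linarith
  have hgd : DifferentiableAt ℂ g z0 := hg.differentiableAt (isOpen_ball.mem_nhds hz0b)
  -- nonnegative on the closed ball
  have hle : ∀ w : ℂ, ‖w‖ ≤ ‖z0‖ → 0 ≤ (g w).re := by
    intro w hw
    rcases hw.lt_or_eq with h | h
    · exact (hin w h).le
    · have hwb : w ∈ ball (0 : ℂ) 1 := mem_ball_zero_iff.2 (by linarith)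
      have hc : ContinuousAt (fun t : ℝ => (g ((1 - t : ℝ) * w)).re) 0 := by
        have h1 : ContinuousAt g w := (hg.differentiableAt (isOpen_ball.mem_nhds hwb)).continuousAt
        have h2 : ContinuousAt (fun t : ℝ => ((1 - t : ℝ) : ℂ) * w) 0 := by fun_prop
        have h3 : ContinuousAt g ((fun t : ℝ => ((1 - t : ℝ) : ℂ) * w) 0) := by simpa using h1
        exact continuous_re.continuousAt.comp (ContinuousAt.comp h3 h2)
      have ht : Tendsto (fun t : ℝ => (g ((1 - t : ℝ) * w)).re) (𝓝[>] 0) (𝓝 (g w).re) := by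
        have := hc.tendsto.mono_left (nhdsWithin_le_nhds (s := Ioi 0))
        simpa using this
      refine ge_of_tendsto ht ?_
      have hI : Ioo (0 : ℝ) 1 ∈ 𝓝[>] (0 : ℝ) := Ioo_mem_nhdsGT one_pos
      filter_upwards [hI] with t ht
      refine (hin _ ?_).le
      rw [norm_mul, norm_real, Real.norm_of_nonneg (by linarith [ht.2]), h]
      nlinarith [ht.1, ht.2]
  have hz0e : (g z0).re = 0 := le_antisymm hz0r (hle z0 le_rfl)
  refine hT z0 hz0b hz00 hz0e ?_ ?_
  · -- imaginary part vanishes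
    have hγ : HasDerivAt (fun θ : ℝ => exp (θ * I) * z0) (I * z0) 0 := by
      have h1 : HasDerivAt (fun θ : ℝ => (θ : ℂ) * I) (1 * I) 0 :=
        (Complex.ofRealCLM.hasDerivAt (x := (0 : ℝ))).mul_const I
      have h2 := (h1.cexp).mul_const z0
      simpa using h2
    have hG : DifferentiableAt ℂ g ((fun θ : ℝ => exp (θ * I) * z0) 0) := by simpa using hgd
    have h3 := hasDerivAt_re (γ := fun θ : ℝ => exp (θ * I) * z0) hG hγ
    have h4 : IsLocalMin (fun s : ℝ => (g ((fun θ : ℝ => exp (θ * I) * z0) s)).re) 0 := by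
      refine Filter.Eventually.of_forall fun θ => ?_
      simp only [ofReal_zero, zero_mul, Complex.exp_zero, one_mul]
      rw [hz0e]
      apply hle
      rw [norm_mul, norm_exp_ofReal_mul_I, one_mul]
    have h5 := h4.hasDerivAt_eq_zero h3
    simp only [ofReal_zero, zero_mul, Complex.exp_zero, one_mul] at h5
    have h6 : (deriv g z0 * (I * z0)).re = -(z0 * deriv g z0).im := by
      simp [mul_re, mul_im]; ring
    linarith [h5, h6]
  · -- radial estimate
    set k := z0 * deriv g z0 with hk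
    -- Schwarz lemma
    have hw : ∀ t : ℝ, 0 < t → t < 1 →
        normSq (a - g ((1 - t : ℝ) * z0)) ≤ (1 - t) ^ 2 * normSq (a + g ((1 - t : ℝ) * z0)) := by
      intro t ht0 ht1
      have hd : DifferentiableOn ℂ (fun z => (a - g z) / (a + g z)) (ball 0 ‖z0‖) := by
        intro z hz
        have hz' : ‖z‖ < ‖z0‖ := mem_ball_zero_iff.1 hz
        have hzz : DifferentiableAt ℂ g z :=
          hg.differentiableAt (isOpen_ball.mem_nhds (mem_ball_zero_iff.2 (by linarith)))
        have hne : (a : ℂ) + g z ≠ 0 := by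
          intro h
          have := congrArg Complex.re h
          simp at this
          linarith [hin z hz']
        exact ((hzz.const_sub _).div (hzz.const_add _) hne).differentiableWithinAt
      have hm : MapsTo (fun z => (a - g z) / (a + g z)) (ball 0 ‖z0‖)
          (ball ((fun z => ((a : ℂ) - g z) / (a + g z)) 0) 1) := by
        intro z hz
        have hz' : ‖z‖ < ‖z0‖ := mem_ball_zero_iff.1 hz
        have h1 := hin z hz'
        simp only [h0, sub_self, zero_div, mem_ball_zero_iff, norm_div]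
        have hne : 0 < ‖(a : ℂ) + g z‖ := by
          rw [norm_pos_iff]
          intro h
          have := congrArg Complex.re h
          simp at this
          linarith
        rw [div_lt_one hne]
        have h2 : normSq (a - g z) < normSq (a + g z) := by
          simp only [normSq_apply, sub_re, sub_im, add_re, add_im, ofReal_re, ofReal_im]
          nlinarith
        rw [← Complex.sq_norm, ← Complex.sq_norm] at h2
        exact lt_of_pow_lt_pow_left₀ 2 (norm_nonneg _) h2
      have hzt : ((1 - t : ℝ) : ℂ) * z0 ∈ ball (0 : ℂ) ‖z0‖ := by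
        rw [mem_ball_zero_iff, norm_mul, norm_real, Real.norm_of_nonneg (by linarith)]
        nlinarith
      have h3 := Complex.dist_le_div_mul_dist_of_mapsTo_ball hd (hm.mono_right ball_subset_closedBall) hzt
      simp only [h0, sub_self, zero_div, dist_zero_right, norm_div] at h3
      have h4 : ‖((1 - t : ℝ) : ℂ) * z0‖ = (1 - t) * ‖z0‖ := by
        rw [norm_mul, norm_real, Real.norm_of_nonneg (by linarith)]
      have h5 := hin _ (mem_ball_zero_iff.1 hzt)
      have hne : 0 < ‖(a : ℂ) + g (((1 - t : ℝ) : ℂ) * z0)‖ := by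
        rw [norm_pos_iff]
        intro h
        have := congrArg Complex.re h
        simp only [add_re, ofReal_re, zero_re] at this
        linarith
      rw [h4, div_mul_eq_mul_div, one_mul, mul_div_assoc, div_self hpos0.ne', mul_one,
        div_le_iff₀ hne] at h3
      rw [← Complex.sq_norm, ← Complex.sq_norm, ← mul_pow]
      exact pow_le_pow_left₀ (norm_nonneg _) h3 2
    -- derivative of ψ
    set s := (g z0).im with hs
    have hgz : g z0 = I * s := by
      apply Complex.ext <;> simp [hz0e, hs]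
    have hγ : HasDerivAt (fun t : ℝ => ((1 - t : ℝ) : ℂ) * z0) (-z0) 0 := by
      have h1 : HasDerivAt (fun t : ℝ => ((1 - t : ℝ) : ℂ)) (-1) 0 := by
        have := (((hasDerivAt_id (0 : ℝ)).const_sub 1).ofReal_comp)
        simpa using this
      simpa using h1.mul_const z0
    have hgc : HasDerivAt (fun t : ℝ => g (((1 - t : ℝ) : ℂ) * z0)) (-k) 0 := by
      have hG : HasDerivAt g (deriv g z0) ((fun t : ℝ => ((1 - t : ℝ) : ℂ) * z0) 0) := by
        simpa using hgd.hasDerivAt
      have := hG.comp_of_eq (0 : ℝ) hγ rfl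
      have h2 : deriv g z0 * -z0 = -k := by rw [hk]; ring
      rw [h2] at this
      exact this
    have hre : HasDerivAt (fun t : ℝ => (g (((1 - t : ℝ) : ℂ) * z0)).re) (-k).re 0 :=
      (reCLM.hasFDerivAt.comp_hasDerivAt (0 : ℝ) hgc : _)
    have him : HasDerivAt (fun t : ℝ => (g (((1 - t : ℝ) : ℂ) * z0)).im) (-k).im 0 :=
      (imCLM.hasFDerivAt.comp_hasDerivAt (0 : ℝ) hgc : _)
    have hψ : HasDerivAt (fun t : ℝ =>
        (1 - t) ^ 2 * ((a + (g (((1 - t : ℝ) : ℂ) * z0)).re) ^ 2 +
          (g (((1 - t : ℝ) : ℂ) * z0)).im ^ 2) -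
        ((a - (g (((1 - t : ℝ) : ℂ) * z0)).re) ^ 2 + (g (((1 - t : ℝ) : ℂ) * z0)).im ^ 2))
        (-2 * (a ^ 2 + s ^ 2) - 4 * a * k.re) 0 := by
      have e1 : HasDerivAt (fun t : ℝ => (1 - t) ^ 2) (-2) 0 := by
        have := ((hasDerivAt_id (0 : ℝ)).const_sub 1).fun_pow 2
        simpa using this
      have e2 := ((hre.const_add a).fun_pow 2).fun_add (him.fun_pow 2)
      have e3 := ((hre.const_sub a).fun_pow 2).fun_add (him.fun_pow 2)
      have e4 := (e1.fun_mul e2).fun_sub e3
      have v1 : (g (((1 - (0 : ℝ) : ℝ) : ℂ) * z0)).re = 0 := by simp [hz0e]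
      have v2 : (g (((1 - (0 : ℝ) : ℝ) : ℂ) * z0)).im = s := by simp [hs]
      rw [v1, v2] at e4
      refine e4.congr_deriv ?_
      rw [neg_re]
      push_cast
      ring
    by_contra hcon
    push Not at hcon
    have hneg : -2 * (a ^ 2 + s ^ 2) - 4 * a * k.re < 0 := by
      have h1 : -((a ^ 2 + s ^ 2) / (2 * a)) * (4 * a) < k.re * (4 * a) :=
        mul_lt_mul_of_pos_right hcon (by linarith)
      have h2 : -((a ^ 2 + s ^ 2) / (2 * a)) * (4 * a) = -2 * (a ^ 2 + s ^ 2) := by
        field_simp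
        ring
      rw [h2] at h1
      linarith
    have hlim := hψ.tendsto_slope.mono_left (nhdsGT_le_nhdsNE (0 : ℝ))
    have hev := hlim.eventually (gt_mem_nhds hneg)
    have hI : Ioo (0 : ℝ) 1 ∈ 𝓝[>] (0 : ℝ) := Ioo_mem_nhdsGT one_pos
    obtain ⟨t, ht1, ht2⟩ := (hev.and hI).exists
    have h7 := hw t ht2.1 ht2.2
    simp only [normSq_apply, sub_re, sub_im, add_re, add_im, ofReal_re, ofReal_im] at h7
    rw [slope_def_field] at ht1
    have h8 : (a + (g (((1 - 0 : ℝ) : ℂ) * z0)).re) ^ 2 = a ^ 2 := by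
      simp [hz0e]
    have h9 : (a - (g (((1 - 0 : ℝ) : ℂ) * z0)).re) ^ 2 = a ^ 2 := by
      simp [hz0e]
    rw [h8, h9] at ht1
    have hden : 0 < t - 0 := by linarith [ht2.1]
    rw [div_lt_iff₀ hden] at ht1
    simp only [sub_zero] at ht1 h7
    nlinarith [ht1, h7]

end Pool.Agent.Y242.AC
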