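import Mathlib
import Pool.Agent.Y242.AC1
import Pool.Agent.Helper469.Univalent

set_option autoImplicit false
open Complex Metric Set Filter Topology

namespace Pool.Agent.Y242.AC

/-- Noshiro–Warschawski on a convex open set. -/
theorem nw {f : ℂ → ℂ} {U : Set ℂ} (hU : IsOpen U) (hc : Convex ℝ U)
    (hf : DifferentiableOn ℂ f U) (hp : ∀ z ∈ U, 0 < (deriv f z).re) {x y : ℂ} (hx : x ∈ U)
    (hy : y ∈ U) (hne : x ≠ y) : 0 < ((starRingEnd ℂ) (y - x) * (f y - f x)).re := by
  have hseg : ∀ t : ℝ, t ∈ Icc (0 : ℝ) 1 → x + t * (y - x) ∈ U := by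
    intro t ht
    have := hc hx hy (sub_nonneg.2 ht.2) ht.1 (by ring)
    convert this using 1
    simp only [real_smul, ofReal_sub, ofReal_one]
    ring
  have hder : ∀ t ∈ Icc (0 : ℝ) 1, HasDerivAt
      (fun t : ℝ => ((starRingEnd ℂ) (y - x) * f (x + t * (y - x))).re)
      (((starRingEnd ℂ) (y - x) * (deriv f (x + t * (y - x)) * (y - x))).re) t := by
    intro t ht
    have h1 : HasDerivAt (fun t : ℝ => x + (t : ℂ) * (y - x)) (y - x) t := by
      have := ((Complex.ofRealCLM.hasDerivAt (x := t)).mul_const (y - x)).const_add x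
      simpa using this
    have h2 : DifferentiableAt ℂ f (x + t * (y - x)) :=
      hf.differentiableAt (hU.mem_nhds (hseg t ht))
    have h3 := h2.hasDerivAt.comp_of_eq t h1 rfl
    have h4 := h3.const_mul ((starRingEnd ℂ) (y - x))
    exact (reCLM.hasFDerivAt.comp_hasDerivAt t h4 : _)
  obtain ⟨c, hc1, hc2⟩ := exists_hasDerivAt_eq_slope
    (fun t : ℝ => ((starRingEnd ℂ) (y - x) * f (x + t * (y - x))).re)
    (fun t : ℝ => ((starRingEnd ℂ) (y - x) * (deriv f (x + t * (y - x)) * (y - x))).re)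
    (zero_lt_one' ℝ) (fun t ht => (hder t ht).continuousAt.continuousWithinAt)
    (fun t ht => hder t ⟨ht.1.le, ht.2.le⟩)
  have h5 : 0 < ((starRingEnd ℂ) (y - x) * (deriv f (x + c * (y - x)) * (y - x))).re := by
    have h6 : (starRingEnd ℂ) (y - x) * (deriv f (x + c * (y - x)) * (y - x)) =
        (normSq (y - x) : ℝ) * deriv f (x + c * (y - x)) := by
      rw [← Complex.mul_conj]; ring
    rw [h6, re_ofReal_mul]
    refine mul_pos ?_ (hp _ (hseg c ⟨hc1.1.le, hc1.2.le⟩))
    exact normSq_pos.2 (sub_ne_zero.2 hne.symm)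
  simp only [ofReal_one, one_mul, ofReal_zero, zero_mul, add_zero, sub_zero, div_one,
    add_sub_cancel] at hc2
  rw [hc2] at h5
  rw [mul_sub, sub_re]
  exact h5

theorem star {k : ℂ → ℂ} (hk : DifferentiableOn ℂ k (ball 0 1))
    (hp : ∀ z ∈ ball (0 : ℂ) 1, 0 < (1 + z * deriv k z).re) {z1 z2 : ℂ}
    (h1 : z1 ∈ ball (0 : ℂ) 1) (h2 : z2 ∈ ball (0 : ℂ) 1) (h10 : z1 ≠ 0) (h20 : z2 ≠ 0) {κ : ℝ}
    (hκ : 1 ≤ κ) (h : z2 * exp (k z2) = κ * (z1 * exp (k z1))) :
    z1 = z2 ∨ (‖z1‖ < ‖z2‖ ∧ 1 < κ) := by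
  have hκ0 : (0 : ℝ) < κ := by linarith
  set G : ℂ → ℂ := fun s => s + k (exp s) with hG
  have hmem : ∀ s : ℂ, s.re < 0 → exp s ∈ ball (0 : ℂ) 1 := by
    intro s hs
    rw [mem_ball_zero_iff, norm_exp]
    rw [← Real.exp_zero]
    exact Real.exp_lt_exp.2 hs
  have hGd : ∀ s : ℂ, s.re < 0 → HasDerivAt G (1 + exp s * deriv k (exp s)) s := by
    intro s hs
    have e1 : HasDerivAt k (deriv k (exp s)) (exp s) :=
      (hk.differentiableAt (isOpen_ball.mem_nhds (hmem s hs))).hasDerivAt
    have e2 := e1.comp s (Complex.hasDerivAt_exp s)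
    have e3 := (hasDerivAt_id s).add e2
    rw [mul_comm] at e3
    exact e3
  have hU : IsOpen {s : ℂ | s.re < 0} := isOpen_lt continuous_re continuous_const
  have hUc : Convex ℝ {s : ℂ | s.re < 0} := convex_halfSpace_re_lt 0
  have hGdiff : DifferentiableOn ℂ G {s : ℂ | s.re < 0} := fun s hs =>
    (hGd s hs).differentiableAt.differentiableWithinAt
  have hGp : ∀ s ∈ {s : ℂ | s.re < 0}, 0 < (deriv G s).re := by
    intro s hs
    rw [(hGd s hs).deriv]
    exact hp _ (hmem s hs)
  have hlog : ∀ z : ℂ, z ∈ ball (0 : ℂ) 1 → z ≠ 0 → (log z).re < 0 := by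
    intro z hz hz0
    rw [log_re]
    exact Real.log_neg (norm_pos_iff.2 hz0) (mem_ball_zero_iff.1 hz)
  have hexpG : ∀ s : ℂ, exp (G s) = exp s * exp (k (exp s)) := by
    intro s; rw [hG]; simp only; rw [exp_add]
  have e1 : exp (G (log z2)) = exp ((Real.log κ : ℝ) + G (log z1)) := by
    rw [hexpG, exp_add, hexpG, exp_log h10, exp_log h20, h, ← ofReal_exp, Real.exp_log hκ0]
  obtain ⟨n, hn⟩ := exp_eq_exp_iff_exists_int.1 e1
  set s1 := log z1 with hs1
  set s2 := log z2 - n * (2 * Real.pi * I) with hs2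
  have hexp2 : exp s2 = z2 := by
    have : exp (log z2) = z2 := exp_log h20
    rw [hs2, exp_sub, this, exp_int_mul_two_pi_mul_I, div_one]
  have hs2re : s2.re = (log z2).re := by
    rw [hs2]; simp
  have hGs2 : G s2 - G s1 = (Real.log κ : ℝ) := by
    have : G s2 = G (log z2) - n * (2 * Real.pi * I) := by
      rw [hG]; simp only; rw [hexp2, exp_log h20, hs2]; ring
    rw [this, hn]; ring
  have hs1U : s1 ∈ {s : ℂ | s.re < 0} := hlog z1 h1 h10
  have hs2U : s2 ∈ {s : ℂ | s.re < 0} := by
    show s2.re < 0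
    rw [hs2re]; exact hlog z2 h2 h20
  by_cases hne : s1 = s2
  · left
    rw [← exp_log h10, ← hs1, hne, hexp2]
  · right
    have h3 := nw hU hUc hGdiff hGp hs1U hs2U hne
    rw [hGs2] at h3
    have h4 : ((starRingEnd ℂ) (s2 - s1) * ((Real.log κ : ℝ) : ℂ)).re =
        Real.log κ * (s2.re - s1.re) := by
      rw [mul_comm, re_ofReal_mul]; simp
    rw [h4] at h3
    have h5 : 0 ≤ Real.log κ := Real.log_nonneg hκ
    have h6 : 0 < Real.log κ := by
      rcases h5.lt_or_eq with h | h
      · exact h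
      · rw [← h] at h3; simp at h3
    have h7 : 0 < s2.re - s1.re := by
      by_contra hc
      push Not at hc
      nlinarith
    refine ⟨?_, ?_⟩
    · rw [hs2re, hs1, log_re, log_re] at h7
      have h8 : Real.log ‖z1‖ < Real.log ‖z2‖ := by linarith
      exact (Real.log_lt_log_iff (norm_pos_iff.2 h10) (norm_pos_iff.2 h20)).1 h8
    · by_contra hc
      push Not at hc
      have : κ = 1 := le_antisymm hc hκ
      rw [this, Real.log_one] at h6
      exact lt_irrefl _ h6

/-- injectivity from `Re ((1 - z) L'(z)) > 0` -/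
theorem log_inj {L : ℂ → ℂ} (hL : DifferentiableOn ℂ L (ball 0 1))
    (hp : ∀ z ∈ ball (0 : ℂ) 1, 0 < ((1 - z) * deriv L z).re) : InjOn L (ball 0 1) := by
  set U : Set ℂ := {s : ℂ | |s.im| < Real.pi / 2 ∧ Real.exp (-s.re) < 2 * Real.cos s.im} with hUdef
  have hUo : IsOpen U := by
    have h1 : IsOpen {s : ℂ | |s.im| < Real.pi / 2} :=
      isOpen_lt (continuous_abs.comp continuous_im) continuous_const
    have h2 : IsOpen {s : ℂ | Real.exp (-s.re) < 2 * Real.cos s.im} :=
      isOpen_lt (Real.continuous_exp.comp continuous_re.neg)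
        (continuous_const.mul (Real.continuous_cos.comp continuous_im))
    exact h1.inter h2
  have hUc : Convex ℝ U := by
    intro s hs t ht a b ha hb hab
    have hs1 := abs_lt.1 hs.1
    have ht1 := abs_lt.1 ht.1
    have him : (a • s + b • t).im = a * s.im + b * t.im := by simp
    have hre : (a • s + b • t).re = a * s.re + b * t.re := by simp
    constructor
    · rw [him, abs_lt]
      have e1 : a * s.im + b * t.im ≤ a * max s.im t.im + b * max s.im t.im :=
        add_le_add (mul_le_mul_of_nonneg_left (le_max_left _ _) ha)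
          (mul_le_mul_of_nonneg_left (le_max_right _ _) hb)
      have e2 : a * min s.im t.im + b * min s.im t.im ≤ a * s.im + b * t.im :=
        add_le_add (mul_le_mul_of_nonneg_left (min_le_left _ _) ha)
          (mul_le_mul_of_nonneg_left (min_le_right _ _) hb)
      rw [← add_mul, hab, one_mul] at e1 e2
      exact ⟨lt_of_lt_of_le (lt_min hs1.1 ht1.1) e2, lt_of_le_of_lt e1 (max_lt hs1.2 ht1.2)⟩
    · rw [him, hre]
      have h1 : Real.exp (-(a * s.re + b * t.re)) ≤ a * Real.exp (-s.re) + b * Real.exp (-t.re) := by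
        have := convexOn_exp.2 (mem_univ (-s.re)) (mem_univ (-t.re)) ha hb hab
        simp only [smul_eq_mul] at this
        have e : -(a * s.re + b * t.re) = a * -s.re + b * -t.re := by ring
        rw [e]
        exact this
      have h2 : a * Real.cos s.im + b * Real.cos t.im ≤ Real.cos (a * s.im + b * t.im) := by
        have := strictConcaveOn_cos_Icc.concaveOn.2 (x := s.im) (y := t.im)
          ⟨by linarith, by linarith⟩ ⟨by linarith, by linarith⟩ ha hb hab
        simpa only [smul_eq_mul] using this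
      have h3 : a * Real.exp (-s.re) + b * Real.exp (-t.re) <
          a * (2 * Real.cos s.im) + b * (2 * Real.cos t.im) := by
        rcases ha.lt_or_eq with h | h
        · have e1 := mul_lt_mul_of_pos_left hs.2 h
          have e2 := mul_le_mul_of_nonneg_left ht.2.le hb
          linarith
        · have hb1 : b = 1 := by linarith
          rw [← h, hb1]
          linarith [ht.2]
      linarith
  have hmem : ∀ s ∈ U, 1 - exp (-s) ∈ ball (0 : ℂ) 1 := by
    intro s hs
    rw [mem_ball_zero_iff]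
    have h1 : normSq (1 - exp (-s)) < 1 := by
      rw [normSq_apply]
      have e1 : (1 - exp (-s)).re = 1 - Real.exp (-s.re) * Real.cos s.im := by
        rw [sub_re, exp_re]; simp
      have e2 : (1 - exp (-s)).im = Real.exp (-s.re) * Real.sin s.im := by
        rw [sub_im, exp_im]; simp
      rw [e1, e2]
      have h3 := hs.2
      have h4 := Real.exp_pos (-s.re)
      have h5 := Real.sin_sq_add_cos_sq s.im
      have h6 : (1 - Real.exp (-s.re) * Real.cos s.im) * (1 - Real.exp (-s.re) * Real.cos s.im) +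
          Real.exp (-s.re) * Real.sin s.im * (Real.exp (-s.re) * Real.sin s.im) =
          1 - Real.exp (-s.re) * (2 * Real.cos s.im) + Real.exp (-s.re) ^ 2 *
            (Real.sin s.im ^ 2 + Real.cos s.im ^ 2) := by ring
      rw [h6, h5]
      nlinarith
    rw [← Complex.sq_norm] at h1
    nlinarith [norm_nonneg (1 - exp (-s))]
  set M : ℂ → ℂ := fun s => L (1 - exp (-s)) with hM
  have hMd : ∀ s ∈ U, HasDerivAt M ((1 - (1 - exp (-s))) * deriv L (1 - exp (-s))) s := by
    intro s hs
    have e1 : HasDerivAt (fun s : ℂ => 1 - exp (-s)) (exp (-s)) s := by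
      have := ((hasDerivAt_neg s).cexp).const_sub 1
      simpa using this
    have e2 := (hL.differentiableAt (isOpen_ball.mem_nhds (hmem s hs))).hasDerivAt.comp s e1
    have e3 : (1 - (1 - exp (-s))) * deriv L (1 - exp (-s)) = deriv L (1 - exp (-s)) * exp (-s) := by
      ring
    rw [e3]
    exact e2
  intro z1 hz1 z2 hz2 heq
  have hsz : ∀ z ∈ ball (0 : ℂ) 1, -log (1 - z) ∈ U ∧ 1 - exp (-(-log (1 - z))) = z := by
    intro z hz
    have hzn : ‖z‖ < 1 := mem_ball_zero_iff.1 hz
    have hzr : 0 < (1 - z).re := by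
      have := (abs_le.1 (abs_re_le_norm z)).2
      simp; linarith
    have hne : (1 : ℂ) - z ≠ 0 := by
      intro h; rw [h] at hzr; simp at hzr
    have hnp : 0 < ‖1 - z‖ := norm_pos_iff.2 hne
    refine ⟨⟨?_, ?_⟩, ?_⟩
    · rw [neg_im, log_im, abs_neg]
      exact abs_arg_lt_pi_div_two_iff.2 (Or.inl hzr)
    · rw [neg_re, neg_neg, log_re, neg_im, log_im, Real.cos_neg, Real.exp_log hnp, cos_arg hne]
      rw [← mul_div_assoc, lt_div_iff₀ hnp]
      have h1 : ‖1 - z‖ * ‖1 - z‖ = normSq (1 - z) := by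
        rw [← Complex.sq_norm]; ring
      have h2 : normSq z < 1 := by
        rw [← Complex.sq_norm]; nlinarith [norm_nonneg z]
      rw [h1]
      rw [normSq_apply] at h2 ⊢
      simp only [sub_re, one_re, sub_im, one_im]
      nlinarith
    · rw [neg_neg, exp_log hne]; ring
  obtain ⟨hU1, he1⟩ := hsz z1 hz1
  obtain ⟨hU2, he2⟩ := hsz z2 hz2
  by_contra hne
  have hne' : -log (1 - z1) ≠ -log (1 - z2) := by
    intro h
    apply hne
    rw [← he1, ← he2, h]
  have h3 := nw hUo hUc (f := M) (fun s hs => (hMd s hs).differentiableAt.differentiableWithinAt)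
    (fun s hs => by rw [(hMd s hs).deriv]; exact hp _ (hmem s hs)) hU1 hU2 hne'
  have h4 : M (-log (1 - z2)) - M (-log (1 - z1)) = 0 := by
    rw [hM]; simp only; rw [he1, he2, heq]; ring
  rw [h4] at h3
  simp at h3

end Pool.Agent.Y242.AC
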