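import Mathlib
import Pool.Agent.Y242.AC2
import Pool.Agent.Helper469.Univalent

set_option autoImplicit false
open Complex Metric Set Filter Topology

namespace Pool.Agent.Y242.AC

/-- the inverse of an injective map of the disc -/
noncomputable def ginv (g : ℂ → ℂ) : ℂ → ℂ := Function.invFunOn g (ball 0 1)

section inv
variable {g : ℂ → ℂ} (hg : DifferentiableOn ℂ g (ball 0 1)) (hi : InjOn g (ball (0 : ℂ) 1))
include hg hi

theorem ginv_apply {z : ℂ} (hz : z ∈ ball (0 : ℂ) 1) : ginv g (g z) = z :=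
  hi.leftInvOn_invFunOn hz

theorem gderiv_ne {z : ℂ} (hz : z ∈ ball (0 : ℂ) 1) : deriv g z ≠ 0 :=
  Pool.Agent.Helper469.Univalent.deriv_ne_zero_of_injOn isOpen_ball hg hi hz

theorem gmap_nhds {z : ℂ} (hz : z ∈ ball (0 : ℂ) 1) : map g (𝓝 z) = 𝓝 (g z) :=
  ((hg.analyticAt (isOpen_ball.mem_nhds hz)).hasStrictDerivAt).map_nhds_eq (gderiv_ne hg hi hz)

theorem gisOpen_image {V : Set ℂ} (hV : IsOpen V) (hV1 : V ⊆ ball (0 : ℂ) 1) :
    IsOpen (g '' V) := by
  rw [isOpen_iff_mem_nhds]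
  rintro _ ⟨z, hz, rfl⟩
  rw [← gmap_nhds hg hi (hV1 hz)]
  exact image_mem_map (hV.mem_nhds hz)

theorem ginv_hasDerivAt {z : ℂ} (hz : z ∈ ball (0 : ℂ) 1) :
    HasDerivAt (ginv g) (deriv g z)⁻¹ (g z) := by
  have hc : ContinuousAt (ginv g) (g z) := by
    rw [ContinuousAt, ginv_apply hg hi hz, ← gmap_nhds hg hi hz, tendsto_map'_iff]
    have h1 : (ginv g ∘ g) =ᶠ[𝓝 z] id := by
      filter_upwards [isOpen_ball.mem_nhds hz] with w hw
      exact ginv_apply hg hi hw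
    rw [tendsto_congr' h1]
    exact tendsto_id
  apply HasDerivAt.of_local_left_inverse hc
  · rw [ginv_apply hg hi hz]
    exact ((hg.analyticAt (isOpen_ball.mem_nhds hz)).hasStrictDerivAt).hasDerivAt
  · exact gderiv_ne hg hi hz
  · rw [← gmap_nhds hg hi hz]
    rw [eventually_map]
    filter_upwards [isOpen_ball.mem_nhds hz] with w hw
    rw [ginv_apply hg hi hw]

theorem ginv_differentiableAt {w : ℂ} (hw : w ∈ g '' ball (0 : ℂ) 1) :
    DifferentiableAt ℂ (ginv g) w := by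
  obtain ⟨z, hz, rfl⟩ := hw
  exact (ginv_hasDerivAt hg hi hz).differentiableAt

end inv

theorem max_deriv {s : ℂ → ℂ} {z1 : ℂ} (hs : DifferentiableAt ℂ s z1)
    (hmax : ∀ z, ‖z‖ ≤ ‖z1‖ → ‖s z‖ ≤ ‖s z1‖) :
    ((starRingEnd ℂ) (s z1) * (z1 * deriv s z1)).im = 0 ∧
      0 ≤ ((starRingEnd ℂ) (s z1) * (z1 * deriv s z1)).re := by
  set c := (starRingEnd ℂ) (s z1) with hc
  have hG : ∀ z, ‖z‖ ≤ ‖z1‖ → (c * s z).re ≤ (c * s z1).re := by
    intro z hz
    have h1 : (c * s z1).re = ‖s z1‖ * ‖s z1‖ := by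
      rw [hc, mul_comm, mul_conj, ofReal_re, ← Complex.sq_norm]; ring
    rw [h1]
    refine (re_le_norm _).trans ?_
    rw [norm_mul, hc, RCLike.norm_conj]
    exact mul_le_mul_of_nonneg_left (hmax z hz) (norm_nonneg _)
  have hd : DifferentiableAt ℂ (fun z => c * s z) z1 := hs.const_mul c
  have hdv : deriv (fun z => c * s z) z1 = c * deriv s z1 := deriv_const_mul _ hs
  constructor
  · have hγ : HasDerivAt (fun θ : ℝ => exp (θ * I) * z1) (I * z1) 0 := by
      have h1 : HasDerivAt (fun θ : ℝ => (θ : ℂ) * I) (1 * I) 0 :=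
        (Complex.ofRealCLM.hasDerivAt (x := (0 : ℝ))).mul_const I
      have h2 := (h1.cexp).mul_const z1
      simpa using h2
    have h3 := hasDerivAt_re (G := fun z => c * s z) (γ := fun θ : ℝ => exp (θ * I) * z1) (t := 0)
      (by simpa using hd) hγ
    have h4 : IsLocalMax (fun t : ℝ =>
        ((fun z => c * s z) ((fun θ : ℝ => exp (θ * I) * z1) t)).re) 0 := by
      refine Filter.Eventually.of_forall fun θ => ?_
      simp only [ofReal_zero, zero_mul, Complex.exp_zero, one_mul]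
      apply hG
      rw [norm_mul, norm_exp_ofReal_mul_I, one_mul]
    have h5 := h4.hasDerivAt_eq_zero h3
    simp only [ofReal_zero, zero_mul, Complex.exp_zero, one_mul] at h5
    rw [hdv] at h5
    have h6 : (c * deriv s z1 * (I * z1)).re = -(c * (z1 * deriv s z1)).im := by
      simp [mul_re, mul_im]; ring
    linarith
  · have hγ : HasDerivAt (fun t : ℝ => ((1 - t : ℝ) : ℂ) * z1) (-z1) 0 := by
      have h1 : HasDerivAt (fun t : ℝ => ((1 - t : ℝ) : ℂ)) (-1) 0 := by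
        have := (((hasDerivAt_id (0 : ℝ)).const_sub 1).ofReal_comp)
        simpa using this
      simpa using h1.mul_const z1
    have h3 := hasDerivAt_re (G := fun z => c * s z) (γ := fun t : ℝ => ((1 - t : ℝ) : ℂ) * z1)
      (t := 0) (by simpa using hd) hγ
    simp only [sub_zero, ofReal_one, one_mul] at h3
    rw [hdv] at h3
    have h7 : (c * deriv s z1 * -z1).re ≤ 0 := by
      have hlim := h3.tendsto_slope.mono_left (nhdsGT_le_nhdsNE (0 : ℝ))
      refine le_of_tendsto hlim ?_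
      have hI : Ioo (0 : ℝ) 1 ∈ 𝓝[>] (0 : ℝ) := Ioo_mem_nhdsGT one_pos
      filter_upwards [hI] with t ht
      rw [slope_def_field]
      apply div_nonpos_of_nonpos_of_nonneg
      · rw [sub_nonpos]
        simp only [sub_zero, ofReal_one, one_mul]
        apply hG
        rw [norm_mul, norm_real, Real.norm_of_nonneg (by linarith [ht.2])]
        nlinarith [norm_nonneg z1, ht.1]
      · linarith [ht.1]
    have h8 : (c * deriv s z1 * -z1).re = -(c * (z1 * deriv s z1)).re := by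
      rw [← neg_re]; congr 1; ring
    linarith

/-- Subordination from the absence of outward touching points. -/
theorem sub {g ψ : ℂ → ℂ} (hg : DifferentiableOn ℂ g (ball 0 1)) (hgi : InjOn g (ball (0 : ℂ) 1))
    (hg0 : g 0 = 0) (hψ : DifferentiableOn ℂ ψ (ball 0 1)) (hψ0 : ψ 0 = 0)
    (hT : ∀ z ∈ ball (0 : ℂ) 1, ∀ ζ ∈ ball (0 : ℂ) 1, ∀ κ : ℝ, ‖z‖ < ‖ζ‖ → 1 ≤ κ → ψ z = g ζ →
      z * deriv ψ z = κ * (ζ * deriv g ζ) → False) :
    ∃ ω : ℂ → ℂ, DifferentiableOn ℂ ω (ball 0 1) ∧ (∀ z ∈ ball (0 : ℂ) 1, ‖ω z‖ ≤ ‖z‖) ∧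
      ∀ z ∈ ball (0 : ℂ) 1, g (ω z) = ψ z := by
  have h0b : (0 : ℂ) ∈ ball (0 : ℂ) 1 := mem_ball_self one_pos
  have main : ∀ z ∈ ball (0 : ℂ) 1, ∃ ζ, ‖ζ‖ ≤ ‖z‖ ∧ g ζ = ψ z := by
    by_contra hcon
    push Not at hcon
    obtain ⟨zs, hzs, hzsP⟩ := hcon
    set N : Set ℝ := {r : ℝ | ∃ z ∈ ball (0 : ℂ) 1, ‖z‖ = r ∧ ∀ ζ, ‖ζ‖ ≤ ‖z‖ → g ζ ≠ ψ z} with hN
    have hNne : N.Nonempty := ⟨‖zs‖, zs, hzs, rfl, hzsP⟩
    have hNb : BddBelow N := ⟨0, by rintro _ ⟨z, _, rfl, _⟩; exact norm_nonneg z⟩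
    set r0 := sInf N with hr0
    have hr00 : 0 ≤ r0 := le_csInf hNne (by rintro _ ⟨z, _, rfl, _⟩; exact norm_nonneg z)
    have hr01 : r0 < 1 := lt_of_le_of_lt (csInf_le hNb ⟨zs, hzs, rfl, hzsP⟩) (mem_ball_zero_iff.1 hzs)
    have hlt : ∀ z : ℂ, ‖z‖ < r0 → ∃ ζ, ‖ζ‖ ≤ ‖z‖ ∧ g ζ = ψ z := by
      intro z hz
      by_contra hc
      push Not at hc
      have : ‖z‖ ∈ N := ⟨z, mem_ball_zero_iff.2 (by linarith), rfl, hc⟩
      exact absurd (csInf_le hNb this) (not_le.2 hz)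
    have hcpt : IsCompact (g '' closedBall (0 : ℂ) r0) :=
      (isCompact_closedBall _ _).image_of_continuousOn
        (hg.continuousOn.mono (closedBall_subset_ball hr01))
    have hle : ∀ z : ℂ, ‖z‖ ≤ r0 → ∃ ζ, ‖ζ‖ ≤ ‖z‖ ∧ g ζ = ψ z := by
      intro z hz
      rcases hz.lt_or_eq with h | h
      · exact hlt z h
      · by_cases hz0 : z = 0
        · exact ⟨0, by simp, by rw [hg0, hz0, hψ0]⟩
        have hzp : 0 < ‖z‖ := norm_pos_iff.2 hz0
        have hzb : z ∈ ball (0 : ℂ) 1 := mem_ball_zero_iff.2 (by linarith)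
        have hc : ContinuousAt (fun t : ℝ => ψ ((1 - t : ℝ) * z)) 0 := by
          have h1 : ContinuousAt ψ z := (hψ.differentiableAt (isOpen_ball.mem_nhds hzb)).continuousAt
          have h2 : ContinuousAt (fun t : ℝ => ((1 - t : ℝ) : ℂ) * z) 0 := by fun_prop
          have h3 : ContinuousAt ψ ((fun t : ℝ => ((1 - t : ℝ) : ℂ) * z) 0) := by simpa using h1
          exact ContinuousAt.comp h3 h2
        have ht : Tendsto (fun t : ℝ => ψ ((1 - t : ℝ) * z)) (𝓝[>] 0) (𝓝 (ψ z)) := by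
          have := hc.tendsto.mono_left (nhdsWithin_le_nhds (s := Ioi 0))
          simpa using this
        have hmem : ψ z ∈ g '' closedBall (0 : ℂ) r0 := by
          refine hcpt.isClosed.mem_of_tendsto ht ?_
          have hI : Ioo (0 : ℝ) 1 ∈ 𝓝[>] (0 : ℝ) := Ioo_mem_nhdsGT one_pos
          filter_upwards [hI] with t ht
          have hn : ‖((1 - t : ℝ) : ℂ) * z‖ < r0 := by
            rw [norm_mul, norm_real, Real.norm_of_nonneg (by linarith [ht.2]), ← h]
            nlinarith [ht.1]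
          obtain ⟨ζ, hζ1, hζ2⟩ := hlt _ hn
          exact ⟨ζ, mem_closedBall_zero_iff.2 (hζ1.trans hn.le), hζ2⟩
        obtain ⟨ζ, hζ1, hζ2⟩ := hmem
        exact ⟨ζ, by rw [h]; exact mem_closedBall_zero_iff.1 hζ1, hζ2⟩
    -- thickening
    set ρ := (1 + r0) / 2 with hρ
    have hρ1 : ρ < 1 := by rw [hρ]; linarith
    have hρr : r0 < ρ := by rw [hρ]; linarith
    have hV : IsOpen (g '' ball (0 : ℂ) ρ) :=
      gisOpen_image hg hgi isOpen_ball (ball_subset_ball hρ1.le)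
    have hW : IsOpen (ball (0 : ℂ) 1 ∩ ψ ⁻¹' (g '' ball (0 : ℂ) ρ)) :=
      hψ.continuousOn.isOpen_inter_preimage isOpen_ball hV
    have hsubW : closedBall (0 : ℂ) r0 ⊆ ball (0 : ℂ) 1 ∩ ψ ⁻¹' (g '' ball (0 : ℂ) ρ) := by
      intro z hz
      have hzn := mem_closedBall_zero_iff.1 hz
      refine ⟨mem_ball_zero_iff.2 (by linarith), ?_⟩
      obtain ⟨ζ, hζ1, hζ2⟩ := hle z hzn
      exact ⟨ζ, mem_ball_zero_iff.2 (by linarith), hζ2⟩
    obtain ⟨δ, hδ, hδs⟩ := (isCompact_closedBall (0 : ℂ) r0).exists_thickening_subset_open hW hsubW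
    rw [thickening_closedBall hδ hr00] at hδs
    obtain ⟨r, ⟨z', hz'b, hz'r, hz'P⟩, hrlt⟩ := exists_lt_of_csInf_lt hNne
      (show sInf N < r0 + δ by linarith)
    have hz'r0 : r0 < ‖z'‖ := by
      by_contra hc
      push Not at hc
      obtain ⟨ζ, hζ1, hζ2⟩ := hle z' hc
      exact hz'P ζ hζ1 hζ2
    have hz'pos : 0 < ‖z'‖ := by linarith
    set ω : ℂ → ℂ := fun z => ginv g (ψ z) with hω
    have hωmem : ∀ z ∈ ball (0 : ℂ) (δ + r0), ω z ∈ ball (0 : ℂ) 1 ∧ g (ω z) = ψ z := by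
      intro z hz
      obtain ⟨ζ, hζ1, hζ2⟩ := (hδs hz).2
      have hζb : ζ ∈ ball (0 : ℂ) 1 := ball_subset_ball hρ1.le hζ1
      have : ω z = ζ := by
        rw [hω]; simp only; rw [← hζ2, ginv_apply hg hgi hζb]
      rw [this]
      exact ⟨hζb, hζ2⟩
    have hωd : DifferentiableOn ℂ ω (ball 0 (δ + r0)) := by
      intro z hz
      have h1 : DifferentiableAt ℂ ψ z := hψ.differentiableAt (isOpen_ball.mem_nhds (hδs hz).1)
      have h2 : DifferentiableAt ℂ (ginv g) (ψ z) := by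
        apply ginv_differentiableAt hg hgi
        obtain ⟨ζ, hζ1, hζ2⟩ := (hδs hz).2
        exact ⟨ζ, ball_subset_ball hρ1.le hζ1, hζ2⟩
      exact (h2.comp z h1).differentiableWithinAt
    have hω0 : ω 0 = 0 := by
      rw [hω]; simp only; rw [hψ0, ← hg0, ginv_apply hg hgi h0b]
      exact hg0.symm ▸ rfl
    have hrb : ‖z'‖ < δ + r0 := by rw [hz'r]; linarith
    have hδr0 : 0 < δ + r0 := by linarith
    have hsd : DifferentiableOn ℂ (dslope ω 0) (ball 0 (δ + r0)) :=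
      (Complex.differentiableOn_dslope (ball_mem_nhds 0 hδr0)).2 hωd
    have hsω : ∀ z, z * dslope ω 0 z = ω z := by
      intro z
      have := sub_smul_dslope ω 0 z
      rw [hω0] at this
      simpa using this
    have hdc : DiffContOnCl ℂ (dslope ω 0) (ball 0 ‖z'‖) := by
      apply DifferentiableOn.diffContOnCl
      apply hsd.mono
      rw [closure_ball _ hz'pos.ne']
      exact closedBall_subset_ball hrb
    obtain ⟨z1, hz1f, hz1m⟩ := Complex.exists_mem_frontier_isMaxOn_norm isBounded_ball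
      ⟨0, mem_ball_self hz'pos⟩ hdc
    rw [frontier_ball _ hz'pos.ne', mem_sphere_zero_iff_norm] at hz1f
    rw [closure_ball _ hz'pos.ne'] at hz1m
    have hmax : ∀ z, ‖z‖ ≤ ‖z1‖ → ‖dslope ω 0 z‖ ≤ ‖dslope ω 0 z1‖ := by
      intro z hz
      exact hz1m (mem_closedBall_zero_iff.2 (by rw [← hz1f]; exact hz))
    have hz1W : z1 ∈ ball (0 : ℂ) (δ + r0) := mem_ball_zero_iff.2 (by rw [hz1f]; exact hrb)
    have hz10 : z1 ≠ 0 := by rw [← norm_pos_iff, hz1f]; exact hz'pos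
    have hs1 : DifferentiableAt ℂ (dslope ω 0) z1 := hsd.differentiableAt (isOpen_ball.mem_nhds hz1W)
    have hbig : 1 < ‖dslope ω 0 z1‖ := by
      have h1 : ‖dslope ω 0 z'‖ ≤ ‖dslope ω 0 z1‖ := hmax z' (by rw [hz1f])
      have h2 : ‖z'‖ < ‖ω z'‖ := by
        by_contra hc
        push Not at hc
        exact hz'P (ω z') hc (hωmem z' (mem_ball_zero_iff.2 hrb)).2
      rw [← hsω z', norm_mul] at h2
      have h3 : 1 < ‖dslope ω 0 z'‖ := by
        by_contra hc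
        push Not at hc
        nlinarith
      linarith
    obtain ⟨him, hre⟩ := max_deriv hs1 hmax
    set s1 := dslope ω 0 z1 with hs1def
    set d1 := z1 * deriv (dslope ω 0) z1 with hd1
    have hs1pos : 0 < ‖s1‖ := by linarith
    have hs1ne : s1 ≠ 0 := norm_pos_iff.1 hs1pos
    set k : ℝ := ((starRingEnd ℂ) s1 * d1).re / ‖s1‖ ^ 2 with hk
    have hk0 : 0 ≤ k := div_nonneg hre (by positivity)
    have hd1k : d1 = k * s1 := by
      have h1 : (starRingEnd ℂ) s1 * d1 = (((starRingEnd ℂ) s1 * d1).re : ℂ) := by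
        apply Complex.ext
        · simp
        · rw [him]; simp
      have h2 : s1 * ((starRingEnd ℂ) s1 * d1) = (‖s1‖ ^ 2 : ℝ) * d1 := by
        rw [← mul_assoc, mul_conj, Complex.sq_norm]
      rw [h1] at h2
      have h3 : ((‖s1‖ ^ 2 : ℝ) : ℂ) ≠ 0 := by
        rw [ofReal_ne_zero]; positivity
      rw [hk, ofReal_div, div_mul_eq_mul_div, eq_div_iff h3, mul_comm d1, ← h2]
      ring
    have hωz1 : HasDerivAt ω (s1 + z1 * deriv (dslope ω 0) z1) z1 := by
      have h1 : HasDerivAt (fun z => z * dslope ω 0 z) (1 * dslope ω 0 z1 + z1 * deriv (dslope ω 0) z1) z1 :=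
        (hasDerivAt_id z1).mul hs1.hasDerivAt
      rw [one_mul] at h1
      have h2 : (fun z => z * dslope ω 0 z) = ω := funext hsω
      rw [h2] at h1
      exact h1
    obtain ⟨hωb, hgω⟩ := hωmem z1 hz1W
    have hψ1 : HasDerivAt ψ (deriv g (ω z1) * (s1 + z1 * deriv (dslope ω 0) z1)) z1 := by
      have h1 : HasDerivAt g (deriv g (ω z1)) (ω z1) :=
        (hg.differentiableAt (isOpen_ball.mem_nhds hωb)).hasDerivAt
      have h2 := h1.comp z1 hωz1
      refine h2.congr_of_eventuallyEq ?_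
      filter_upwards [isOpen_ball.mem_nhds hz1W] with z hz
      exact (hωmem z hz).2.symm
    refine hT z1 (hδs hz1W).1 (ω z1) hωb (1 + k) ?_ (by linarith) hgω.symm ?_
    · rw [← hsω z1, norm_mul, ← hs1def]
      nlinarith [norm_pos_iff.2 hz10]
    · rw [hψ1.deriv, ← hd1, ← hsω z1, ← hs1def, hd1k]
      push_cast
      ring
  refine ⟨fun z => ginv g (ψ z), ?_, ?_, ?_⟩
  · intro z hz
    obtain ⟨ζ, hζ1, hζ2⟩ := main z hz
    have hζb : ζ ∈ ball (0 : ℂ) 1 := mem_ball_zero_iff.2 (by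
      have := mem_ball_zero_iff.1 hz; linarith)
    have h1 : DifferentiableAt ℂ ψ z := hψ.differentiableAt (isOpen_ball.mem_nhds hz)
    have h2 : DifferentiableAt ℂ (ginv g) (ψ z) := ginv_differentiableAt hg hgi ⟨ζ, hζb, hζ2⟩
    exact (h2.comp z h1).differentiableWithinAt
  · intro z hz
    obtain ⟨ζ, hζ1, hζ2⟩ := main z hz
    have hζb : ζ ∈ ball (0 : ℂ) 1 := mem_ball_zero_iff.2 (by
      have := mem_ball_zero_iff.1 hz; linarith)
    show ‖ginv g (ψ z)‖ ≤ ‖z‖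
    rw [← hζ2, ginv_apply hg hgi hζb]; exact hζ1
  · intro z hz
    obtain ⟨ζ, hζ1, hζ2⟩ := main z hz
    have hζb : ζ ∈ ball (0 : ℂ) 1 := mem_ball_zero_iff.2 (by
      have := mem_ball_zero_iff.1 hz; linarith)
    show g (ginv g (ψ z)) = ψ z
    rw [← hζ2, ginv_apply hg hgi hζb]

end Pool.Agent.Y242.AC
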