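import Mathlib
import Pool.Agent.Y242.AC3

set_option autoImplicit false
open Complex Metric Set Filter Topology

namespace Pool.Agent.Y242.AC

theorem ps_summable {c : ℕ → ℂ} {C : ℝ} (hc : ∀ n, ‖c n‖ ≤ C) {z : ℂ} (hz : ‖z‖ < 1) :
    Summable (fun n => c n * z ^ n) := by
  have hs : Summable (fun n : ℕ => C * ‖z‖ ^ n) :=
    (summable_geometric_of_lt_one (norm_nonneg z) hz).mul_left C
  refine Summable.of_norm_bounded hs fun n => ?_
  rw [norm_mul, norm_pow]
  exact mul_le_mul_of_nonneg_right (hc n) (by positivity)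

theorem ps_summable1 {c : ℕ → ℂ} {C : ℝ} (hc : ∀ n, ‖c n‖ ≤ C) {z : ℂ} (hz : ‖z‖ < 1) :
    Summable (fun n : ℕ => c n * ((n : ℂ) * z ^ n)) := by
  have hs0 := summable_pow_mul_geometric_of_norm_lt_one (R := ℝ) 1
    (r := ‖z‖) (by rw [Real.norm_of_nonneg (norm_nonneg z)]; exact hz)
  have hs := hs0.mul_left C
  refine Summable.of_norm_bounded hs fun n => ?_
  rw [norm_mul, norm_mul, norm_pow, Complex.norm_natCast, pow_one]
  exact mul_le_mul_of_nonneg_right (hc n) (by positivity)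

theorem ps_hasDerivAt {c : ℕ → ℂ} {C : ℝ} (hc : ∀ n, ‖c n‖ ≤ C) {z : ℂ} (hz : ‖z‖ < 1) :
    HasDerivAt (fun z => ∑' n, c n * z ^ n) (∑' n : ℕ, c n * ((n : ℂ) * z ^ (n - 1))) z := by
  obtain ⟨r, hr1, hr2⟩ := exists_between hz
  have hr0 : 0 < r := lt_of_le_of_lt (norm_nonneg z) hr1
  have hC : 0 ≤ C := (norm_nonneg _).trans (hc 0)
  have hs0 := summable_pow_mul_geometric_of_norm_lt_one (R := ℝ) 1
    (r := r) (by rw [Real.norm_of_nonneg hr0.le]; exact hr2)
  have hs : Summable (fun n : ℕ => C * ((n : ℝ) * r ^ (n - 1))) := by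
    have h1 := (hs0.mul_left (C / r))
    refine h1.congr fun n => ?_
    rcases n with _ | n
    · simp
    · simp only [pow_one, Nat.add_sub_cancel]
      rw [pow_succ]
      field_simp
  have hd : ∀ (n : ℕ) (y : ℂ), y ∈ ball (0 : ℂ) r →
      HasDerivAt ((fun (n : ℕ) (y : ℂ) => c n * y ^ n) n)
        ((fun (n : ℕ) (y : ℂ) => c n * ((n : ℂ) * y ^ (n - 1))) n y) y :=
    fun n y _ => (hasDerivAt_pow n y).const_mul (c n)
  have hb : ∀ (n : ℕ) (y : ℂ), y ∈ ball (0 : ℂ) r →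
      ‖(fun (n : ℕ) (y : ℂ) => c n * ((n : ℂ) * y ^ (n - 1))) n y‖ ≤ C * ((n : ℝ) * r ^ (n - 1)) := by
    intro n y hy
    simp only
    rw [norm_mul, norm_mul, norm_pow, Complex.norm_natCast]
    have hy' := mem_ball_zero_iff.1 hy
    refine mul_le_mul (hc n) ?_ (by positivity) hC
    exact mul_le_mul_of_nonneg_left (pow_le_pow_left₀ (norm_nonneg y) hy'.le _) (by positivity)
  have h0 : Summable fun n => (fun (n : ℕ) (y : ℂ) => c n * y ^ n) n 0 :=
    ps_summable hc (by simp)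
  exact hasDerivAt_tsum_of_isPreconnected hs isOpen_ball
    (convex_ball (0 : ℂ) r).isPreconnected hd hb (mem_ball_self hr0) h0 (mem_ball_zero_iff.2 hr1)

/-- Taylor coefficients of the kernel `K`. -/
noncomputable def kc (α : ℝ) : ℕ → ℝ
  | 0 => 2 / (1 + α)
  | n + 1 => -(kc α n) * (1 - (n + 1) * α) / (1 + (n + 2) * α)

theorem kc_zero (α : ℝ) : kc α 0 = 2 / (1 + α) := rfl

theorem kc_succ (α : ℝ) (n : ℕ) :
    kc α (n + 1) = -(kc α n) * (1 - (n + 1) * α) / (1 + (n + 2) * α) := rfl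

section
variable {α : ℝ} (hα : 0 < α)
include hα

theorem kc_bound (n : ℕ) : ‖(kc α n : ℂ)‖ ≤ 2 := by
  rw [norm_real, Real.norm_eq_abs]
  induction n with
  | zero =>
    rw [kc_zero, abs_of_pos (by positivity), div_le_iff₀ (by positivity)]
    linarith
  | succ n ih =>
    rw [kc_succ, abs_div, abs_mul, abs_neg]
    have h1 : 0 < 1 + ((n : ℝ) + 2) * α := by positivity
    rw [abs_of_pos h1, div_le_iff₀ h1]
    have h2 : |1 - ((n : ℝ) + 1) * α| ≤ 1 + ((n : ℝ) + 2) * α := by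
      rw [abs_le]
      have h3 : 0 ≤ (n : ℝ) * α := by positivity
      constructor <;> nlinarith
    exact mul_le_mul ih h2 (abs_nonneg _) (by norm_num)

end

/-- The kernel `K = (1 - R)/z`. -/
noncomputable def K (α : ℝ) (z : ℂ) : ℂ := ∑' n : ℕ, (kc α n : ℂ) * z ^ n

section
variable {α : ℝ} (hα : 0 < α)
include hα

theorem K_hasDerivAt {z : ℂ} (hz : ‖z‖ < 1) :
    HasDerivAt (K α) (∑' n : ℕ, (kc α n : ℂ) * ((n : ℂ) * z ^ (n - 1))) z :=
  ps_hasDerivAt (kc_bound hα) hz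

theorem K_diff : DifferentiableOn ℂ (K α) (ball 0 1) := fun z hz =>
  (K_hasDerivAt hα (mem_ball_zero_iff.1 hz)).differentiableAt.differentiableWithinAt

omit hα in
theorem K_zero : K α 0 = ((2 / (1 + α) : ℝ) : ℂ) := by
  rw [K, tsum_eq_single 0]
  · simp [kc_zero]
  · intro n hn
    simp [hn]

theorem z_mul_deriv_K {z : ℂ} (hz : ‖z‖ < 1) :
    z * deriv (K α) z = ∑' n : ℕ, (kc α n : ℂ) * ((n : ℂ) * z ^ n) := by
  rw [(K_hasDerivAt hα hz).deriv, ← tsum_mul_left]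
  apply tsum_congr
  intro n
  rcases n with _ | n
  · simp
  · simp only [Nat.add_sub_cancel]
    rw [pow_succ]; ring

theorem K_ode {z : ℂ} (hz : ‖z‖ < 1) :
    α * (1 - z) * (z * deriv (K α) z) + ((1 + α) + (1 - α) * z) * K α z = 2 := by
  have s0 := ps_summable (kc_bound hα) hz
  have s1 := ps_summable1 (kc_bound hα) hz
  rw [z_mul_deriv_K hα hz, K]
  set S0 := ∑' n : ℕ, (kc α n : ℂ) * z ^ n with hS0
  set S1 := ∑' n : ℕ, (kc α n : ℂ) * ((n : ℂ) * z ^ n) with hS1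
  have hA : α * S1 + (1 + α) * S0 = ∑' n : ℕ, (((1 + (n + 1) * α) * kc α n : ℝ) : ℂ) * z ^ n := by
    rw [hS0, hS1, ← tsum_mul_left, ← tsum_mul_left,
      ← (s1.mul_left (α : ℂ)).tsum_add (s0.mul_left ((1 : ℂ) + α))]
    apply tsum_congr
    intro n
    push_cast
    ring
  have hB : (-α) * S1 + (1 - α) * S0 = ∑' n : ℕ, (((1 - (n + 1) * α) * kc α n : ℝ) : ℂ) * z ^ n := by
    rw [hS0, hS1, ← tsum_mul_left, ← tsum_mul_left,
      ← (s1.mul_left (-α : ℂ)).tsum_add (s0.mul_left ((1 : ℂ) - α))]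
    apply tsum_congr
    intro n
    push_cast
    ring
  have hAs : Summable (fun n : ℕ => (((1 + (n + 1) * α) * kc α n : ℝ) : ℂ) * z ^ n) := by
    have := (s1.mul_left (α : ℂ)).add (s0.mul_left ((1 : ℂ) + α))
    refine this.congr fun n => ?_
    push_cast
    ring
  have hC : ∑' n : ℕ, (((1 + (n + 1) * α) * kc α n : ℝ) : ℂ) * z ^ n =
      2 - z * ∑' n : ℕ, (((1 - (n + 1) * α) * kc α n : ℝ) : ℂ) * z ^ n := by
    rw [hAs.tsum_eq_zero_add]
    have h0 : (((1 + ((0 : ℕ) + 1) * α) * kc α 0 : ℝ) : ℂ) * z ^ 0 = 2 := by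
      rw [kc_zero]
      have : (1 + α : ℝ) ≠ 0 := by positivity
      have h1 : (1 + (((0 : ℕ) : ℝ) + 1) * α) * (2 / (1 + α)) = 2 := by
        simp only [Nat.cast_zero, zero_add, one_mul]
        field_simp
      rw [h1]; simp
    rw [h0, sub_eq_add_neg, ← mul_neg, ← tsum_neg, ← tsum_mul_left]
    congr 1
    apply tsum_congr
    intro n
    have h2 : (1 + (((n + 1 : ℕ) : ℝ) + 1) * α) * kc α (n + 1) = -((1 - ((n : ℝ) + 1) * α) * kc α n) := by
      rw [kc_succ]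
      have h3 : (1 + ((n : ℝ) + 2) * α) ≠ 0 := by positivity
      push_cast
      have h4 : (1 + ((n : ℝ) + 1 + 1) * α) = (1 + ((n : ℝ) + 2) * α) := by ring
      rw [h4]
      field_simp
    rw [h2, pow_succ]
    push_cast
    ring
  have hD : α * (1 - z) * S1 + ((1 + α) + (1 - α) * z) * S0 =
      (α * S1 + (1 + α) * S0) + z * ((-α) * S1 + (1 - α) * S0) := by ring
  rw [hD, hA, hB, hC]
  ring

end

end Pool.Agent.Y242.AC
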