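import Mathlib

set_option autoImplicit false

namespace Pool.Agent.Y242.AC

/-- Real inequality behind `Re (Σ - q/2) > 0`, for `γ ≥ 0`. -/
theorem f5pos {b t1 t2 γ ξ k φ Rl Il : ℝ} (hb : 1 < b) (ht1 : 1 / 2 < t1) (hξ : 0 < ξ)
    (hγ : 0 ≤ γ) (hk : k = 2 * b * γ - t2) (hφ : φ = b - (2 * b - 1) * t1)
    (hRl : Rl = t1 ^ 2 - t2 ^ 2 - t1 / 2 + γ * t2 - b / 2)
    (hIl : Il = 2 * t1 * t2 - t2 / 2 - γ * t1 + b * γ)
    (h1 : Rl * t1 + Il * k = ξ * φ) (h2 : Il * t1 - Rl * k = -ξ * (2 * b - 1) * t2)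
    (hC2 : 0 ≤ φ * (t1 ^ 2 + t2 * k) + (2 * b - 1) * t1 * t2 * (k - t2))
    (h1R : 0 ≤ Rl * t1 + Il * t2) : False := by
  have hb1 : 0 < 2 * b - 1 := by linarith
  have ht0 : 0 < t1 := by linarith
  have hN0 : 0 < t1 ^ 2 + k ^ 2 := by positivity
  set p1 := φ * t1 + (2 * b - 1) * t2 * k with hp1
  set p2 := φ * k - (2 * b - 1) * t1 * t2 with hp2
  have hR : Rl * (t1 ^ 2 + k ^ 2) = ξ * p1 := by
    rw [hp1]; linear_combination t1 * h1 - k * h2
  have hI : Il * (t1 ^ 2 + k ^ 2) = ξ * p2 := by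
    rw [hp2]; linear_combination k * h1 + t1 * h2
  have hcross : Il * p1 = Rl * p2 := by
    have : (Il * p1 - Rl * p2) * (t1 ^ 2 + k ^ 2) = 0 := by
      linear_combination p1 * hI - p2 * hR
    rcases mul_eq_zero.1 this with h | h
    · linarith
    · exact absurd h hN0.ne'
  rcases hγ.lt_or_eq with hγ | hγ
  swap
  · -- γ = 0
    have hk' : k = -t2 := by rw [hk, ← hγ]; ring
    have hIl' : Il = t2 * (2 * t1 - 1 / 2) := by rw [hIl, ← hγ]; ring
    have e1 : t2 * ((2 * t1 - 1 / 2) * (t1 ^ 2 + k ^ 2) + ξ * b) = 0 := by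
      have : Il * (t1 ^ 2 + k ^ 2) = ξ * p2 := hI
      rw [hIl', hp2, hφ, hk'] at this
      rw [hk']
      linear_combination this
    have e2 : 0 < (2 * t1 - 1 / 2) * (t1 ^ 2 + k ^ 2) + ξ * b := by
      have : 0 < 2 * t1 - 1 / 2 := by linarith
      have : 0 < b := by linarith
      positivity
    have ht2 : t2 = 0 := by
      rcases mul_eq_zero.1 e1 with h | h
      · exact h
      · exact absurd h e2.ne'
    have hφ0 : 0 ≤ φ := by
      rw [ht2] at hC2
      have : 0 ≤ t1 ^ 2 * φ := by linarith only [hC2]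
      exact nonneg_of_mul_nonneg_right this (pow_pos ht0 2)
    have ht1' : t1 < 1 := by
      by_contra hc
      push Not at hc
      nlinarith only [hc, hφ, hφ0, hb]
    have hRl0 : 0 ≤ Rl := by
      have hp : 0 ≤ ξ * p1 := by
        rw [hp1, ht2]
        have := mul_nonneg hξ.le (mul_nonneg hφ0 ht0.le)
        linarith only [this]
      rw [← hR] at hp
      exact nonneg_of_mul_nonneg_left hp hN0
    rw [hRl, ht2] at hRl0
    nlinarith only [hRl0, ht1', ht1, hb]
  · rcases le_or_gt t2 0 with ht2 | ht2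
    · -- t2 ≤ 0
      set D := t1 ^ 2 + t2 ^ 2 with hD
      have hDpos : 0 < D := by positivity
      have hDt : t1 ^ 2 ≤ D := by rw [hD]; linarith only [sq_nonneg t2]
      have c2 : 0 ≤ b * (t1 ^ 2 - t2 ^ 2) + 2 * b ^ 2 * γ * t2 - (2 * b - 1) * D * t1 := by
        have : φ * (t1 ^ 2 + t2 * k) + (2 * b - 1) * t1 * t2 * (k - t2) =
            b * (t1 ^ 2 - t2 ^ 2) + 2 * b ^ 2 * γ * t2 - (2 * b - 1) * D * t1 := by
          rw [hφ, hk, hD]; ring
        linarith [this, hC2]
      have c1 : 0 ≤ (t1 - 1 / 2) * D - b * (t1 / 2 - γ * t2) := by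
        have : Rl * t1 + Il * t2 = (t1 - 1 / 2) * D - b * (t1 / 2 - γ * t2) := by
          rw [hRl, hIl, hD]; ring
        linarith [this, h1R]
      have g1 : γ * t2 ≤ 0 := mul_nonpos_of_nonneg_of_nonpos hγ.le ht2
      have hb0 : 0 < b := by linarith
      have d1 : (2 * b - 1) * D ≤ b * t1 := by
        have : t1 * ((2 * b - 1) * D) ≤ t1 * (b * t1) := by
          have e1 : 0 ≤ b * t2 ^ 2 := by positivity
          have e2 : b ^ 2 * (γ * t2) ≤ 0 := mul_nonpos_of_nonneg_of_nonpos (by positivity) g1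
          linarith only [e1, e2, c2]
        exact le_of_mul_le_mul_left this ht0
      have d2 : b * t1 ≤ (2 * t1 - 1) * D := by
        have : b * (γ * t2) ≤ 0 := mul_nonpos_of_nonneg_of_nonpos hb0.le g1
        linarith only [this, c1]
      have d3 : t1 < 1 := by
        by_contra hc
        push Not at hc
        have e1 : (2 * b - 1) * t1 ^ 2 ≤ b * t1 := by
          linarith only [mul_le_mul_of_nonneg_left hDt hb1.le, d1]
        have e2 : (2 * b - 1) * t1 ≤ b := by
          have : t1 * ((2 * b - 1) * t1) ≤ t1 * b := by linarith only [e1]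
          exact le_of_mul_le_mul_left this ht0
        nlinarith only [e2, hc, hb]
      nlinarith only [mul_pos hDpos (by linarith : (0 : ℝ) < b - 1),
        mul_pos hDpos (by linarith : 0 < 1 - t1), d1, d2]
    · -- t2 > 0
      have hb0 : 0 < b := by linarith
      rcases le_or_gt k 0 with hk0 | hk0
      · -- k ≤ 0
        have hφ0 : 0 ≤ φ := by
          have e1 : 0 ≤ b * t1 ^ 2 + b * (t2 * k) - (2 * b - 1) * t1 * (t1 ^ 2 + t2 ^ 2) := by
            have : φ * (t1 ^ 2 + t2 * k) + (2 * b - 1) * t1 * t2 * (k - t2) =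
              b * t1 ^ 2 + b * (t2 * k) - (2 * b - 1) * t1 * (t1 ^ 2 + t2 ^ 2) := by
              rw [hφ]; ring
            linarith
          have e2 : b * (t2 * k) ≤ 0 :=
            mul_nonpos_of_nonneg_of_nonpos hb0.le (mul_nonpos_of_nonneg_of_nonpos ht2.le hk0)
          have e3 : 0 ≤ (2 * b - 1) * t1 * t2 ^ 2 := by positivity
          have e4 : 0 ≤ t1 ^ 2 * φ := by rw [hφ]; linarith only [e1, e2, e3]
          exact le_of_mul_le_mul_left (by simpa using e4) (by positivity : 0 < t1 ^ 2)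
        have ht1' : t1 < 1 := by
          by_contra hc
          push Not at hc
          nlinarith only [hc, hφ, hφ0, hb]
        have hIl0 : 0 < Il := by
          rw [hIl]
          have e1 : 0 < t2 * (2 * t1 - 1 / 2) := mul_pos ht2 (by linarith)
          have e2 : 0 < γ * (b - t1) := mul_pos hγ (by linarith)
          linarith only [e1, e2]
        have hp2' : p2 ≤ 0 := by
          rw [hp2]
          have e1 : φ * k ≤ 0 := mul_nonpos_of_nonneg_of_nonpos hφ0 hk0
          have e2 : 0 ≤ (2 * b - 1) * t1 * t2 := by positivity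
          linarith
        have e3 : ξ * p2 ≤ 0 := mul_nonpos_of_nonneg_of_nonpos hξ.le hp2'
        have e4 : 0 < Il * (t1 ^ 2 + k ^ 2) := mul_pos hIl0 hN0
        linarith
      · rcases le_or_gt t1 b with htb | htb
        · -- t1 ≤ b
          have hIl0 : 0 < Il := by
            rw [hIl]
            have e1 : 0 < t2 * (2 * t1 - 1 / 2) := mul_pos ht2 (by linarith)
            have e2 : 0 ≤ γ * (b - t1) := mul_nonneg hγ.le (by linarith)
            linarith only [e1, e2]
          have hp2' : 0 < p2 := by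
            have e4 : 0 < Il * (t1 ^ 2 + k ^ 2) := mul_pos hIl0 hN0
            rw [hI] at e4
            exact pos_of_mul_pos_right e4 hξ.le
          have e5 : 0 < (2 * b - 1) * t1 * t2 := by positivity
          have hφ0 : 0 < φ := by
            have : 0 < φ * k := by rw [hp2] at hp2'; linarith
            exact pos_of_mul_pos_left this hk0.le
          have hp1' : 0 < p1 := by rw [hp1]; positivity
          have hRl0 : 0 < Rl := by
            have : 0 < Rl * (t1 ^ 2 + k ^ 2) := by rw [hR]; positivity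
            exact pos_of_mul_pos_left this hN0.le
          have hRl1 : Rl < γ * t2 := by
            have ht1' : t1 < 1 := by
              by_contra hc
              push Not at hc
              nlinarith only [hc, hφ, hφ0, hb]
            have e1 : t1 * t1 < t1 * 1 := mul_lt_mul_of_pos_left ht1' ht0
            rw [hRl]; linarith only [sq_nonneg t2, e1, ht1', hb]
          have hIl1 : γ * (b - t1) < Il := by
            rw [hIl]; linarith only [mul_pos ht2 (by linarith : 0 < 2 * t1 - 1 / 2)]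
          have hbt : 0 ≤ γ * (b - t1) := mul_nonneg hγ.le (by linarith)
          have a1 : γ * (b - t1) * ((2 * b - 1) * t2 * k) < Il * p1 := by
            have e1 : 0 < (2 * b - 1) * t2 * k := by positivity
            have e2 : (2 * b - 1) * t2 * k < p1 := by rw [hp1]; linarith only [mul_pos hφ0 ht0]
            calc γ * (b - t1) * ((2 * b - 1) * t2 * k) ≤ γ * (b - t1) * p1 :=
                  mul_le_mul_of_nonneg_left e2.le hbt
              _ < Il * p1 := mul_lt_mul_of_pos_right hIl1 hp1'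
          have a2 : Rl * p2 < γ * t2 * (φ * k) := by
            have e2 : p2 < φ * k := by rw [hp2]; linarith
            calc Rl * p2 < γ * t2 * p2 := mul_lt_mul_of_pos_right hRl1 hp2'
              _ ≤ γ * t2 * (φ * k) := mul_le_mul_of_nonneg_left e2.le (by positivity)
          have a3 : γ * (b - t1) * ((2 * b - 1) * t2 * k) =
              γ * t2 * (φ * k) + γ * t2 * k * (2 * b * (b - 1)) := by rw [hφ]; ring
          have a4 : 0 < γ * t2 * k * (2 * b * (b - 1)) := by
            have : 0 < b - 1 := by linarith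
            positivity
          linarith
        · -- t1 > b
          have hφ0 : φ < 0 := by
            rw [hφ]; nlinarith only [htb, hb]
          have hp1' : 0 < p1 := by
            have e1 : 0 < t1 * p1 := by
              have e2 : t1 * p1 = (φ * (t1 ^ 2 + t2 * k) + (2 * b - 1) * t1 * t2 * (k - t2)) +
                  (-φ) * (t2 * k) + (2 * b - 1) * t1 * t2 ^ 2 := by rw [hp1]; ring
              have e3 : 0 < (-φ) * (t2 * k) := by
                have : 0 < -φ := by linarith
                positivity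
              have e4 : 0 < (2 * b - 1) * t1 * t2 ^ 2 := by positivity
              rw [e2]; linarith
            exact pos_of_mul_pos_right e1 ht0.le
          have hp2' : p2 < 0 := by
            rw [hp2]
            have e1 : φ * k < 0 := mul_neg_of_neg_of_pos hφ0 hk0
            have e2 : 0 < (2 * b - 1) * t1 * t2 := by positivity
            linarith
          have hRl0 : 0 < Rl := by
            have : 0 < Rl * (t1 ^ 2 + k ^ 2) := by rw [hR]; positivity
            exact pos_of_mul_pos_left this hN0.le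
          have hIl0 : Il < 0 := by
            have : Il * (t1 ^ 2 + k ^ 2) < 0 := by rw [hI]; exact mul_neg_of_pos_of_neg hξ hp2'
            by_contra hc
            push Not at hc
            linarith only [mul_nonneg hc hN0.le, this]
          have hγt : t2 < γ := by
            have e1 : t2 * (2 * t1 - 1 / 2) < γ * (t1 - b) := by
              rw [hIl] at hIl0; linarith only [hIl0]
            by_contra hc
            push Not at hc
            have e2 : γ * (t1 - b) ≤ t2 * (t1 - b) := mul_le_mul_of_nonneg_right hc (by linarith)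
            have e3 : 0 < t2 * (t1 + b - 1 / 2) := mul_pos ht2 (by linarith)
            linarith only [e1, e2, e3]
          have hRl1 : γ * t2 - t2 ^ 2 ≤ Rl := by
            rw [hRl]; nlinarith only [htb, hb]
          have a1 : (-Il) * p1 < (-Il) * ((2 * b - 1) * t2 * k) := by
            apply mul_lt_mul_of_pos_left _ (by linarith)
            rw [hp1]; linarith only [mul_neg_of_neg_of_pos hφ0 ht0]
          have a2 : (γ * t2 - t2 ^ 2) * ((-φ) * k) < Rl * (-p2) := by
            have e1 : (-φ) * k < -p2 := by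
              rw [hp2]
              have : 0 < (2 * b - 1) * t1 * t2 := by positivity
              linarith
            have e2 : 0 < (-φ) * k := mul_pos (by linarith) hk0
            calc (γ * t2 - t2 ^ 2) * ((-φ) * k) ≤ Rl * ((-φ) * k) :=
                  mul_le_mul_of_nonneg_right hRl1 e2.le
              _ < Rl * (-p2) := mul_lt_mul_of_pos_left e1 hRl0
          have a3 : (γ * t2 - t2 ^ 2) * ((-φ) * k) < (-Il) * ((2 * b - 1) * t2 * k) := by
            have : (-Il) * p1 = Rl * (-p2) := by linarith [hcross]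
            linarith
          have a4 : (γ * t2 - t2 ^ 2) * ((-φ) * k) - (-Il) * ((2 * b - 1) * t2 * k) =
              t2 * k * (2 * b * (b - 1) * γ + t2 * ((2 * b - 1) * t1 + 1 / 2)) := by
            rw [hφ, hIl]; ring
          have a5 : 0 < t2 * k * (2 * b * (b - 1) * γ + t2 * ((2 * b - 1) * t1 + 1 / 2)) := by
            have : 0 < b - 1 := by linarith
            positivity
          linarith

theorem f5 {b t1 t2 γ ξ k φ Rl Il : ℝ} (hb : 1 < b) (ht1 : 1 / 2 < t1) (hξ : 0 < ξ)
    (hk : k = 2 * b * γ - t2) (hφ : φ = b - (2 * b - 1) * t1)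
    (hRl : Rl = t1 ^ 2 - t2 ^ 2 - t1 / 2 + γ * t2 - b / 2)
    (hIl : Il = 2 * t1 * t2 - t2 / 2 - γ * t1 + b * γ)
    (h1 : Rl * t1 + Il * k = ξ * φ) (h2 : Il * t1 - Rl * k = -ξ * (2 * b - 1) * t2)
    (hC2 : 0 ≤ φ * (t1 ^ 2 + t2 * k) + (2 * b - 1) * t1 * t2 * (k - t2))
    (h1R : 0 ≤ Rl * t1 + Il * t2) : False := by
  rcases le_total 0 γ with h | h
  · exact f5pos hb ht1 hξ h hk hφ hRl hIl h1 h2 hC2 h1R
  · refine f5pos (γ := -γ) (t2 := -t2) (k := -k) (Rl := Rl) (Il := -Il) hb ht1 hξ (by linarith)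
      (by rw [hk]; ring) hφ (by rw [hRl]; ring) (by rw [hIl]; ring) ?_ ?_ ?_ ?_
    · linarith
    · linarith
    · have : φ * (t1 ^ 2 + -t2 * -k) + (2 * b - 1) * t1 * -t2 * (-k - -t2) =
        φ * (t1 ^ 2 + t2 * k) + (2 * b - 1) * t1 * t2 * (k - t2) := by ring
      linarith
    · linarith

/-- Real inequality behind `Re S > 0`. -/
theorem f6 {b u V Y τ n d : ℝ} (hb : 1 < b) (hu : 1 < u) (hV : V = -(Y * τ))
    (hQ : 0 ≤ u ^ 2 - b + V)
    (hn : n = (6 * b - 1) * u ^ 2 - 4 * b * u - b ^ 2 + 2 * b * V)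
    (hd : d = (6 * b - 2) * u ^ 2 - 6 * b * u + 2 * b + (2 * b - 1) * V)
    (hI : Y * n + τ * d = 0) :
    0 < ((4 * b - 1) * u ^ 3 - 5 * b * u ^ 2 + (2 * b - b ^ 2) * u + b) -
      b * (2 * u - 1) * Y ^ 2 + ((8 * b - 2) * u - 2 * b) * V - ((2 * b - 1) * u - 2 * b) * τ ^ 2 := by
  have hb0 : 0 < b := by linarith
  have hb1 : 0 < b - 1 := by linarith
  have hb2 : 0 < 2 * b - 1 := by linarith
  have hu1 : 0 < u - 1 := by linarith
  have hnpos : 0 < n := by
    have e1 : 0 < (4 * b - 1) * (u - 1) ^ 2 + (4 * b - 2) * (u - 1) + (b - 1) * (b + 1) := by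
      have : 0 < 4 * b - 1 := by linarith
      have : 0 < 4 * b - 2 := by linarith
      positivity
    have e2 : n = ((4 * b - 1) * (u - 1) ^ 2 + (4 * b - 2) * (u - 1) + (b - 1) * (b + 1)) +
        2 * b * (u ^ 2 - b + V) := by rw [hn]; ring
    rw [e2]
    have := mul_nonneg (by linarith : (0 : ℝ) ≤ 2 * b) hQ
    linarith
  have hdpos : 0 < d := by
    have e0 : 0 < 4 * (4 * b - 1) := by linarith
    have e1 : 4 * (4 * b - 1) * ((4 * b - 1) * u ^ 2 - 6 * b * u + 2 * b ^ 2 + b) =
        (2 * (4 * b - 1) * u - 6 * b) ^ 2 + 4 * b * ((8 * b + 1) * (b - 1)) := by ring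
    have e2 : 0 < (4 * b - 1) * u ^ 2 - 6 * b * u + 2 * b ^ 2 + b := by
      have : 0 < 4 * (4 * b - 1) * ((4 * b - 1) * u ^ 2 - 6 * b * u + 2 * b ^ 2 + b) := by
        rw [e1]; positivity
      exact pos_of_mul_pos_right this e0.le
    have e3 : d = ((4 * b - 1) * u ^ 2 - 6 * b * u + 2 * b ^ 2 + b) +
        (2 * b - 1) * (u ^ 2 - b + V) := by rw [hd]; ring
    rw [e3]
    have := mul_nonneg hb2.le hQ
    linarith
  have hVd : V * d = Y ^ 2 * n := by
    rw [hV]; linear_combination (-Y) * hI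
  have hV0 : 0 ≤ V := by
    by_contra hc
    push Not at hc
    have : V * d < 0 := mul_neg_of_neg_of_pos hc hdpos
    linarith only [mul_nonneg (sq_nonneg Y) hnpos.le, this, hVd]
  set γ0 := (4 * b - 1) * u ^ 3 - 5 * b * u ^ 2 + (2 * b - b ^ 2) * u + b with hγ0
  set g0 := b * (2 * u - 1) with hg0
  set g1 := (8 * b - 2) * u - 2 * b with hg1
  set g2 := (2 * b - 1) * u - 2 * b with hg2
  set Γ := g1 * n * d - g0 * d ^ 2 - g2 * n ^ 2 with hΓ
  -- reduce
  have hred : (γ0 - g0 * Y ^ 2 + g1 * V - g2 * τ ^ 2) * (d * n) = γ0 * n * d + V * Γ := by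
    have hτ : τ * d = -(Y * n) := by linarith
    have h1 : (γ0 - g0 * Y ^ 2 + g1 * V - g2 * τ ^ 2) * (d * n) * d =
        (γ0 * n * d + V * Γ) * d := by
      have e1 : τ ^ 2 * d ^ 2 = Y ^ 2 * n ^ 2 := by
        have : (τ * d) ^ 2 = (Y * n) ^ 2 := by rw [hτ]; ring
        linarith [this, mul_pow τ d 2, mul_pow Y n 2]
      rw [hΓ]
      linear_combination (g0 * d ^ 2 - 0) * (hVd) + (g2 * n ^ 2) * hVd + (-g2 * n) * e1
    exact mul_right_cancel₀ hdpos.ne' h1
  -- 2n ≥ d
  have h2n : 0 ≤ 2 * n - d := by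
    have e1 : 2 * n - d = 6 * b * u ^ 2 - 2 * b * u - 2 * b ^ 2 - 2 * b + (2 * b + 1) * V := by
      rw [hn, hd]; ring
    rw [e1]
    rcases le_total b (u ^ 2) with h | h
    · have e2 : 0 ≤ (2 * b + 1) * V := by positivity
      have e3 : 0 ≤ 2 * b * ((2 * u + 1) * (u - 1)) := by positivity
      linarith only [mul_nonneg hb0.le (sub_nonneg.2 h), e2, e3]
    · have e2 : (2 * b + 1) * (b - u ^ 2) ≤ (2 * b + 1) * V :=
        mul_le_mul_of_nonneg_left (by linarith) (by linarith)
      have e3 : 0 ≤ 2 * b * ((2 * u + 1) * (u - 1)) := by positivity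
      nlinarith only [e2, e3, h, hb, hu]
  set m := n - d / 2 with hm
  have hm0 : 0 ≤ m := by rw [hm]; linarith
  have hnm : n = d / 2 + m := by rw [hm]; ring
  have hg2m : g2 * m ^ 2 ≤ (2 * b + 1) / 2 * u * (d * m) := by
    rcases le_or_gt g2 0 with h | h
    · have e1 : g2 * m ^ 2 ≤ 0 := mul_nonpos_of_nonpos_of_nonneg h (sq_nonneg m)
      have e2 : 0 ≤ (2 * b + 1) / 2 * u * (d * m) := by positivity
      linarith
    · -- η ≤ 2b/(2b-1)
      have hge : 2 * b < (2 * b - 1) * u := by rw [hg2] at h; linarith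
      have hf : 0 ≤ (4 * b - 1) * u ^ 2 - 4 * b * (b + 1) * u + b ^ 2 * (2 * b + 3) := by
        rcases le_total (11 / 10) b with hbb | hbb
        · have e1 : (4 * b - 1) * ((4 * b - 1) * u ^ 2 - 4 * b * (b + 1) * u + b ^ 2 * (2 * b + 3)) =
            ((4 * b - 1) * u - 2 * b * (b + 1)) ^ 2 + b ^ 2 * (4 * b ^ 2 + 2 * b - 7) := by ring
          have e2 : 0 ≤ 4 * b ^ 2 + 2 * b - 7 := by nlinarith only [hbb]
          have e3 : 0 ≤ (4 * b - 1) * ((4 * b - 1) * u ^ 2 - 4 * b * (b + 1) * u +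
              b ^ 2 * (2 * b + 3)) := by
            rw [e1]; positivity
          exact nonneg_of_mul_nonneg_right e3 (by linarith)
        · set e := (2 * b - 1) * u - 2 * b with he
          have he0 : 0 ≤ e := by linarith
          have e1 : (2 * b - 1) ^ 2 *
              ((4 * b - 1) * u ^ 2 - 4 * b * (b + 1) * u + b ^ 2 * (2 * b + 3)) =
              (4 * b - 1) * e ^ 2 + e * (4 * b ^ 2 * (3 - 2 * b)) +
                b ^ 2 * (8 * (b - 1) ^ 3 + 12 * (b - 1) ^ 2 - 2 * (b - 1) + 1) := by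
            rw [he]; ring
          have e2 : 0 ≤ 8 * (b - 1) ^ 3 + 12 * (b - 1) ^ 2 - 2 * (b - 1) + 1 := by
            have : 0 ≤ 8 * (b - 1) ^ 3 + 12 * (b - 1) ^ 2 := by positivity
            linarith
          have e3 : 0 ≤ (2 * b - 1) ^ 2 *
              ((4 * b - 1) * u ^ 2 - 4 * b * (b + 1) * u + b ^ 2 * (2 * b + 3)) := by
            rw [e1]
            have : 0 ≤ 3 - 2 * b := by linarith
            have : 0 ≤ 4 * b - 1 := by linarith
            positivity
          exact nonneg_of_mul_nonneg_right e3 (by positivity)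
      have hη : 2 * (2 * b - 1) * m ≤ (2 * b + 1) * d := by
        rw [hm]
        have : 2 * b * d - (2 * b - 1) * n =
          (4 * b - 1) * u ^ 2 - 4 * b * (b + 1) * u + b ^ 2 * (2 * b + 3) := by
          rw [hn, hd]; ring
        linarith
      have e1 : g2 ≤ (2 * b - 1) * u := by rw [hg2]; linarith
      have e2 : g2 * m ^ 2 ≤ (2 * b - 1) * u * m ^ 2 := mul_le_mul_of_nonneg_right e1 (sq_nonneg m)
      have e3 : (2 * b - 1) * u * m ^ 2 ≤ (2 * b + 1) / 2 * u * (d * m) := by
        have : u * m * (2 * (2 * b - 1) * m) ≤ u * m * ((2 * b + 1) * d) :=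
          mul_le_mul_of_nonneg_left hη (by positivity)
        linarith only [this]
      linarith
  have hΓe : Γ = d ^ 2 * ((u * (6 * b - 3) + 2 * b) / 4) + (6 * b - 1) * u * (d * m) - g2 * m ^ 2 := by
    rw [hΓ, hnm, hg0, hg1, hg2]; ring
  have hΓpos : 0 < Γ := by
    rw [hΓe]
    have e1 : 0 < d ^ 2 * ((u * (6 * b - 3) + 2 * b) / 4) := by
      have : 0 < 6 * b - 3 := by linarith
      positivity
    have e2 : 0 ≤ ((6 * b - 1) - (2 * b + 1) / 2) * (u * (d * m)) := by
      have : 0 ≤ (6 * b - 1) - (2 * b + 1) / 2 := by linarith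
      positivity
    linarith only [e1, e2, hg2m]
  have hfin : 0 < γ0 * n * d + V * Γ := by
    rcases le_or_gt b (u ^ 2) with h | h
    · have hγpos : 0 < γ0 := by
        have e1 : (u ^ 2 - 1) * γ0 = (b - 1) * (u ^ 2 * ((u - 1) ^ 2 * (3 * u + 1))) +
            (u ^ 2 - b) * ((u - 1) ^ 2 * (3 * u + 1)) +
            u * ((u ^ 2 - b) * ((b - 1) * (u ^ 2 - 1))) := by
          rw [hγ0]; ring
        have hu2 : 0 < u ^ 2 - 1 := by nlinarith only [hu]
        have e2 : 0 < (u ^ 2 - 1) * γ0 := by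
          rw [e1]
          have : 0 ≤ u ^ 2 - b := by linarith
          positivity
        exact pos_of_mul_pos_right e2 hu2.le
      have : 0 < γ0 * n * d := by positivity
      have : 0 ≤ V * Γ := mul_nonneg hV0 hΓpos.le
      linarith
    · set w := b - u ^ 2 with hw
      have hw0 : 0 < w := by rw [hw]; linarith
      have hwV : w ≤ V := by rw [hw]; linarith
      have hbw : b = u ^ 2 + w := by rw [hw]; ring
      have e1 : w * Γ ≤ V * Γ := mul_le_mul_of_nonneg_right hwV hΓpos.le
      have e2 : γ0 * n * d + w * Γ = d ^ 2 * (γ0 / 2 + w * ((u * (6 * b - 3) + 2 * b) / 4)) +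
          (γ0 + w * ((6 * b - 1) * u)) * (d * m) - w * (g2 * m ^ 2) := by
        rw [hΓe, hnm]; ring
      have e3 : w * (g2 * m ^ 2) ≤ w * ((2 * b + 1) / 2 * u * (d * m)) :=
        mul_le_mul_of_nonneg_left hg2m hw0.le
      have e4 : 0 < γ0 / 2 + w * ((u * (6 * b - 3) + 2 * b) / 4) := by
        have : γ0 / 2 + w * ((u * (6 * b - 3) + 2 * b) / 4) =
          (u ^ 2 * ((u - 1) ^ 2 * (3 * u + 1)) + w * (5 * (u - 1) ^ 3 + 11 * (u - 1) ^ 2 +
            15 / 2 * (u - 1) + 5 / 2) + w ^ 2 * (2 * u + 1)) / 2 := by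
          rw [hγ0, hbw]; ring
        rw [this]; positivity
      have e5 : 0 ≤ γ0 + w * ((6 * b - 1) * u) - w * ((2 * b + 1) / 2 * u) := by
        have : γ0 + w * ((6 * b - 1) * u) - w * ((2 * b + 1) / 2 * u) =
          u ^ 2 * ((u - 1) ^ 2 * (3 * u + 1)) + w * (7 * (u - 1) ^ 3 + 16 * (u - 1) ^ 2 +
            23 / 2 * (u - 1) + 7 / 2) + w ^ 2 * (4 * u) := by
          rw [hγ0, hbw]; ring
        rw [this]; positivity
      have e6 : 0 ≤ (γ0 + w * ((6 * b - 1) * u) - w * ((2 * b + 1) / 2 * u)) * (d * m) :=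
        mul_nonneg e5 (by positivity)
      have e7 : 0 < d ^ 2 * (γ0 / 2 + w * ((u * (6 * b - 3) + 2 * b) / 4)) := by positivity
      linarith only [e1, e2, e3, e6, e7]
  rw [← hred] at hfin
  exact pos_of_mul_pos_left hfin (by positivity)

end Pool.Agent.Y242.AC
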