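import Mathlib
import Pool.Agent.Y242.AC4
import Pool.Agent.Y242.AC5

set_option autoImplicit false
open Complex Metric Set Filter Topology

namespace Pool.Agent.Y242.AC

/-- the half plane map -/
noncomputable def qq (z : ℂ) : ℂ := (1 + z) / (1 - z)

theorem one_sub_ne {z : ℂ} (hz : ‖z‖ < 1) : (1 : ℂ) - z ≠ 0 := by
  intro h
  have : z = 1 := by linear_combination -h
  rw [this] at hz; simp at hz

theorem qq_zero : qq 0 = 1 := by simp [qq]

theorem qq_add_one {z : ℂ} (hz : ‖z‖ < 1) : qq z + 1 = 2 / (1 - z) := by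
  have := one_sub_ne hz
  rw [qq]; field_simp; ring

theorem z_qq {z : ℂ} (hz : ‖z‖ < 1) : z * (qq z + 1) = qq z - 1 := by
  have := one_sub_ne hz
  rw [qq]; field_simp; ring

theorem qq_re {z : ℂ} : (qq z).re = (1 - ‖z‖ ^ 2) / ‖1 - z‖ ^ 2 := by
  rw [qq, div_re, Complex.sq_norm, Complex.sq_norm, ← add_div]
  congr 1
  rw [normSq_apply]
  simp
  ring

theorem qq_re_pos {z : ℂ} (hz : ‖z‖ < 1) : 0 < (qq z).re := by
  rw [qq_re]
  have h1 : 0 < ‖1 - z‖ := norm_pos_iff.2 (one_sub_ne hz)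
  have h2 : ‖z‖ ^ 2 < 1 := by nlinarith [norm_nonneg z]
  apply div_pos (by linarith) (by positivity)

theorem qq_hasDerivAt {z : ℂ} (hz : ‖z‖ < 1) : HasDerivAt qq (2 / (1 - z) ^ 2) z := by
  have h := one_sub_ne hz
  have h1 := ((hasDerivAt_id z).const_add 1).div ((hasDerivAt_id z).const_sub 1) h
  refine h1.congr_deriv ?_
  simp only [id]
  congr 1
  ring

theorem z_deriv_qq {z : ℂ} (hz : ‖z‖ < 1) : z * deriv qq z = (qq z ^ 2 - 1) / 2 := by
  have h := one_sub_ne hz
  rw [(qq_hasDerivAt hz).deriv, qq]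
  field_simp
  ring

section
variable {α b : ℝ} (hb : 1 < b) (hab : α * b = 1)
include hb hab

theorem alpha_pos : 0 < α := by
  by_contra hc
  push Not at hc
  nlinarith

theorem alpha_lt : α < 1 := by
  by_contra hc
  push Not at hc
  nlinarith

theorem K_zero' : K α 0 = ((2 * b / (b + 1) : ℝ) : ℂ) := by
  rw [K_zero]
  congr 1
  have h1 : (0 : ℝ) < 1 + α := by have := alpha_pos hb hab; linarith
  have h2 : (0 : ℝ) < b + 1 := by linarith
  field_simp
  linear_combination -hab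

theorem zK {z : ℂ} (hz : ‖z‖ < 1) :
    z * deriv (K α) z = b * (qq z + 1) - b * qq z * K α z - K α z := by
  have h := one_sub_ne hz
  have h1 := K_ode (alpha_pos hb hab) hz
  have hab' : (α : ℂ) * b = 1 := by exact_mod_cast hab
  rw [qq]
  field_simp
  linear_combination b * h1 + ((-(1 - z) * (z * deriv (K α) z)) - (1 - z) * K α z) * hab'

theorem K_diffAt {z : ℂ} (hz : ‖z‖ < 1) : DifferentiableAt ℂ (K α) z :=
  (K_hasDerivAt (alpha_pos hb hab) hz).differentiableAt

/-- `Re K > 1`. -/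
theorem K_re {z : ℂ} (hz : ‖z‖ < 1) : 1 < (K α z).re := by
  have hK0 : (K α 0 - 1) = (((b - 1) / (b + 1) : ℝ) : ℂ) := by
    rw [K_zero' hb hab]
    have h2 : (b + 1 : ℂ) ≠ 0 := by
      have : (b + 1 : ℝ) ≠ 0 := by linarith
      exact_mod_cast this
    push_cast
    field_simp
    ring
  have ha : 0 < (b - 1) / (b + 1) := div_pos (by linarith) (by linarith)
  have h := mm (g := fun z => K α z - 1) ((K_diff (alpha_pos hb hab)).sub_const 1) ha hK0 ?_ z
    (mem_ball_zero_iff.2 hz)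
  · simp only [sub_re, one_re] at h; linarith
  · intro z0 hz0 _ hre him hle
    have hz0n := mem_ball_zero_iff.1 hz0
    have hd : deriv (fun z => K α z - 1) z0 = deriv (K α) z0 := by
      rw [deriv_sub_const]
    rw [hd, zK hb hab hz0n] at him hle
    have hq := qq_re_pos hz0n
    set q := qq z0
    have hk1 : (K α z0).re = 1 := by simpa [sub_eq_zero] using hre
    set k := K α z0
    simp only [sub_re, sub_im, add_re, add_im, mul_re, mul_im, ofReal_re, ofReal_im, one_re, one_im,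
      zero_mul, sub_zero, add_zero] at him hle
    rw [hk1] at him hle
    have hν : k.im = 0 := by
      have h1 : k.im * (b * q.re + 1) = 0 := by linear_combination -him
      rcases mul_eq_zero.1 h1 with h | h
      · exact h
      · exfalso; nlinarith [mul_pos (by linarith : 0 < b) hq]
    rw [hν] at hle
    have h3 : 0 < (((b - 1) / (b + 1)) ^ 2 + ((0 : ℝ) - 0) ^ 2) / (2 * ((b - 1) / (b + 1))) := by
      positivity
    nlinarith

theorem K_ne {z : ℂ} (hz : ‖z‖ < 1) : K α z ≠ 0 := by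
  intro h
  have := K_re hb hab hz
  rw [h] at this; simp at this; linarith

end

/-- `R = 1 - z K`. -/
noncomputable def Rf (α : ℝ) (z : ℂ) : ℂ := 1 - z * K α z

section
variable {α b : ℝ} (hb : 1 < b) (hab : α * b = 1)
include hb hab

theorem R_hasDerivAt {z : ℂ} (hz : ‖z‖ < 1) :
    HasDerivAt (Rf α) (-(K α z + z * deriv (K α) z)) z := by
  have h1 := ((hasDerivAt_id z).mul (K_diffAt hb hab hz).hasDerivAt).const_sub 1
  refine h1.congr_deriv ?_
  simp

theorem zR {z : ℂ} (hz : ‖z‖ < 1) : z * deriv (Rf α) z = b * (1 - qq z * Rf α z) := by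
  rw [(R_hasDerivAt hb hab hz).deriv, Rf]
  have h1 := zK hb hab hz
  have h2 := z_qq hz
  linear_combination (-z) * h1 - b * h2

theorem R_diff : DifferentiableOn ℂ (Rf α) (ball 0 1) := fun _ hz =>
  (R_hasDerivAt hb hab (mem_ball_zero_iff.1 hz)).differentiableAt.differentiableWithinAt

theorem R_re {z : ℂ} (hz : ‖z‖ < 1) : 0 < (Rf α z).re := by
  refine mm (R_diff hb hab) one_pos (by simp [Rf]) ?_ z (mem_ball_zero_iff.2 hz)
  intro z0 hz0 _ hre him hle
  have hz0n := mem_ball_zero_iff.1 hz0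
  rw [zR hb hab hz0n] at him hle
  have hq := qq_re_pos hz0n
  set q := qq z0
  set r := Rf α z0
  simp only [sub_re, sub_im, mul_re, mul_im, ofReal_re, ofReal_im, one_re, one_im,
    zero_mul, sub_zero, add_zero, hre, mul_zero, zero_sub, zero_add] at him hle
  have hb0 : 0 < b := by linarith
  have hν : r.im = 0 := by
    have h1 : b * (q.re * r.im) = 0 := by linarith
    rcases mul_eq_zero.1 h1 with h | h
    · linarith
    · rcases mul_eq_zero.1 h with h | h
      · linarith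
      · exact h
  rw [hν] at hle
  norm_num at hle
  linarith

theorem R_ne {z : ℂ} (hz : ‖z‖ < 1) : Rf α z ≠ 0 := by
  intro h
  have := R_re hb hab hz
  rw [h] at this; simp at this

end

/-- `H = R (q+1)/2 = R/(1-z)`. -/
noncomputable def Hf (α : ℝ) (z : ℂ) : ℂ := Rf α z / (1 - z)

section
variable {α b : ℝ} (hb : 1 < b) (hab : α * b = 1)
include hb hab

theorem H_hasDerivAt {z : ℂ} (hz : ‖z‖ < 1) :
    HasDerivAt (Hf α) ((deriv (Rf α) z * (1 - z) + Rf α z) / (1 - z) ^ 2) z := by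
  have h := one_sub_ne hz
  have h1 := (((R_diff hb hab).differentiableAt
    (isOpen_ball.mem_nhds (mem_ball_zero_iff.2 hz))).hasDerivAt).div
    ((hasDerivAt_id z).const_sub 1) h
  refine h1.congr_deriv ?_
  simp only [id]
  congr 1
  ring

theorem zH {z : ℂ} (hz : ‖z‖ < 1) :
    z * deriv (Hf α) z = b * (qq z + 1) / 2 - Hf α z * (b * qq z - (qq z - 1) / 2) := by
  have h := one_sub_ne hz
  have h1 := zR hb hab hz
  rw [(H_hasDerivAt hb hab hz).deriv, Hf, qq_add_one hz]
  have h2 : qq z - 1 = 2 * z / (1 - z) := by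
    rw [← z_qq hz, qq_add_one hz]; ring
  have h3 : qq z = 1 + 2 * z / (1 - z) := by linear_combination h2
  rw [h2, h3]
  rw [h3] at h1
  field_simp at h1 ⊢
  linear_combination h1

theorem H_diff : DifferentiableOn ℂ (Hf α) (ball 0 1) := fun _ hz =>
  (H_hasDerivAt hb hab (mem_ball_zero_iff.1 hz)).differentiableAt.differentiableWithinAt

theorem H_re {z : ℂ} (hz : ‖z‖ < 1) : 1 / 2 < (Hf α z).re := by
  have h := mm (g := fun z => Hf α z - 1 / 2) ((H_diff hb hab).sub_const _) (a := 1 / 2)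
    (by norm_num) (by simp [Hf, Rf]; norm_num) ?_ z (mem_ball_zero_iff.2 hz)
  · simp only [sub_re] at h
    norm_num at h
    linarith
  · intro z0 hz0 _ hre him hle
    have hz0n := mem_ball_zero_iff.1 hz0
    have hd : deriv (fun z => Hf α z - 1 / 2) z0 = deriv (Hf α) z0 := by
      rw [deriv_sub_const]
    rw [hd, zH hb hab hz0n] at him hle
    have hq := qq_re_pos hz0n
    have hk1 : (Hf α z0).re = 1 / 2 := by
      simp only [sub_re] at hre
      norm_num at hre
      linarith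
    obtain ⟨q1, q2, hqe⟩ : ∃ q1 q2 : ℝ, qq z0 = ⟨q1, q2⟩ := ⟨_, _, rfl⟩
    obtain ⟨h1, h2, hhe⟩ : ∃ h1 h2 : ℝ, Hf α z0 = ⟨h1, h2⟩ := ⟨_, _, rfl⟩
    rw [hqe] at hq him hle
    rw [hhe] at hk1 him hle
    simp only at hk1 hq
    have e1 : (b * ((⟨q1, q2⟩ : ℂ) + 1) / 2 - (⟨h1, h2⟩ : ℂ) * (b * (⟨q1, q2⟩ : ℂ) - ((⟨q1, q2⟩ : ℂ) - 1) / 2)) =
      (⟨b * (q1 + 1) / 2 - (h1 * (b * q1 - (q1 - 1) / 2) - h2 * (b * q2 - q2 / 2)),
        b * q2 / 2 - (h1 * (b * q2 - q2 / 2) + h2 * (b * q1 - (q1 - 1) / 2))⟩ : ℂ) := by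
      apply Complex.ext <;> simp
    rw [e1] at him hle
    simp only at him hle
    subst hk1
    have hpos : 0 < ((1 / 2 : ℝ) ^ 2 + ((⟨1 / 2, h2⟩ : ℂ) - 1 / 2).im ^ 2) / (2 * (1 / 2)) := by
      positivity
    have hν : 0 ≤ h2 * q2 := by
      have : q2 = 4 * h2 * ((b - 1 / 2) * q1 + 1 / 2) := by linear_combination 4 * him
      rw [this]
      have h3 : 0 < (b - 1 / 2) * q1 := mul_pos (by linarith) hq
      have : h2 * (4 * h2 * ((b - 1 / 2) * q1 + 1 / 2)) = 4 * h2 ^ 2 * ((b - 1 / 2) * q1 + 1 / 2) := by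
        ring
      rw [this]
      positivity
    nlinarith [mul_nonneg (by linarith : (0 : ℝ) ≤ b - 1 / 2) hν]

theorem H_ne {z : ℂ} (hz : ‖z‖ < 1) : Hf α z ≠ 0 := by
  intro h
  have := H_re hb hab hz
  rw [h] at this; simp at this; linarith

end

end Pool.Agent.Y242.AC
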