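import Mathlib
import Pool.Agent.Y242.AC6

set_option autoImplicit false
open Complex Metric Set Filter Topology

namespace Pool.Agent.Y242.AC

/-- `t = 1 + z K'/K`, written without derivatives. -/
noncomputable def tf (α b : ℝ) (z : ℂ) : ℂ := b * (qq z + 1) / K α z - b * qq z

/-- `P = 1/R`. -/
noncomputable def Pf (α : ℝ) (z : ℂ) : ℂ := (Rf α z)⁻¹

section
variable {α b : ℝ} (hb : 1 < b) (hab : α * b = 1)
include hb hab

theorem t_hasDerivAt {z : ℂ} (hz : ‖z‖ < 1) :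
    HasDerivAt (tf α b) ((b * (2 / (1 - z) ^ 2) * K α z - b * (qq z + 1) * deriv (K α) z) /
      (K α z) ^ 2 - b * (2 / (1 - z) ^ 2)) z := by
  have hK := K_ne hb hab hz
  have h1 := (((qq_hasDerivAt hz).add_const 1).const_mul (b : ℂ)).div
    (K_diffAt hb hab hz).hasDerivAt hK
  exact h1.sub ((qq_hasDerivAt hz).const_mul (b : ℂ))

theorem t_diff : DifferentiableOn ℂ (tf α b) (ball 0 1) := fun _ hz =>
  (t_hasDerivAt hb hab (mem_ball_zero_iff.1 hz)).differentiableAt.differentiableWithinAt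

theorem zt {z : ℂ} (hz : ‖z‖ < 1) : z * deriv (tf α b) z =
    (tf α b z + b) * (qq z + 1) / 2 - tf α b z ^ 2 - b * qq z * tf α b z := by
  have hK := K_ne hb hab hz
  have hk := zK hb hab hz
  have hq := z_deriv_qq hz
  rw [(qq_hasDerivAt hz).deriv] at hq
  rw [(t_hasDerivAt hb hab hz).deriv, tf]
  set D : ℂ := 2 / (1 - z) ^ 2
  set k := K α z
  set dk := deriv (K α) z
  set q := qq z
  have e : z * ((b * D * k - b * (q + 1) * dk) / k ^ 2 - b * D) =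
      (b * (z * D) * k - b * (q + 1) * (z * dk)) / k ^ 2 - b * (z * D) := by ring
  rw [e, hq, hk]
  field_simp
  ring

theorem t_zero : tf α b 0 = 1 := by
  rw [tf, K_zero' hb hab, qq_zero]
  have h2 : (b + 1 : ℂ) ≠ 0 := by
    have : (b + 1 : ℝ) ≠ 0 := by linarith
    exact_mod_cast this
  have h3 : (b : ℂ) ≠ 0 := by
    have : (b : ℝ) ≠ 0 := by linarith
    exact_mod_cast this
  push_cast
  field_simp
  ring

theorem t_re {z : ℂ} (hz : ‖z‖ < 1) : 1 / 2 < (tf α b z).re := by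
  have h := mm (g := fun z => tf α b z - 1 / 2) ((t_diff hb hab).sub_const _) (a := 1 / 2)
    (by norm_num) (by rw [t_zero hb hab]; norm_num) ?_ z (mem_ball_zero_iff.2 hz)
  · simp only [sub_re] at h
    norm_num at h
    linarith
  · intro z0 hz0 _ hre him hle
    have hz0n := mem_ball_zero_iff.1 hz0
    have hd : deriv (fun z => tf α b z - 1 / 2) z0 = deriv (tf α b) z0 := by
      rw [deriv_sub_const]
    rw [hd, zt hb hab hz0n] at him hle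
    have hq := qq_re_pos hz0n
    have hk1 : (tf α b z0).re = 1 / 2 := by
      simp only [sub_re] at hre
      norm_num at hre
      linarith
    obtain ⟨q1, q2, hqe⟩ : ∃ q1 q2 : ℝ, qq z0 = ⟨q1, q2⟩ := ⟨_, _, rfl⟩
    obtain ⟨h1, h2, hhe⟩ : ∃ h1 h2 : ℝ, tf α b z0 = ⟨h1, h2⟩ := ⟨_, _, rfl⟩
    rw [hqe] at hq him hle
    rw [hhe] at hk1 him hle
    simp only at hk1 hq
    subst hk1
    have e1 : ((⟨1 / 2, h2⟩ : ℂ) + b) * ((⟨q1, q2⟩ : ℂ) + 1) / 2 - (⟨1 / 2, h2⟩ : ℂ) ^ 2 -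
        b * (⟨q1, q2⟩ : ℂ) * (⟨1 / 2, h2⟩ : ℂ) =
      (⟨q1 / 4 + b / 2 + h2 ^ 2 + (b - 1 / 2) * (h2 * q2),
        q2 / 4 - h2 / 2 + h2 * q1 * (1 / 2 - b)⟩ : ℂ) := by
      apply Complex.ext
      · simp [pow_two]
        ring
      · simp [pow_two]
        ring
    rw [e1] at him hle
    simp only at him hle
    have hpos : 0 < ((1 / 2 : ℝ) ^ 2 + ((⟨1 / 2, h2⟩ : ℂ) - 1 / 2).im ^ 2) / (2 * (1 / 2)) := by
      positivity
    have hν : 0 ≤ h2 * q2 := by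
      have : q2 = 2 * h2 + 4 * (b - 1 / 2) * h2 * q1 := by linear_combination 4 * him
      rw [this]
      have h3 : 0 < (b - 1 / 2) * q1 := mul_pos (by linarith) hq
      have : h2 * (2 * h2 + 4 * (b - 1 / 2) * h2 * q1) =
        h2 ^ 2 * (2 + 4 * ((b - 1 / 2) * q1)) := by
        ring
      rw [this]
      positivity
    nlinarith [mul_nonneg (by linarith : (0 : ℝ) ≤ b - 1 / 2) hν, sq_nonneg h2]

theorem P_hasDerivAt {z : ℂ} (hz : ‖z‖ < 1) :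
    HasDerivAt (Pf α) (-(deriv (Rf α) z) / (Rf α z) ^ 2) z := by
  have h1 := (((R_diff hb hab).differentiableAt
    (isOpen_ball.mem_nhds (mem_ball_zero_iff.2 hz))).hasDerivAt)
  exact h1.inv (R_ne hb hab hz)

theorem P_diff : DifferentiableOn ℂ (Pf α) (ball 0 1) := fun _ hz =>
  (P_hasDerivAt hb hab (mem_ball_zero_iff.1 hz)).differentiableAt.differentiableWithinAt

theorem zP {z : ℂ} (hz : ‖z‖ < 1) :
    z * deriv (Pf α) z = b * Pf α z * (qq z - Pf α z) := by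
  have hR := R_ne hb hab hz
  have h1 := zR hb hab hz
  rw [(P_hasDerivAt hb hab hz).deriv, Pf]
  field_simp
  linear_combination -h1

omit hb hab in
theorem P_zero : Pf α 0 = 1 := by simp [Pf, Rf]

theorem P_re {z : ℂ} (hz : ‖z‖ < 1) : 0 < (Pf α z).re := by
  rw [Pf, inv_re]
  exact div_pos (R_re hb hab hz) (normSq_pos.2 (R_ne hb hab hz))

theorem P_ne {z : ℂ} (hz : ‖z‖ < 1) : Pf α z ≠ 0 := inv_ne_zero (R_ne hb hab hz)

theorem P_rel {z : ℂ} (hz : ‖z‖ < 1) :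
    Pf α z * (tf α b z + b) = b * qq z + tf α b z := by
  have hR := R_ne hb hab hz
  have hK := K_ne hb hab hz
  have h2 := z_qq hz
  have hRd : Rf α z = 1 - z * K α z := rfl
  rw [Pf, tf]
  field_simp
  rw [hRd]
  linear_combination (b * K α z) * h2

/-- `Re (P t - q/2) > 0` -/
theorem G_re {z : ℂ} (hz : ‖z‖ < 1) : 0 < (Pf α z * tf α b z - qq z / 2).re := by
  have hqd : DifferentiableOn ℂ qq (ball 0 1) := fun _ hz =>
    (qq_hasDerivAt (mem_ball_zero_iff.1 hz)).differentiableAt.differentiableWithinAt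
  refine mm (g := fun z => Pf α z * tf α b z - qq z / 2)
    (((P_diff hb hab).mul (t_diff hb hab)).sub (hqd.div_const 2)) (a := 1 / 2)
    (by norm_num) (by rw [t_zero hb hab, P_zero, qq_zero]; norm_num) ?_ z (mem_ball_zero_iff.2 hz)
  intro z0 hz0 _ hre him hle
  have hz0n := mem_ball_zero_iff.1 hz0
  have hPd := P_hasDerivAt hb hab hz0n
  have hTd := t_hasDerivAt hb hab hz0n
  have hQd := qq_hasDerivAt hz0n
  have hd : z0 * deriv (fun z => Pf α z * tf α b z - qq z / 2) z0 =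
      (z0 * deriv (Pf α) z0) * tf α b z0 + Pf α z0 * (z0 * deriv (tf α b) z0) -
        (z0 * deriv qq z0) / 2 := by
    have hh : HasDerivAt (fun z => Pf α z * tf α b z - qq z / 2) _ z0 :=
      (hPd.mul hTd).sub (hQd.div_const 2)
    rw [hh.deriv, hPd.deriv, hTd.deriv, hQd.deriv]
    ring
  rw [hd, zP hb hab hz0n, zt hb hab hz0n, z_deriv_qq hz0n] at him hle
  have hq := qq_re_pos hz0n
  have hrel := P_rel hb hab hz0n
  have ht := t_re hb hab hz0n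
  obtain ⟨q1, q2, hqe⟩ : ∃ q1 q2 : ℝ, qq z0 = ⟨q1, q2⟩ := ⟨_, _, rfl⟩
  obtain ⟨t1, t2, hte⟩ : ∃ t1 t2 : ℝ, tf α b z0 = ⟨t1, t2⟩ := ⟨_, _, rfl⟩
  obtain ⟨x, y, hPe⟩ : ∃ x y : ℝ, Pf α z0 = ⟨x, y⟩ := ⟨_, _, rfl⟩
  rw [hqe, hte, hPe] at hrel hre him hle
  rw [hqe] at hq
  rw [hte] at ht
  simp only at hq ht
  obtain ⟨γ, hγ⟩ : ∃ γ : ℝ, γ = ((⟨x, y⟩ : ℂ) * ⟨t1, t2⟩ - ⟨q1, q2⟩ / 2).im := ⟨_, rfl⟩
  rw [← hγ] at hle
  -- q in terms of the others
  have hq1 : q1 = 2 * (x * t1 - y * t2) := by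
    simp at hre; linarith
  have hq2 : q2 = 2 * (x * t2 + y * t1 - γ) := by
    simp at hγ; linarith
  have hr1 : x * (t1 + b) - y * t2 = b * q1 + t1 := by
    have := congrArg Complex.re hrel
    simpa using this
  have hr2 : x * t2 + y * (t1 + b) = b * q2 + t2 := by
    have := congrArg Complex.im hrel
    simpa using this
  obtain ⟨Rl, hRl⟩ : ∃ Rl : ℝ, Rl = t1 ^ 2 - t2 ^ 2 - t1 / 2 + γ * t2 - b / 2 := ⟨_, rfl⟩
  obtain ⟨Il, hIl⟩ : ∃ Il : ℝ, Il = 2 * t1 * t2 - t2 / 2 - γ * t1 + b * γ := ⟨_, rfl⟩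
  have hZ : (b * (⟨x, y⟩ : ℂ) * ((⟨q1, q2⟩ : ℂ) - (⟨x, y⟩ : ℂ))) * (⟨t1, t2⟩ : ℂ) +
      (⟨x, y⟩ : ℂ) * (((⟨t1, t2⟩ : ℂ) + b) * ((⟨q1, q2⟩ : ℂ) + 1) / 2 - (⟨t1, t2⟩ : ℂ) ^ 2 -
        b * (⟨q1, q2⟩ : ℂ) * (⟨t1, t2⟩ : ℂ)) - (((⟨q1, q2⟩ : ℂ) ^ 2 - 1) / 2) / 2 =
      (⟨(1 / 4 + γ ^ 2) - (x * Rl - y * Il), - (x * Il + y * Rl)⟩ : ℂ) := by
    rw [hRl, hIl, hq1, hq2]
    apply Complex.ext
    · simp [pow_two]
      ring
    · simp [pow_two]
      ring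
  rw [hZ] at him hle
  simp only at him hle
  obtain ⟨ξ, hξ⟩ : ∃ ξ : ℝ, ξ = x * Rl - y * Il := ⟨_, rfl⟩
  have hξ0 : 0 < ξ := by
    rw [hξ]
    have : (((1 : ℝ) / 2) ^ 2 + γ ^ 2) / (2 * (1 / 2)) = 1 / 4 + γ ^ 2 := by norm_num
    rw [this] at hle
    nlinarith [sq_nonneg γ]
  have him' : x * Il + y * Rl = 0 := by linarith
  have hN : 0 < x ^ 2 + y ^ 2 := by
    by_contra hc
    have hx : x = 0 := by nlinarith [sq_nonneg x, sq_nonneg y]
    have hy : y = 0 := by nlinarith [sq_nonneg x, sq_nonneg y]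
    rw [hx, hy] at hξ; linarith
  have hRl' : Rl * (x ^ 2 + y ^ 2) = ξ * x := by rw [hξ]; linear_combination y * him'
  have hIl' : Il * (x ^ 2 + y ^ 2) = -ξ * y := by rw [hξ]; linear_combination x * him'
  have hre2 : 0 < x * t1 - y * t2 := by linarith
  -- relation  P (b - (2b-1) t) = t - 2 b w
  have e1 : x * (b - (2 * b - 1) * t1) + y * ((2 * b - 1) * t2) = t1 := by
    linear_combination hr1 + b * hq1
  have e2 : y * (b - (2 * b - 1) * t1) - x * ((2 * b - 1) * t2) = t2 - 2 * b * γ := by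
    linear_combination hr2 + b * hq2
  refine f5 (b := b) (t1 := t1) (t2 := t2) (γ := γ) (ξ := ξ) (Rl := Rl) (Il := Il) hb ht hξ0
    rfl rfl hRl hIl ?_ ?_ ?_ ?_
  · have : (Rl * t1 + Il * (2 * b * γ - t2) - ξ * (b - (2 * b - 1) * t1)) * (x ^ 2 + y ^ 2) = 0 := by
      linear_combination (t1 * hRl' + (2 * b * γ - t2) * hIl') - ξ * x * e1 - ξ * y * e2
    rcases mul_eq_zero.1 this with h | h
    · linarith
    · linarith
  · have : (Il * t1 - Rl * (2 * b * γ - t2) + ξ * (2 * b - 1) * t2) * (x ^ 2 + y ^ 2) = 0 := by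
      linear_combination (t1 * hIl' - (2 * b * γ - t2) * hRl') + ξ * y * e1 - ξ * x * e2
    rcases mul_eq_zero.1 this with h | h
    · linarith
    · linarith
  · have : (b - (2 * b - 1) * t1) * (t1 ^ 2 + t2 * (2 * b * γ - t2)) +
        (2 * b - 1) * t1 * t2 * ((2 * b * γ - t2) - t2) =
        ((b - (2 * b - 1) * t1) ^ 2 + ((2 * b - 1) * t2) ^ 2) * (x * t1 - y * t2) := by
      linear_combination (-(b - (2 * b - 1) * t1) * t1 + ((2 * b - 1) * t2) * t2) * e1 +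
        ((b - (2 * b - 1) * t1) * t2 + ((2 * b - 1) * t2) * t1) * e2
    rw [this]
    positivity
  · have : (Rl * t1 + Il * t2) * (x ^ 2 + y ^ 2) = ξ * (x * t1 - y * t2) := by
      linear_combination t1 * hRl' + t2 * hIl'
    have h3 : 0 < (Rl * t1 + Il * t2) * (x ^ 2 + y ^ 2) := by rw [this]; positivity
    exact ((mul_pos_iff_of_pos_right hN).1 h3).le

theorem Sg_re {z : ℂ} (hz : ‖z‖ < 1) : 0 < (Pf α z * tf α b z).re := by
  have h := G_re hb hab hz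
  have h2 := qq_re_pos hz
  simp only [sub_re] at h
  have : (qq z / 2).re = (qq z).re / 2 := by simp
  linarith

/-- `Re ((b-1) P - t + 1) > 0` -/
theorem S_re {z : ℂ} (hz : ‖z‖ < 1) : 0 < (((b - 1 : ℝ) : ℂ) * Pf α z - tf α b z + 1).re := by
  have hB : 0 < b - 1 := by linarith
  refine mm (g := fun z => ((b - 1 : ℝ) : ℂ) * Pf α z - tf α b z + 1)
    ((((P_diff hb hab).const_mul _).sub (t_diff hb hab)).add_const 1) hB
    (by rw [t_zero hb hab, P_zero]; ring) ?_ z (mem_ball_zero_iff.2 hz)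
  intro z0 hz0 _ hre him hle
  have hz0n := mem_ball_zero_iff.1 hz0
  have hPd := P_hasDerivAt hb hab hz0n
  have hTd := t_hasDerivAt hb hab hz0n
  have hd : z0 * deriv (fun z => ((b - 1 : ℝ) : ℂ) * Pf α z - tf α b z + 1) z0 =
      ((b - 1 : ℝ) : ℂ) * (z0 * deriv (Pf α) z0) - z0 * deriv (tf α b) z0 := by
    have hh : HasDerivAt (fun z => ((b - 1 : ℝ) : ℂ) * Pf α z - tf α b z + 1) _ z0 :=
      ((hPd.const_mul _).sub hTd).add_const 1
    rw [hh.deriv, hPd.deriv, hTd.deriv]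
    ring
  rw [hd, zP hb hab hz0n, zt hb hab hz0n] at him hle
  have hq := qq_re_pos hz0n
  have hrel := P_rel hb hab hz0n
  have hPre := P_re hb hab hz0n
  obtain ⟨q1, q2, hqe⟩ : ∃ q1 q2 : ℝ, qq z0 = ⟨q1, q2⟩ := ⟨_, _, rfl⟩
  obtain ⟨u, τ, hte⟩ : ∃ t1 t2 : ℝ, tf α b z0 = ⟨t1, t2⟩ := ⟨_, _, rfl⟩
  obtain ⟨x, y, hPe⟩ : ∃ x y : ℝ, Pf α z0 = ⟨x, y⟩ := ⟨_, _, rfl⟩
  rw [hqe, hte, hPe] at hrel him hle
  rw [hte, hPe] at hre
  rw [hqe] at hq
  rw [hPe] at hPre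
  simp only at hq hPre
  have hu : u = (b - 1) * x + 1 := by
    simp at hre; linarith
  have hr1 : b * q1 = x * (u + b) - y * τ - u := by
    have := congrArg Complex.re hrel
    simp at this; linarith
  have hr2 : b * q2 = x * τ + y * (u + b) - τ := by
    have := congrArg Complex.im hrel
    simp at this; linarith
  have hs : (((b - 1 : ℝ) : ℂ) * (⟨x, y⟩ : ℂ) - (⟨u, τ⟩ : ℂ) + 1).im = (b - 1) * y - τ := by
    simp
  rw [hs] at hle
  have hZre : (((b - 1 : ℝ) : ℂ) * (b * (⟨x, y⟩ : ℂ) * ((⟨q1, q2⟩ : ℂ) - (⟨x, y⟩ : ℂ))) -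
      (((⟨u, τ⟩ : ℂ) + b) * ((⟨q1, q2⟩ : ℂ) + 1) / 2 - (⟨u, τ⟩ : ℂ) ^ 2 -
        b * (⟨q1, q2⟩ : ℂ) * (⟨u, τ⟩ : ℂ))).re =
      (b - 1) * b * (x * (q1 - x) - y * (q2 - y)) - (((u + b) * (q1 + 1) - τ * q2) / 2 -
        (u ^ 2 - τ ^ 2) - b * (q1 * u - q2 * τ)) := by
    simp [pow_two]
    ring
  have hZim : (((b - 1 : ℝ) : ℂ) * (b * (⟨x, y⟩ : ℂ) * ((⟨q1, q2⟩ : ℂ) - (⟨x, y⟩ : ℂ))) -
      (((⟨u, τ⟩ : ℂ) + b) * ((⟨q1, q2⟩ : ℂ) + 1) / 2 - (⟨u, τ⟩ : ℂ) ^ 2 -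
        b * (⟨q1, q2⟩ : ℂ) * (⟨u, τ⟩ : ℂ))).im =
      (b - 1) * b * (x * (q2 - y) + y * (q1 - x)) - (((u + b) * q2 + τ * (q1 + 1)) / 2 -
        (2 * u * τ) - b * (q1 * τ + q2 * u)) := by
    simp [pow_two]
    ring
  rw [hZim] at him
  rw [hZre] at hle
  have hu1 : 1 < u := by rw [hu]; nlinarith
  subst hu
  set u := (b - 1) * x + 1 with hu
  have hb0 : 0 < b := by linarith
  have key := f6 (b := b) (u := u) (V := -(((b - 1) * y) * τ)) (Y := (b - 1) * y) (τ := τ) hb hu1 rfl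
    ?_ rfl rfl ?_
  · rw [le_neg, div_le_iff₀ (by linarith)] at hle
    have hE : ((4 * b - 1) * u ^ 3 - 5 * b * u ^ 2 + (2 * b - b ^ 2) * u + b) -
        b * (2 * u - 1) * ((b - 1) * y) ^ 2 + ((8 * b - 2) * u - 2 * b) * (-(((b - 1) * y) * τ)) -
        ((2 * b - 1) * u - 2 * b) * τ ^ 2 =
        b * (2 * (b - 1) * ((b - 1) * b * (x * (q1 - x) - y * (q2 - y)) -
          (((u + b) * (q1 + 1) - τ * q2) / 2 -
          (u ^ 2 - τ ^ 2) - b * (q1 * u - q2 * τ))) + ((b - 1) ^ 2 + ((b - 1) * y - τ) ^ 2)) := by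
      rw [hu] at hr1 hr2 ⊢
      linear_combination (-(2 * (b - 1) * ((b - 1) * b * x - (((b - 1) * x + 1) + b) / 2 +
        b * ((b - 1) * x + 1)))) * hr1 - (2 * (b - 1) * (-(b - 1) * b * y + τ / 2 - b * τ)) * hr2
    rw [hE] at key
    have := (mul_pos_iff_of_pos_left hb0).1 key
    nlinarith
  · have : u ^ 2 - b + -((b - 1) * y * τ) = b * (b - 1) * q1 := by
      linear_combination (-(b - 1)) * hr1
    rw [this]
    positivity
  · rw [hu] at hr1 hr2 him ⊢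
    linear_combination (2 * b * (b - 1)) * him -
      (2 * (b - 1) * ((b - 1) * b * y - τ / 2 + b * τ)) * hr1 -
      (2 * (b - 1) * ((b - 1) * b * x - (((b - 1) * x + 1) + b) / 2 +
        b * ((b - 1) * x + 1))) * hr2

end

end Pool.Agent.Y242.AC
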