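import Mathlib
import Pool.Agent.Y242.AC7

set_option autoImplicit false
open Complex Metric Set Filter Topology

namespace Pool.Agent.Y242.AC

open Classical in
/-- the primitive of `K/R` vanishing at `0`. -/
noncomputable def Lf (α : ℝ) : ℂ → ℂ :=
  if h : ∃ L : ℂ → ℂ, L 0 = 0 ∧ ∀ z ∈ ball (0 : ℂ) 1, HasDerivAt L (K α z / Rf α z) z then h.choose
  else 0

/-- `F = exp L`, the function with `z F = f_α`. -/
noncomputable def Ff (α : ℝ) (z : ℂ) : ℂ := exp (Lf α z)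

/-- `Θ = F''/F'` -/
noncomputable def Th (α : ℝ) (z : ℂ) : ℂ :=
  K α z / Rf α z + deriv (K α) z / K α z - deriv (Rf α) z / Rf α z

section
variable {α b : ℝ} (hb : 1 < b) (hab : α * b = 1)
include hb hab

theorem KR_diff : DifferentiableOn ℂ (fun z => K α z / Rf α z) (ball 0 1) :=
  (K_diff (alpha_pos hb hab)).div (R_diff hb hab) fun _ hz => R_ne hb hab (mem_ball_zero_iff.1 hz)

theorem L_spec : Lf α 0 = 0 ∧ ∀ z ∈ ball (0 : ℂ) 1, HasDerivAt (Lf α) (K α z / Rf α z) z := by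
  have h : ∃ L : ℂ → ℂ, L 0 = 0 ∧ ∀ z ∈ ball (0 : ℂ) 1, HasDerivAt L (K α z / Rf α z) z :=
    IsExactOn.with_val_at (KR_diff hb hab).isExactOn_ball 0 0
  rw [Lf, dif_pos h]
  exact h.choose_spec

theorem L_zero : Lf α 0 = 0 := (L_spec hb hab).1

theorem L_hasDerivAt {z : ℂ} (hz : ‖z‖ < 1) : HasDerivAt (Lf α) (K α z / Rf α z) z :=
  (L_spec hb hab).2 z (mem_ball_zero_iff.2 hz)

theorem L_diff : DifferentiableOn ℂ (Lf α) (ball 0 1) := fun _ hz =>
  (L_hasDerivAt hb hab (mem_ball_zero_iff.1 hz)).differentiableAt.differentiableWithinAt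

theorem zL {z : ℂ} (hz : ‖z‖ < 1) : z * deriv (Lf α) z = Pf α z - 1 := by
  have hR := R_ne hb hab hz
  have hRd : Rf α z = 1 - z * K α z := rfl
  rw [(L_hasDerivAt hb hab hz).deriv, Pf]
  field_simp
  rw [hRd]; ring

theorem L_inj : InjOn (Lf α) (ball 0 1) := by
  refine log_inj (L_diff hb hab) fun z hz => ?_
  have hzn := mem_ball_zero_iff.1 hz
  have hR := R_ne hb hab hzn
  have hK := K_ne hb hab hzn
  have hH := H_ne hb hab hzn
  have h1 := one_sub_ne hzn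
  rw [(L_hasDerivAt hb hab hzn).deriv]
  have hb0 : (b : ℂ) ≠ 0 := by
    have : (b : ℝ) ≠ 0 := by linarith
    exact_mod_cast this
  -- (1-z) K/R = ( (1 + α t)/2 )⁻¹
  have e : (1 - z) * (K α z / Rf α z) = ((1 + α * tf α b z) / 2)⁻¹ := by
    have hab' : (α : ℂ) * b = 1 := by exact_mod_cast hab
    have e2 : (1 + α * tf α b z) / 2 = Rf α z / ((1 - z) * K α z) := by
      rw [tf, Rf, qq_add_one hzn, qq]
      field_simp
      linear_combination (2 - K α z * (1 + z)) * hab'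
    rw [e2, inv_div]
    field_simp
  rw [e, inv_re]
  have ht := t_re hb hab hzn
  have hα := alpha_pos hb hab
  have hre : ((1 + α * tf α b z) / 2).re = (1 + α * (tf α b z).re) / 2 := by
    simp
  have hpos : 0 < ((1 + α * tf α b z) / 2).re := by
    rw [hre]
    have : 0 < α * (tf α b z).re := mul_pos hα (by linarith)
    linarith
  refine div_pos hpos (normSq_pos.2 ?_)
  intro h0
  rw [h0] at hpos
  simp at hpos

theorem F_zero : Ff α 0 = 1 := by rw [Ff, L_zero hb hab, exp_zero]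

omit hb hab in
theorem F_ne (z : ℂ) : Ff α z ≠ 0 := exp_ne_zero _

theorem F_hasDerivAt {z : ℂ} (hz : ‖z‖ < 1) : HasDerivAt (Ff α) (Ff α z * (K α z / Rf α z)) z :=
  (L_hasDerivAt hb hab hz).cexp

theorem F_diff : DifferentiableOn ℂ (Ff α) (ball 0 1) := fun _ hz =>
  (F_hasDerivAt hb hab (mem_ball_zero_iff.1 hz)).differentiableAt.differentiableWithinAt

theorem F_deriv_ne {z : ℂ} (hz : ‖z‖ < 1) : deriv (Ff α) z ≠ 0 := by
  rw [(F_hasDerivAt hb hab hz).deriv]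
  exact mul_ne_zero (F_ne z) (div_ne_zero (K_ne hb hab hz) (R_ne hb hab hz))

theorem F_deriv2 {z : ℂ} (hz : ‖z‖ < 1) :
    deriv (deriv (Ff α)) z = Th α z * deriv (Ff α) z := by
  have hR := R_ne hb hab hz
  have hK := K_ne hb hab hz
  have h1 : deriv (Ff α) =ᶠ[𝓝 z] fun z => Ff α z * (K α z / Rf α z) := by
    filter_upwards [isOpen_ball.mem_nhds (mem_ball_zero_iff.2 hz)] with w hw
    exact (F_hasDerivAt hb hab (mem_ball_zero_iff.1 hw)).deriv
  have hRd := (((R_diff hb hab).differentiableAt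
    (isOpen_ball.mem_nhds (mem_ball_zero_iff.2 hz))).hasDerivAt)
  have hKd := (K_diffAt hb hab hz).hasDerivAt
  have h2 : HasDerivAt (fun z => Ff α z * (K α z / Rf α z)) _ z :=
    (F_hasDerivAt hb hab hz).mul (hKd.div hRd hR)
  rw [h1.deriv_eq, h2.deriv, (F_hasDerivAt hb hab hz).deriv, Th]
  field_simp
  ring

theorem zTh {z : ℂ} (hz : ‖z‖ < 1) :
    1 + z * Th α z = b * qq z - (((b - 1 : ℝ) : ℂ) * Pf α z - tf α b z + 1) := by
  have hR := R_ne hb hab hz
  have hK := K_ne hb hab hz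
  have h1 := zR hb hab hz
  have h2 := zK hb hab hz
  have e : z * Th α z = (z * K α z) / Rf α z + (z * deriv (K α) z) / K α z -
      (z * deriv (Rf α) z) / Rf α z := by
    rw [Th]; ring
  have hRd : Rf α z = 1 - z * K α z := rfl
  have hzK : z * K α z = 1 - Rf α z := by rw [hRd]; ring
  rw [e, h1, h2, hzK, Pf, tf]
  push_cast
  field_simp
  ring

theorem Th_re {z : ℂ} (hz : ‖z‖ < 1) :
    (1 + z * Th α z).re ≤ b * ((1 - ‖z‖ ^ 2) / ‖1 - z‖ ^ 2) := by
  have hS := S_re hb hab hz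
  rw [zTh hb hab hz, sub_re, ← qq_re]
  have : ((b : ℂ) * qq z).re = b * (qq z).re := by simp
  rw [this]
  linarith

theorem Th_diff : DifferentiableOn ℂ (Th α) (ball 0 1) := by
  have hK := K_diff (alpha_pos hb hab)
  have hR := R_diff hb hab
  have hRn : ∀ z ∈ ball (0 : ℂ) 1, Rf α z ≠ 0 := fun z hz => R_ne hb hab (mem_ball_zero_iff.1 hz)
  have hKn : ∀ z ∈ ball (0 : ℂ) 1, K α z ≠ 0 := fun z hz => K_ne hb hab (mem_ball_zero_iff.1 hz)
  exact ((hK.div hR hRn).add ((hK.deriv isOpen_ball).div hK hKn)).sub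
    ((hR.deriv isOpen_ball).div hR hRn)

theorem Th_bound0 {z : ℂ} (hz : ‖z‖ < 1) : ‖z * ((1 - z) * Th α z)‖ ≤ 8 * b + 4 := by
  have hR := R_ne hb hab hz
  have hK := K_ne hb hab hz
  have hH := H_ne hb hab hz
  have h1 := one_sub_ne hz
  have e : z * ((1 - z) * Th α z) = b * (1 + z) - ((b - 1 : ℝ) : ℂ) * (Hf α z)⁻¹ +
      (2 * b / K α z - b * (1 + z)) - 2 * (1 - z) := by
    have h2 : z * ((1 - z) * Th α z) = (1 - z) * ((1 + z * Th α z) - 1) := by ring
    rw [h2, zTh hb hab hz, Hf, Pf, tf, qq_add_one hz, qq]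
    field_simp
    ring
  have hHn : ‖(Hf α z)⁻¹‖ ≤ 2 := by
    rw [norm_inv]
    have h3 := H_re hb hab hz
    have h4 : 1 / 2 ≤ ‖Hf α z‖ := h3.le.trans ((le_abs_self _).trans (abs_re_le_norm _))
    calc ‖Hf α z‖⁻¹ ≤ (1 / 2 : ℝ)⁻¹ := by gcongr
      _ = 2 := by norm_num
  have hKn : ‖2 * b / K α z‖ ≤ 2 * b := by
    rw [norm_div, norm_mul, norm_real, Real.norm_of_nonneg (by linarith : (0 : ℝ) ≤ b)]
    have h3 := K_re hb hab hz
    have h4 : 1 ≤ ‖K α z‖ := h3.le.trans ((le_abs_self _).trans (abs_re_le_norm _))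
    have : ‖(2 : ℂ)‖ = 2 := by simp
    rw [this]
    exact div_le_self (by linarith) h4
  have hbn : ‖(b : ℂ)‖ = b := by
    rw [norm_real, Real.norm_of_nonneg (by linarith : (0 : ℝ) ≤ b)]
  have hbn1 : ‖((b - 1 : ℝ) : ℂ)‖ = b - 1 := by
    rw [norm_real, Real.norm_of_nonneg (by linarith : (0 : ℝ) ≤ b - 1)]
  have h1z : ‖1 + z‖ ≤ 2 := (norm_add_le _ _).trans (by rw [norm_one]; linarith)
  have h2z : ‖1 - z‖ ≤ 2 := (norm_sub_le _ _).trans (by rw [norm_one]; linarith)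
  rw [e]
  have t1 : ‖(b : ℂ) * (1 + z)‖ ≤ 2 * b := by
    rw [norm_mul, hbn]; nlinarith
  have t2 : ‖((b - 1 : ℝ) : ℂ) * (Hf α z)⁻¹‖ ≤ 2 * (b - 1) := by
    rw [norm_mul, hbn1]; nlinarith
  have t3 : ‖(2 : ℂ) * (1 - z)‖ ≤ 4 := by
    rw [norm_mul]
    have : ‖(2 : ℂ)‖ = 2 := by simp
    rw [this]; linarith
  calc ‖b * (1 + z) - ((b - 1 : ℝ) : ℂ) * (Hf α z)⁻¹ + (2 * b / K α z - b * (1 + z)) -
        2 * (1 - z)‖ ≤ ‖b * (1 + z) - ((b - 1 : ℝ) : ℂ) * (Hf α z)⁻¹ +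
          (2 * b / K α z - b * (1 + z))‖ + ‖2 * (1 - z)‖ := norm_sub_le _ _
    _ ≤ (‖b * (1 + z) - ((b - 1 : ℝ) : ℂ) * (Hf α z)⁻¹‖ +
          ‖2 * b / K α z - b * (1 + z)‖) + ‖2 * (1 - z)‖ := by gcongr; exact norm_add_le _ _
    _ ≤ ((‖b * (1 + z)‖ + ‖((b - 1 : ℝ) : ℂ) * (Hf α z)⁻¹‖) +
          (‖2 * b / K α z‖ + ‖b * (1 + z)‖)) + ‖2 * (1 - z)‖ := by
        gcongr
        · exact norm_sub_le _ _
        · exact norm_sub_le _ _
    _ ≤ 8 * b + 4 := by linarith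

theorem Th_bound {z : ℂ} (hz : ‖z‖ < 1) : ‖Th α z‖ ≤ (16 * b + 8) / ‖1 - z‖ := by
  have h1 := one_sub_ne hz
  have h1n : 0 < ‖1 - z‖ := norm_pos_iff.2 h1
  have hC : 0 ≤ 16 * b + 8 := by linarith
  suffices h : ‖(1 - z) * Th α z‖ ≤ 16 * b + 8 by
    rw [le_div_iff₀ h1n, mul_comm, ← norm_mul]; exact h
  have big : ∀ w : ℂ, ‖w‖ < 1 → 1 / 2 ≤ ‖w‖ → ‖(1 - w) * Th α w‖ ≤ 16 * b + 8 := by
    intro w hw hw2
    have h2 := Th_bound0 hb hab hw
    rw [norm_mul] at h2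
    nlinarith [norm_nonneg ((1 - w) * Th α w)]
  rcases le_or_gt (1 / 2) ‖z‖ with h | h
  · exact big z hz h
  · have hd : DifferentiableOn ℂ (fun w => (1 - w) * Th α w) (ball 0 1) :=
      (((differentiable_const 1).sub differentiable_id).differentiableOn).mul (Th_diff hb hab)
    have hsub : closedBall (0 : ℂ) (1 / 2) ⊆ ball 0 1 := closedBall_subset_ball (by norm_num)
    have hdc : DiffContOnCl ℂ (fun w => (1 - w) * Th α w) (ball 0 (1 / 2)) := by
      refine DifferentiableOn.diffContOnCl ?_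
      rw [closure_ball _ (by norm_num)]
      exact hd.mono hsub
    refine norm_le_of_forall_mem_frontier_norm_le isBounded_ball hdc ?_
      (subset_closure (mem_ball_zero_iff.2 h))
    intro w hw
    rw [frontier_ball _ (by norm_num), mem_sphere_zero_iff_norm] at hw
    exact big w (by rw [hw]; norm_num) hw.ge

/-- `f_α = z F` is injective. -/
theorem zF_inj : InjOn (fun z => z * Ff α z) (ball 0 1) := by
  intro z1 h1 z2 h2 h
  simp only at h
  rcases eq_or_ne z1 0 with h10 | h10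
  · rw [h10, zero_mul] at h
    rcases mul_eq_zero.1 h.symm with h' | h'
    · rw [h10, h']
    · exact absurd h' (F_ne z2)
  rcases eq_or_ne z2 0 with h20 | h20
  · rw [h20, zero_mul] at h
    rcases mul_eq_zero.1 h with h' | h'
    · rw [h20, h']
    · exact absurd h' (F_ne z1)
  have := star (L_diff hb hab) (fun z hz => ?_) h1 h2 h10 h20 (le_refl 1) ?_
  · rcases this with h' | h'
    · exact h'
    · exact absurd h'.2 (lt_irrefl _)
  · have hzn := mem_ball_zero_iff.1 hz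
    rw [zL hb hab hzn]
    have := P_re hb hab hzn
    simpa using this
  · rw [ofReal_one, one_mul]
    exact h.symm

end

end Pool.Agent.Y242.AC
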