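import Mathlib
import Pool.Agent.Y242.AC3
import Pool.Agent.Y242.AC8

set_option autoImplicit false
open Complex Metric Set Filter Topology

namespace Pool.Agent.Y242.AC

/-- the half plane Schwarz lemma -/
theorem half_schwarz {q : ℂ → ℂ} (hq : DifferentiableOn ℂ q (ball 0 1)) (h0 : q 0 = 1)
    (hp : ∀ z ∈ ball (0 : ℂ) 1, 0 < (q z).re) {z : ℂ} (hz : z ∈ ball (0 : ℂ) 1) :
    ‖q z - 1‖ ≤ ‖z‖ * ‖q z + 1‖ := by
  have hne : ∀ z ∈ ball (0 : ℂ) 1, q z + 1 ≠ 0 := by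
    intro z hz h
    have := hp z hz
    have h2 : (q z + 1).re = 0 := by rw [h]; rfl
    rw [add_re, one_re] at h2
    linarith
  have hle : ∀ z ∈ ball (0 : ℂ) 1, ‖q z - 1‖ ≤ ‖q z + 1‖ := by
    intro z hz
    have := hp z hz
    rw [← sq_le_sq₀ (norm_nonneg _) (norm_nonneg _), Complex.sq_norm, Complex.sq_norm, normSq_apply,
      normSq_apply]
    simp only [sub_re, sub_im, add_re, add_im, one_re, one_im]
    nlinarith
  have h := norm_le_norm_of_mapsTo_ball (f := fun z => (q z - 1) / (q z + 1)) (R := 1) (z := z)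
    ((hq.sub_const 1).div (hq.add_const 1) hne) ?_ (by simp [h0]) (mem_ball_zero_iff.1 hz)
  · rw [norm_div, div_le_iff₀ (norm_pos_iff.2 (hne z hz))] at h
    exact h
  · intro w hw
    rw [mem_closedBall_zero_iff, norm_div]
    exact div_le_one_of_le₀ (hle w hw) (norm_nonneg _)

section
variable {α b : ℝ} (hb : 1 < b) (hab : α * b = 1)
include hb hab

theorem K_slit {z : ℂ} (hz : ‖z‖ < 1) : K α z ∈ slitPlane := by
  have := K_re hb hab hz
  exact Or.inl (by linarith)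

theorem R_slit {z : ℂ} (hz : ‖z‖ < 1) : Rf α z ∈ slitPlane := Or.inl (R_re hb hab hz)

theorem logK_hasDerivAt {z : ℂ} (hz : ‖z‖ < 1) :
    HasDerivAt (fun z => log (K α z)) (deriv (K α) z / K α z) z :=
  (K_diffAt hb hab hz).hasDerivAt.clog (K_slit hb hab hz)

theorem R_diffAt {z : ℂ} (hz : ‖z‖ < 1) : DifferentiableAt ℂ (Rf α) z :=
  (R_hasDerivAt hb hab hz).differentiableAt

theorem logR_hasDerivAt {z : ℂ} (hz : ‖z‖ < 1) :
    HasDerivAt (fun z => log (Rf α z)) (deriv (Rf α) z / Rf α z) z :=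
  (R_diffAt hb hab hz).hasDerivAt.clog (R_slit hb hab hz)

theorem zKK {z : ℂ} (hz : ‖z‖ < 1) : 1 + z * (deriv (K α) z / K α z) = tf α b z := by
  have hK := K_ne hb hab hz
  have h := zK hb hab hz
  rw [tf]
  field_simp
  linear_combination h

theorem zRR {z : ℂ} (hz : ‖z‖ < 1) : z * (deriv (Rf α) z / Rf α z) = b * Pf α z - b * qq z := by
  have hR := R_ne hb hab hz
  have h := zR hb hab hz
  rw [Pf]
  field_simp
  linear_combination h

theorem zK_inj : InjOn (fun z => z * K α z) (ball 0 1) := by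
  intro z1 h1 z2 h2 h
  simp only at h
  have h1n := mem_ball_zero_iff.1 h1
  have h2n := mem_ball_zero_iff.1 h2
  rcases eq_or_ne z1 0 with h10 | h10
  · rw [h10, zero_mul] at h
    rcases mul_eq_zero.1 h.symm with h' | h'
    · rw [h10, h']
    · exact absurd h' (K_ne hb hab h2n)
  rcases eq_or_ne z2 0 with h20 | h20
  · rw [h20, zero_mul] at h
    rcases mul_eq_zero.1 h with h' | h'
    · rw [h20, h']
    · exact absurd h' (K_ne hb hab h1n)
  have := star (k := fun z => log (K α z)) (fun z hz => (logK_hasDerivAt hb hab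
    (mem_ball_zero_iff.1 hz)).differentiableAt.differentiableWithinAt) (fun z hz => ?_) h1 h2
    h10 h20 (le_refl 1) ?_
  · rcases this with h' | h'
    · exact h'
    · exact absurd h'.2 (lt_irrefl _)
  · have hzn := mem_ball_zero_iff.1 hz
    rw [(logK_hasDerivAt hb hab hzn).deriv, zKK hb hab hzn]
    have := t_re hb hab hzn
    linarith
  · rw [ofReal_one, one_mul, exp_log (K_ne hb hab h1n), exp_log (K_ne hb hab h2n)]
    exact h.symm

theorem Y_star {z1 z2 : ℂ} (h1 : z1 ∈ ball (0 : ℂ) 1) (h2 : z2 ∈ ball (0 : ℂ) 1) (h10 : z1 ≠ 0)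
    {κ : ℝ} (hκ : 1 ≤ κ) (h : Pf α z2 - 1 = κ * (Pf α z1 - 1)) : z1 = z2 ∨ ‖z1‖ < ‖z2‖ := by
  have h1n := mem_ball_zero_iff.1 h1
  have h2n := mem_ball_zero_iff.1 h2
  have hY : ∀ z : ℂ, ‖z‖ < 1 → Pf α z - 1 = z * exp (log (K α z) - log (Rf α z)) := by
    intro z hz
    have hR := R_ne hb hab hz
    rw [exp_sub, exp_log (K_ne hb hab hz), exp_log hR, Pf]
    have hRd : Rf α z = 1 - z * K α z := rfl
    field_simp
    rw [hRd]; ring
  have h20 : z2 ≠ 0 := by
    rintro rfl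
    rw [P_zero, sub_self, hY z1 h1n] at h
    have hκ0 : (κ : ℂ) ≠ 0 := by
      have : (κ : ℝ) ≠ 0 := by linarith
      exact_mod_cast this
    exact mul_ne_zero hκ0 (mul_ne_zero h10 (exp_ne_zero _)) h.symm
  rw [hY z1 h1n, hY z2 h2n] at h
  have hd : ∀ z : ℂ, ‖z‖ < 1 → HasDerivAt (fun z => log (K α z) - log (Rf α z))
      (deriv (K α) z / K α z - deriv (Rf α) z / Rf α z) z := fun z hz =>
    (logK_hasDerivAt hb hab hz).sub (logR_hasDerivAt hb hab hz)
  have := star (k := fun z => log (K α z) - log (Rf α z)) (fun z hz => (hd z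
    (mem_ball_zero_iff.1 hz)).differentiableAt.differentiableWithinAt) (fun z hz => ?_) h1 h2
    h10 h20 hκ h
  · rcases this with h' | h'
    · exact Or.inl h'
    · exact Or.inr h'.1
  · have hzn := mem_ball_zero_iff.1 hz
    have e : 1 + z * (deriv (K α) z / K α z - deriv (Rf α) z / Rf α z) = Pf α z * tf α b z := by
      have e1 := zKK hb hab hzn
      have e2 := zRR hb hab hzn
      have e3 := P_rel hb hab hzn
      linear_combination e1 - e2 - e3
    rw [(hd z hzn).deriv, e]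
    exact Sg_re hb hab hzn

/-- Briot–Bouquet subordination: `p + α z p'/p` of positive real part implies `p ≺ P`. -/
theorem bb {p : ℂ → ℂ} (hp : DifferentiableOn ℂ p (ball 0 1)) (hp0 : p 0 = 1)
    (hpn : ∀ z ∈ ball (0 : ℂ) 1, p z ≠ 0)
    (hq : ∀ z ∈ ball (0 : ℂ) 1, 0 < (p z + α * (z * deriv p z / p z)).re) :
    ∃ ω : ℂ → ℂ, DifferentiableOn ℂ ω (ball 0 1) ∧ (∀ z ∈ ball (0 : ℂ) 1, ‖ω z‖ ≤ ‖z‖) ∧
      ∀ z ∈ ball (0 : ℂ) 1, p z = Pf α (ω z) := by
  have hα := alpha_pos hb hab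
  have hab' : (α : ℂ) * b = 1 := by exact_mod_cast hab
  have hKd : DifferentiableOn ℂ (fun z => z * K α z) (ball 0 1) :=
    differentiableOn_id.mul (K_diff hα)
  have hpi : DifferentiableOn ℂ (fun z => 1 - (p z)⁻¹) (ball 0 1) := (hp.inv hpn).const_sub 1
  have hQd : DifferentiableOn ℂ (fun z => p z + α * (z * deriv p z / p z)) (ball 0 1) :=
    hp.add (((differentiableOn_id.mul (hp.deriv isOpen_ball)).div hp hpn).const_mul _)
  have hT : ∀ z ∈ ball (0 : ℂ) 1, ∀ ζ ∈ ball (0 : ℂ) 1, ∀ κ : ℝ, ‖z‖ < ‖ζ‖ → 1 ≤ κ →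
      (fun z => 1 - (p z)⁻¹) z = (fun z => z * K α z) ζ →
      z * deriv (fun z => 1 - (p z)⁻¹) z = κ * (ζ * deriv (fun z => z * K α z) ζ) → False := by
    intro z hz ζ hζ κ hlt hκ h1 h2
    have hzn := mem_ball_zero_iff.1 hz
    have hζn := mem_ball_zero_iff.1 hζ
    have hζ0 : 0 < ‖ζ‖ := (norm_nonneg z).trans_lt hlt
    simp only at h1
    have hpd : DifferentiableAt ℂ p z := hp.differentiableAt (isOpen_ball.mem_nhds hz)
    have hpz := hpn z hz
    have hd1 : HasDerivAt (fun z => 1 - (p z)⁻¹) (-(-deriv p z / p z ^ 2)) z :=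
      (hpd.hasDerivAt.inv hpz).const_sub 1
    have hRd : Rf α ζ = 1 - ζ * K α ζ := rfl
    have hd2 : ζ * deriv (fun z => z * K α z) ζ = -(ζ * deriv (Rf α) ζ) := by
      have e : HasDerivAt (fun z => z * K α z) (1 * K α ζ + ζ * deriv (K α) ζ) ζ :=
        (hasDerivAt_id ζ).mul (K_diffAt hb hab hζn).hasDerivAt
      rw [e.deriv, (R_hasDerivAt hb hab hζn).deriv]
      ring
    rw [hd1.deriv, hd2, zR hb hab hζn] at h2
    have hR : Rf α ζ = (p z)⁻¹ := by rw [hRd, ← h1]; ring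
    set q := qq ζ with hqdef
    set Q := p z + α * (z * deriv p z / p z) with hQ
    -- Q = κ q - (κ - 1) P
    have hPz : Pf α ζ = p z := by rw [Pf, hR, inv_inv]
    have hQe : Q = κ * q - (κ - 1) * Pf α ζ := by
      rw [hPz, hQ]
      rw [hR] at h2
      have h3 : z * deriv p z / p z = κ * (b * (q - p z)) := by
        field_simp at h2 ⊢
        linear_combination h2
      rw [h3]
      linear_combination (κ * (q - p z)) * hab'
    have hQs := half_schwarz hQd (by simp [hp0]) hq hz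
    have hPs := half_schwarz (P_diff hb hab) P_zero
      (fun z hz => P_re hb hab (mem_ball_zero_iff.1 hz)) hζ
    rw [← hQ] at hQs
    have hQre : 0 < Q.re := hq z hz
    have hqs : ‖q - 1‖ = ‖ζ‖ * ‖q + 1‖ := by rw [← norm_mul, z_qq hζn]
    have hQ1 : 0 < ‖Q + 1‖ := by
      rw [norm_pos_iff]
      intro h
      have h2 : (Q + 1).re = 0 := by rw [h]; rfl
      rw [add_re, one_re] at h2
      linarith
    have hQs' : ‖Q - 1‖ < ‖ζ‖ * ‖Q + 1‖ := hQs.trans_lt (mul_lt_mul_of_pos_right hlt hQ1)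
    -- convexity
    have conv : ∀ w : ℂ, ‖w - 1‖ ^ 2 - ‖ζ‖ ^ 2 * ‖w + 1‖ ^ 2 =
        (1 - ‖ζ‖ ^ 2) * (w.re ^ 2 + w.im ^ 2) - 2 * (1 + ‖ζ‖ ^ 2) * w.re + (1 - ‖ζ‖ ^ 2) := by
      intro w
      rw [Complex.sq_norm (w - 1), Complex.sq_norm (w + 1), normSq_apply (w - 1),
        normSq_apply (w + 1)]
      simp only [sub_re, sub_im, add_re, add_im, one_re, one_im]
      ring
    have e1 : ‖Q - 1‖ ^ 2 - ‖ζ‖ ^ 2 * ‖Q + 1‖ ^ 2 < 0 := by
      have := pow_lt_pow_left₀ hQs' (norm_nonneg _) two_ne_zero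
      rw [mul_pow] at this
      linarith
    have e2 : ‖q - 1‖ ^ 2 - ‖ζ‖ ^ 2 * ‖q + 1‖ ^ 2 = 0 := by
      rw [hqs, mul_pow, sub_self]
    have e3 : ‖Pf α ζ - 1‖ ^ 2 - ‖ζ‖ ^ 2 * ‖Pf α ζ + 1‖ ^ 2 ≤ 0 := by
      have := pow_le_pow_left₀ (norm_nonneg _) hPs 2
      rw [mul_pow] at this
      linarith
    rw [conv] at e1 e2 e3
    set P := Pf α ζ
    have hr : Q.re + (κ - 1) * P.re = κ * q.re := by rw [hQe]; simp
    have hi : Q.im + (κ - 1) * P.im = κ * q.im := by rw [hQe]; simp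
    set c := 1 - ‖ζ‖ ^ 2 with hc
    have hc0 : 0 < c := by rw [hc]; nlinarith
    have hκ0 : 0 < κ := by linarith
    -- κ Φ(q) ≤ Φ(Q) + (κ-1) Φ(P)
    have key : κ * (κ * (c * (q.re ^ 2 + q.im ^ 2))) ≤
        κ * (c * (Q.re ^ 2 + Q.im ^ 2) + (κ - 1) * (c * (P.re ^ 2 + P.im ^ 2))) := by
      have e4 : κ * (c * (Q.re ^ 2 + Q.im ^ 2) + (κ - 1) * (c * (P.re ^ 2 + P.im ^ 2))) -
          κ * (κ * (c * (q.re ^ 2 + q.im ^ 2))) =
          c * (κ - 1) * ((Q.re - P.re) ^ 2 + (Q.im - P.im) ^ 2) := by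
        have e5 : κ * (κ * (c * (q.re ^ 2 + q.im ^ 2))) = c * ((κ * q.re) ^ 2 + (κ * q.im) ^ 2) := by
          ring
        rw [e5, ← hr, ← hi]
        ring
      have e6 : 0 ≤ c * (κ - 1) * ((Q.re - P.re) ^ 2 + (Q.im - P.im) ^ 2) := by
        have : 0 ≤ κ - 1 := by linarith
        positivity
      linarith
    have key2 := le_of_mul_le_mul_left key hκ0
    have e7 := mul_nonneg (by linarith : (0 : ℝ) ≤ κ - 1) (neg_nonneg.2 e3)
    nlinarith
  obtain ⟨ω, hω1, hω2, hω3⟩ := sub hKd (zK_inj hb hab) (by simp) hpi (by simp [hp0]) hT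
  refine ⟨ω, hω1, hω2, fun z hz => ?_⟩
  have h := hω3 z hz
  rw [Pf, Rf, h, sub_sub_cancel, inv_inv]

/-- `log p`-type subordination: if `z ℓ' = p - 1` with `p ≺ P` then `ℓ ≺ L`. -/
theorem sub2 {ℓ ω₁ : ℂ → ℂ} (hℓ : DifferentiableOn ℂ ℓ (ball 0 1)) (hℓ0 : ℓ 0 = 0)
    (hω2 : ∀ z ∈ ball (0 : ℂ) 1, ‖ω₁ z‖ ≤ ‖z‖)
    (h : ∀ z ∈ ball (0 : ℂ) 1, z * deriv ℓ z = Pf α (ω₁ z) - 1) :
    ∃ ω : ℂ → ℂ, DifferentiableOn ℂ ω (ball 0 1) ∧ (∀ z ∈ ball (0 : ℂ) 1, ‖ω z‖ ≤ ‖z‖) ∧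
      ∀ z ∈ ball (0 : ℂ) 1, Lf α (ω z) = ℓ z := by
  refine sub (L_diff hb hab) (L_inj hb hab) (L_zero hb hab) hℓ hℓ0 ?_
  intro z hz ζ hζ κ hlt hκ _ h2
  have hζn := mem_ball_zero_iff.1 hζ
  rw [h z hz, zL hb hab hζn] at h2
  have hζ0 : ζ ≠ 0 := norm_pos_iff.1 ((norm_nonneg z).trans_lt hlt)
  have h3 := hω2 z hz
  have hωz : ω₁ z ∈ ball (0 : ℂ) 1 := mem_ball_zero_iff.2 (h3.trans_lt (mem_ball_zero_iff.1 hz))
  rcases Y_star hb hab hζ hωz hζ0 hκ h2 with h4 | h4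
  · rw [← h4] at h3; linarith
  · linarith

end

/-- The class `M(α)` of α-convex functions. -/
def AlphaConvex (α : ℝ) (f : ℂ → ℂ) : Prop :=
  DifferentiableOn ℂ f (ball 0 1) ∧ InjOn f (ball 0 1) ∧ f 0 = 0 ∧ deriv f 0 = 1 ∧
  ∀ z ∈ ball (0 : ℂ) 1, z ≠ 0 →
    0 < (α * (1 + z * deriv (deriv f) z / deriv f z) + (1 - α) * (z * deriv f z / f z)).re

section
variable {α b : ℝ} (hb : 1 < b) (hab : α * b = 1)
include hb hab

theorem main_sub {f : ℂ → ℂ} (hf : AlphaConvex α f) :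
    ∃ ω : ℂ → ℂ, DifferentiableOn ℂ ω (ball 0 1) ∧ (∀ z ∈ ball (0 : ℂ) 1, ‖ω z‖ ≤ ‖z‖) ∧
      ∀ z ∈ ball (0 : ℂ) 1, f z = z * Ff α (ω z) := by
  obtain ⟨hfd, hfi, hf0, hf1, hre⟩ := hf
  have h0b : (0 : ℂ) ∈ ball (0 : ℂ) 1 := mem_ball_self one_pos
  set g := dslope f 0 with hg
  have hgd : DifferentiableOn ℂ g (ball 0 1) :=
    (differentiableOn_dslope (isOpen_ball.mem_nhds h0b)).2 hfd
  have hzg : ∀ z, z * g z = f z := by
    intro z
    have := sub_smul_dslope f 0 z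
    rw [sub_zero, hf0, sub_zero, smul_eq_mul] at this
    exact this
  have hg0 : g 0 = 1 := by rw [hg, dslope_same, hf1]
  have hgn : ∀ z ∈ ball (0 : ℂ) 1, g z ≠ 0 := by
    intro z hz h
    rcases eq_or_ne z 0 with h' | h'
    · rw [h', hg0] at h; exact one_ne_zero h
    · have h1 := hzg z
      rw [h, mul_zero] at h1
      have := hfi hz h0b (by rw [← h1, hf0])
      exact h' this
  have hf'n : ∀ z ∈ ball (0 : ℂ) 1, deriv f z ≠ 0 := fun z hz => gderiv_ne hfd hfi hz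
  have hf'd : DifferentiableOn ℂ (deriv f) (ball 0 1) := hfd.deriv isOpen_ball
  have hf' : ∀ z ∈ ball (0 : ℂ) 1, deriv f z = g z + z * deriv g z := by
    intro z hz
    have h1 : HasDerivAt (fun z => z * g z) (1 * g z + z * deriv g z) z :=
      (hasDerivAt_id z).mul (hgd.differentiableAt (isOpen_ball.mem_nhds hz)).hasDerivAt
    have h2 : (fun z => z * g z) = f := funext hzg
    rw [h2] at h1
    rw [h1.deriv, one_mul]
  set p := fun z => deriv f z / g z with hp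
  have hpd : DifferentiableOn ℂ p (ball 0 1) := hf'd.div hgd hgn
  have hp0 : p 0 = 1 := by
    simp only [hp]
    rw [hf1, hg0, div_one]
  have hpn : ∀ z ∈ ball (0 : ℂ) 1, p z ≠ 0 := fun z hz => div_ne_zero (hf'n z hz) (hgn z hz)
  have hqp : ∀ z ∈ ball (0 : ℂ) 1, 0 < (p z + α * (z * deriv p z / p z)).re := by
    intro z hz
    rcases eq_or_ne z 0 with h0 | h0
    · rw [h0, hp0]; simp
    · have h := hre z hz h0
      have hgz := hgn z hz
      have hfz' := hf'n z hz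
      have hpd : HasDerivAt p ((deriv (deriv f) z * g z - deriv f z * deriv g z) / (g z) ^ 2) z :=
        (hf'd.differentiableAt (isOpen_ball.mem_nhds hz)).hasDerivAt.div
          (hgd.differentiableAt (isOpen_ball.mem_nhds hz)).hasDerivAt hgz
      have e : p z + α * (z * deriv p z / p z) =
          α * (1 + z * deriv (deriv f) z / deriv f z) + (1 - α) * (z * deriv f z / f z) := by
        rw [hpd.deriv, ← hzg z]
        simp only [hp]
        have e1 := hf' z hz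
        have e2 : z * deriv g z = deriv f z - g z := by rw [e1]; ring
        field_simp
        linear_combination (-α * deriv f z) * e2
      rw [e]; exact h
  obtain ⟨ω₁, _, hω2, hω3⟩ := bb hb hab hpd hp0 hpn hqp
  -- the logarithm of g
  have hqd : DifferentiableOn ℂ (fun z => deriv g z / g z) (ball 0 1) :=
    (hgd.deriv isOpen_ball).div hgd hgn
  obtain ⟨ℓ, hℓ0, hℓ⟩ := IsExactOn.with_val_at hqd.isExactOn_ball 0 0
  have hℓd : DifferentiableOn ℂ ℓ (ball 0 1) := fun z hz =>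
    (hℓ z hz).differentiableAt.differentiableWithinAt
  have hexp : ∀ z ∈ ball (0 : ℂ) 1, exp (ℓ z) = g z := by
    intro z hz
    have hd : ∀ w ∈ ball (0 : ℂ) 1, HasDerivAt (fun w => g w * exp (-ℓ w)) 0 w := by
      intro w hw
      have h1 := (hgd.differentiableAt (isOpen_ball.mem_nhds hw)).hasDerivAt.mul
        ((hℓ w hw).neg.cexp)
      refine h1.congr_deriv ?_
      have := hgn w hw
      simp only [Pi.neg_apply]
      field_simp
      ring
    have hcon : (fun w => g w * exp (-ℓ w)) z = (fun w => g w * exp (-ℓ w)) 0 := by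
      apply IsOpen.is_const_of_deriv_eq_zero isOpen_ball (convex_ball _ _).isPreconnected
        (fun w hw => (hd w hw).differentiableAt.differentiableWithinAt)
        (fun w hw => (hd w hw).deriv) hz h0b
    simp only at hcon
    rw [hℓ0, hg0, neg_zero, exp_zero, mul_one, exp_neg] at hcon
    have := exp_ne_zero (ℓ z)
    field_simp at hcon
    exact hcon.symm
  obtain ⟨ω, h1, h2, h3⟩ := sub2 hb hab hℓd hℓ0 hω2 (fun z hz => by
    rw [(hℓ z hz).deriv, ← hω3 z hz]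
    have := hgn z hz
    simp only [hp]
    rw [hf' z hz]
    field_simp
    ring)
  refine ⟨ω, h1, h2, fun z hz => ?_⟩
  rw [Ff, h3 z hz, hexp z hz, hzg]

end

end Pool.Agent.Y242.AC
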