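import Mathlib
import Pool.Agent.Y242.AC9
import Pool.Agent.Y242.AC14

set_option autoImplicit false
open Complex Metric Set Filter Topology

namespace Pool.Agent.Y242.AC

/-- `n`-th Taylor coefficient -/
noncomputable def tc (n : ℕ) (g : ℂ → ℂ) : ℂ := iteratedDeriv n g 0 / n.factorial

theorem tc_congr {f g : ℂ → ℂ} (h : ∀ z ∈ ball (0 : ℂ) 1, f z = g z) (n : ℕ) : tc n f = tc n g := by
  have h1 : f =ᶠ[𝓝 0] g := by
    filter_upwards [isOpen_ball.mem_nhds (mem_ball_self one_pos)] with z hz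
    exact h z hz
  rw [tc, tc, (h1.iteratedDeriv n).self_of_nhds]

theorem tc_mul {f g : ℂ → ℂ} (hf : DifferentiableOn ℂ f (ball 0 1))
    (hg : DifferentiableOn ℂ g (ball 0 1)) (n : ℕ) :
    tc n (fun z => f z * g z) = ∑ i ∈ Finset.range (n + 1), tc i f * tc (n - i) g := by
  rw [tc, iteratedDeriv_fun_mul (contDiffAt_zero hf) (contDiffAt_zero hg), Finset.sum_div]
  apply Finset.sum_congr rfl
  intro i hi
  have hi' : i ≤ n := Nat.lt_succ_iff.1 (Finset.mem_range.1 hi)
  rw [tc, tc]
  have h1 : (n.choose i : ℂ) * i.factorial * (n - i).factorial = n.factorial := by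
    exact_mod_cast Nat.choose_mul_factorial_mul_factorial hi'
  have h2 : (n.factorial : ℂ) ≠ 0 := by exact_mod_cast n.factorial_ne_zero
  have h3 : (i.factorial : ℂ) ≠ 0 := by exact_mod_cast i.factorial_ne_zero
  have h4 : ((n - i).factorial : ℂ) ≠ 0 := by exact_mod_cast (n - i).factorial_ne_zero
  rw [div_eq_iff h2, ← h1]
  field_simp

theorem tc_const_mul (c : ℂ) (f : ℂ → ℂ) (n : ℕ) : tc n (fun z => c * f z) = c * tc n f := by
  rw [tc, tc, iteratedDeriv_const_mul_field, mul_div_assoc]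

theorem tc_add {f g : ℂ → ℂ} (hf : DifferentiableOn ℂ f (ball 0 1))
    (hg : DifferentiableOn ℂ g (ball 0 1)) (n : ℕ) :
    tc n (fun z => f z + g z) = tc n f + tc n g := by
  rw [tc, tc, tc, iteratedDeriv_fun_add (contDiffAt_zero hf) (contDiffAt_zero hg), add_div]

theorem tc_one_zero : tc 0 (fun _ => (1 : ℂ)) = 1 := by simp [tc]

theorem tc_one_succ (n : ℕ) : tc (n + 1) (fun _ => (1 : ℂ)) = 0 := by
  simp [tc, iteratedDeriv_const]

theorem tc_zero (g : ℂ → ℂ) : tc 0 g = g 0 := by simp [tc]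

theorem tc_id (n : ℕ) : tc n (fun z => z) = if n = 1 then 1 else 0 := by
  rw [tc, iteratedDeriv_fun_id_zero]
  split_ifs with h
  · rw [h]; simp
  · simp

theorem tc_z_mul {g : ℂ → ℂ} (hg : DifferentiableOn ℂ g (ball 0 1)) (n : ℕ) :
    tc (n + 1) (fun z => z * g z) = tc n g := by
  rw [tc_mul (f := fun z => z) (g := g) differentiableOn_id hg, Finset.sum_eq_single 1]
  · have := tc_id 1
    simp only [if_true] at this
    rw [this]; simp
  · intro i _ hi
    have := tc_id i
    rw [if_neg hi] at this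
    rw [this, zero_mul]
  · intro h
    exact absurd (Finset.mem_range.2 (by omega)) h

theorem tc_deriv (g : ℂ → ℂ) (n : ℕ) : tc n (deriv g) = (n + 1) * tc (n + 1) g := by
  rw [tc, tc, iteratedDeriv_succ']
  have h2 : (n.factorial : ℂ) ≠ 0 := by exact_mod_cast n.factorial_ne_zero
  have h3 : (n + 1 : ℂ) ≠ 0 := by exact_mod_cast Nat.succ_ne_zero n
  rw [Nat.factorial_succ]
  push_cast
  field_simp

theorem tc_zderiv {g : ℂ → ℂ} (hg : DifferentiableOn ℂ g (ball 0 1)) (n : ℕ) :
    tc n (fun z => z * deriv g z) = n * tc n g := by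
  rcases n with _ | n
  · simp [tc_zero]
  · rw [tc_z_mul (hg.deriv isOpen_ball), tc_deriv]
    push_cast
    ring

theorem qq_diff : DifferentiableOn ℂ qq (ball 0 1) := fun _ hz =>
  (qq_hasDerivAt (mem_ball_zero_iff.1 hz)).differentiableAt.differentiableWithinAt

theorem tc_qq_zero : tc 0 qq = 1 := by rw [tc_zero, qq_zero]

theorem tc_qq (n : ℕ) : tc (n + 1) qq = 2 := by
  have h : ∀ n : ℕ, tc (n + 1) qq = tc n qq + tc n (fun _ => (1 : ℂ)) := by
    intro n
    have h1 : ∀ z ∈ ball (0 : ℂ) 1, qq z = 1 + z * (qq z + 1) := by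
      intro z hz
      have := z_qq (mem_ball_zero_iff.1 hz)
      rw [this]; ring
    have hd : DifferentiableOn ℂ (fun z => qq z + 1) (ball 0 1) := qq_diff.add_const 1
    rw [tc_congr h1 (n + 1), tc_add (f := fun _ => (1 : ℂ)) (g := fun z => z * (qq z + 1))
      (differentiableOn_const 1) (differentiableOn_id.mul hd),
      tc_one_succ, zero_add, tc_z_mul hd, tc_add (f := qq) (g := fun _ => (1 : ℂ)) qq_diff
      (differentiableOn_const 1)]
  induction n with
  | zero => rw [h 0, tc_qq_zero, tc_one_zero]; norm_num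
  | succ n ih => rw [h (n + 1), ih, tc_one_succ, add_zero]

/-- the half-plane function is a convex majorant -/
theorem qq_conv : Conv (fun z => 2 / (1 - z)) 1 2 where
  diff := by
    refine DifferentiableOn.div (by fun_prop) (by fun_prop) ?_
    intro z hz
    exact one_sub_ne (mem_ball_zero_iff.1 hz)
  b0 := zero_le_one
  bound := by
    intro z hz
    rw [norm_div]
    simp
  re := by
    intro z hz
    have h := one_sub_ne hz
    have e : 1 + z * (2 / (1 - z)) = qq z := by
      rw [qq]; field_simp; ring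
    rw [e, qq_re, one_mul]

theorem qq_deriv2 : ∀ w ∈ ball (0 : ℂ) 1, deriv (deriv qq) w = 2 / (1 - w) * deriv qq w := by
  intro w hw
  have hwn := mem_ball_zero_iff.1 hw
  have h := one_sub_ne hwn
  have h1 : deriv qq =ᶠ[𝓝 w] fun z => 2 / (1 - z) ^ 2 := by
    filter_upwards [isOpen_ball.mem_nhds hw] with z hz
    exact (qq_hasDerivAt (mem_ball_zero_iff.1 hz)).deriv
  have h2 : HasDerivAt (fun z : ℂ => 2 / (1 - z) ^ 2) (4 / (1 - w) ^ 3) w := by
    have h3 : HasDerivAt (fun z : ℂ => (1 - z) ^ 2) (((2 : ℕ) : ℂ) * (1 - w) ^ (2 - 1) * -1) w :=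
      ((hasDerivAt_id w).const_sub 1).pow 2
    have h4 : HasDerivAt (fun z : ℂ => 2 / (1 - z) ^ 2) _ w :=
      (hasDerivAt_const w (2 : ℂ)).div h3 (pow_ne_zero 2 h)
    refine h4.congr_deriv ?_
    push_cast
    field_simp
    ring
  rw [h1.deriv_eq, h2.deriv, (qq_hasDerivAt hwn).deriv]
  field_simp
  ring

theorem carath {p : ℂ → ℂ} (hp : DifferentiableOn ℂ p (ball 0 1)) (h0 : p 0 = 1)
    (hre : ∀ z ∈ ball (0 : ℂ) 1, 0 < (p z).re) (n : ℕ) : ‖tc (n + 1) p‖ ≤ 2 := by
  have hne : ∀ z ∈ ball (0 : ℂ) 1, p z + 1 ≠ 0 := by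
    intro z hz h
    have := hre z hz
    have h2 : (p z + 1).re = 0 := by rw [h]; rfl
    rw [add_re, one_re] at h2
    linarith
  set ω : ℂ → ℂ := fun z => (p z - 1) / (p z + 1) with hω
  have hωd : DifferentiableOn ℂ ω (ball 0 1) := (hp.sub_const 1).div (hp.add_const 1) hne
  have hω1 : ∀ z ∈ ball (0 : ℂ) 1, ‖ω z‖ ≤ ‖z‖ := by
    intro z hz
    have := half_schwarz hp h0 hre hz
    simp only [hω]
    rw [norm_div, div_le_iff₀ (norm_pos_iff.2 (hne z hz))]
    exact this
  have h := dom qq_conv qq_diff qq_deriv2 (n + 1) hωd hω1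
  have e : tc (n + 1) (fun z => qq (ω z)) = tc (n + 1) p := by
    apply tc_congr
    intro z hz
    have h1 := hne z hz
    simp only [hω]
    rw [qq]
    have h2 : 1 - (p z - 1) / (p z + 1) = 2 / (p z + 1) := by field_simp; ring
    have h3 : 1 + (p z - 1) / (p z + 1) = 2 * p z / (p z + 1) := by field_simp; ring
    rw [h2, h3]
    field_simp
  have h5 : (0 : ℝ) < (n + 1).factorial := by exact_mod_cast (n + 1).factorial_pos
  have h6 : ‖tc (n + 1) qq‖ = 2 := by rw [tc_qq]; simp
  rw [← e, ← h6, tc, tc, norm_div, norm_div]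
  exact div_le_div_of_nonneg_right h (norm_nonneg _)

section
variable {α b : ℝ} (hb : 1 < b) (hab : α * b = 1)
include hb hab

theorem P_rec (m : ℕ) : (1 + α * (m + 1)) * tc (m + 1) (Pf α) =
    2 + ∑ i ∈ Finset.range m, (2 - tc (i + 1) (Pf α)) * tc (m - i) (Pf α) := by
  have hab' : (α : ℂ) * b = 1 := by exact_mod_cast hab
  have hPd := P_diff hb hab
  have h1 : ∀ z ∈ ball (0 : ℂ) 1, (α : ℂ) * (z * deriv (Pf α) z) +
      Pf α z * Pf α z = qq z * Pf α z := by
    intro z hz
    rw [zP hb hab (mem_ball_zero_iff.1 hz)]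
    linear_combination (Pf α z * (qq z - Pf α z)) * hab'
  have h2 := tc_congr (f := fun z => (α : ℂ) * (z * deriv (Pf α) z) + Pf α z * Pf α z)
    (g := fun z => qq z * Pf α z) h1 (m + 1)
  have hzd : DifferentiableOn ℂ (fun z => z * deriv (Pf α) z) (ball 0 1) :=
    differentiableOn_id.mul (hPd.deriv isOpen_ball)
  rw [tc_add (f := fun z => (α : ℂ) * (z * deriv (Pf α) z)) (g := fun z => Pf α z * Pf α z)
    (hzd.const_mul _) (hPd.mul hPd), tc_const_mul, tc_zderiv hPd, tc_mul hPd hPd,
    tc_mul qq_diff hPd] at h2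
  rw [Finset.sum_range_succ, Finset.sum_range_succ', Finset.sum_range_succ,
    Finset.sum_range_succ'] at h2
  simp only [Nat.sub_zero, Nat.sub_self, tc_qq_zero, tc_qq, tc_zero, P_zero, qq_zero,
    Nat.add_sub_add_right] at h2
  have h3 : ∑ i ∈ Finset.range m, (2 - tc (i + 1) (Pf α)) * tc (m - i) (Pf α) =
      ∑ i ∈ Finset.range m, 2 * tc (m - i) (Pf α) -
      ∑ i ∈ Finset.range m, tc (i + 1) (Pf α) * tc (m - i) (Pf α) := by
    rw [← Finset.sum_sub_distrib]
    apply Finset.sum_congr rfl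
    intro i _
    ring
  rw [h3]
  push_cast at h2
  linear_combination h2

theorem P_pos (n : ℕ) : ∃ x : ℝ, tc n (Pf α) = x ∧ 0 < x ∧ x ≤ 2 := by
  have hα := alpha_pos hb hab
  induction n using Nat.strong_induction_on with
  | _ n ih =>
    rcases n with _ | m
    · refine ⟨1, ?_, one_pos, by norm_num⟩
      rw [tc_zero, P_zero]; simp
    · have hre : ∀ z ∈ ball (0 : ℂ) 1, 0 < (Pf α z).re := fun z hz =>
        P_re hb hab (mem_ball_zero_iff.1 hz)
      have hc := carath (P_diff hb hab) P_zero hre m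
      have hrec := P_rec hb hab m
      choose! x hx hx0 hx2 using ih
      have hsum : ∑ i ∈ Finset.range m, (2 - tc (i + 1) (Pf α)) * tc (m - i) (Pf α) =
          ((∑ i ∈ Finset.range m, (2 - x (i + 1)) * x (m - i) : ℝ) : ℂ) := by
        push_cast
        apply Finset.sum_congr rfl
        intro i hi
        have := Finset.mem_range.1 hi
        rw [hx (i + 1) (by omega), hx (m - i) (by omega)]
      have hs0 : 0 ≤ ∑ i ∈ Finset.range m, (2 - x (i + 1)) * x (m - i) := by
        apply Finset.sum_nonneg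
        intro i hi
        have := Finset.mem_range.1 hi
        exact mul_nonneg (by linarith [hx2 (i + 1) (by omega)]) (hx0 (m - i) (by omega)).le
      rw [hsum] at hrec
      set S := ∑ i ∈ Finset.range m, (2 - x (i + 1)) * x (m - i)
      have hd : 0 < 1 + α * (m + 1) := by positivity
      have e : tc (m + 1) (Pf α) = (((2 + S) / (1 + α * (m + 1)) : ℝ) : ℂ) := by
        have hd' : (1 + α * (m + 1) : ℂ) ≠ 0 := by exact_mod_cast hd.ne'
        push_cast
        rw [eq_div_iff hd', mul_comm]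
        exact hrec
      refine ⟨(2 + S) / (1 + α * (m + 1)), e, by positivity, ?_⟩
      rw [e, norm_real] at hc
      exact (le_abs_self _).trans hc

theorem F_rec (m : ℕ) : (m + 1) * tc (m + 1) (Ff α) =
    ∑ i ∈ Finset.range (m + 1), tc (i + 1) (Pf α) * tc (m - i) (Ff α) := by
  have hPd := P_diff hb hab
  have hFd := F_diff hb hab
  have h1 : ∀ z ∈ ball (0 : ℂ) 1, (fun z => z * deriv (Ff α) z) z + Ff α z =
      (fun z => Pf α z * Ff α z) z := by
    intro z hz
    have hzn := mem_ball_zero_iff.1 hz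
    have h2 := zL hb hab hzn
    simp only
    rw [(L_hasDerivAt hb hab hzn).deriv] at h2
    rw [(F_hasDerivAt hb hab hzn).deriv]
    linear_combination (Ff α z) * h2
  have h2 := tc_congr h1 (m + 1)
  have hzd : DifferentiableOn ℂ (fun z => z * deriv (Ff α) z) (ball 0 1) :=
    differentiableOn_id.mul (hFd.deriv isOpen_ball)
  rw [tc_add hzd hFd, tc_zderiv hFd, tc_mul hPd hFd, Finset.sum_range_succ'] at h2
  simp only [Nat.sub_zero, tc_zero, P_zero, Nat.add_sub_add_right] at h2
  push_cast at h2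
  linear_combination h2

theorem F_pos (n : ℕ) : ∃ x : ℝ, tc n (Ff α) = x ∧ 0 < x := by
  induction n using Nat.strong_induction_on with
  | _ n ih =>
    rcases n with _ | m
    · refine ⟨1, ?_, one_pos⟩
      rw [tc_zero, F_zero hb hab]; simp
    · have hrec := F_rec hb hab m
      choose! x hx hx0 using ih
      choose p hp hp0 hp2 using P_pos hb hab
      have hsum : ∑ i ∈ Finset.range (m + 1), tc (i + 1) (Pf α) * tc (m - i) (Ff α) =
          ((∑ i ∈ Finset.range (m + 1), p (i + 1) * x (m - i) : ℝ) : ℂ) := by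
        push_cast
        apply Finset.sum_congr rfl
        intro i hi
        rw [hp (i + 1), hx (m - i) (by omega)]
      have hs0 : 0 < ∑ i ∈ Finset.range (m + 1), p (i + 1) * x (m - i) := by
        apply Finset.sum_pos
        · intro i hi
          exact mul_pos (hp0 _) (hx0 (m - i) (by omega))
        · exact ⟨0, Finset.mem_range.2 (by omega)⟩
      rw [hsum] at hrec
      set S := ∑ i ∈ Finset.range (m + 1), p (i + 1) * x (m - i)
      have hd : (0 : ℝ) < m + 1 := by positivity
      have e : tc (m + 1) (Ff α) = ((S / (m + 1) : ℝ) : ℂ) := by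
        have hd' : (m + 1 : ℂ) ≠ 0 := by exact_mod_cast hd.ne'
        push_cast
        rw [eq_div_iff hd', mul_comm]
        exact hrec
      exact ⟨_, e, by positivity⟩

end

/-- `g_k = (2/α)_k / (k! (1 + k α))` -/
noncomputable def gcoef (α : ℝ) (k : ℕ) : ℝ :=
  (∏ j ∈ Finset.range k, (2 / α + j)) / (k.factorial * (1 + k * α))

section
variable {α b : ℝ} (hb : 1 < b) (hab : α * b = 1)
include hb hab

theorem G_hasDerivAt {z : ℂ} (hz : ‖z‖ < 1) :
    HasDerivAt (fun z => exp (b * Lf α z)) (exp (b * Lf α z) * (b * (K α z / Rf α z))) z :=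
  ((L_hasDerivAt hb hab hz).const_mul (b : ℂ)).cexp

theorem G_diff : DifferentiableOn ℂ (fun z => exp (b * Lf α z)) (ball 0 1) := fun _ hz =>
  (G_hasDerivAt hb hab (mem_ball_zero_iff.1 hz)).differentiableAt.differentiableWithinAt

theorem zG {z : ℂ} (hz : ‖z‖ < 1) : z * deriv (fun z => exp (b * Lf α z)) z =
    b * (Pf α z - 1) * exp (b * Lf α z) := by
  have h2 := zL hb hab hz
  rw [(L_hasDerivAt hb hab hz).deriv] at h2
  rw [(G_hasDerivAt hb hab hz).deriv]
  linear_combination (b * exp (b * Lf α z)) * h2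

/-- `U = G P = (1 - z)^{-2b}` -/
theorem U_rec (m : ℕ) : (m + 1) * tc (m + 1) (fun z => exp (b * Lf α z) * Pf α z) =
    (2 * b + m) * tc m (fun z => exp (b * Lf α z) * Pf α z) := by
  have hPd := P_diff hb hab
  have hGd := G_diff hb hab
  set U : ℂ → ℂ := fun z => exp (b * Lf α z) * Pf α z with hU
  have hUd : DifferentiableOn ℂ U (ball 0 1) := hGd.mul hPd
  have h1 : ∀ z ∈ ball (0 : ℂ) 1, (fun z => z * deriv U z) z =
      (fun z => z * (b * ((qq z + 1) * U z))) z := by
    intro z hz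
    have hzn := mem_ball_zero_iff.1 hz
    simp only
    have hd : HasDerivAt U _ z := (G_hasDerivAt hb hab hzn).mul (P_hasDerivAt hb hab hzn)
    have e1 := zG hb hab hzn
    have e2 := zP hb hab hzn
    have e3 := z_qq hzn
    rw [(G_hasDerivAt hb hab hzn).deriv] at e1
    rw [(P_hasDerivAt hb hab hzn).deriv] at e2
    rw [hd.deriv]
    simp only [hU]
    linear_combination (Pf α z) * e1 + (exp (b * Lf α z)) * e2 -
      (b * (exp (b * Lf α z) * Pf α z)) * e3
  have hq1 : DifferentiableOn ℂ (fun z => qq z + 1) (ball 0 1) := qq_diff.add_const 1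
  have tq : ∀ n : ℕ, tc n (fun z => qq z + 1) = 2 := by
    intro n
    rw [tc_add qq_diff (differentiableOn_const 1)]
    rcases n with _ | n
    · rw [tc_qq_zero, tc_one_zero]; norm_num
    · rw [tc_qq, tc_one_succ, add_zero]
  have key : ∀ n : ℕ, (n + 1) * tc (n + 1) U = b * ∑ i ∈ Finset.range (n + 1), 2 * tc (n - i) U := by
    intro n
    have h2 := tc_congr h1 (n + 1)
    rw [tc_zderiv hUd, tc_z_mul (g := fun z => b * ((qq z + 1) * U z))
      ((hq1.mul hUd).const_mul _), tc_const_mul, tc_mul (f := fun z => qq z + 1) hq1 hUd] at h2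
    simp only [tq] at h2
    push_cast at h2
    exact h2
  rcases m with _ | m
  · have := key 0
    simp at this
    simp only [Nat.cast_zero, zero_add, add_zero, one_mul]
    rw [this]; ring
  · have k1 := key (m + 1)
    have k0 := key m
    rw [Finset.sum_range_succ'] at k1
    simp only [Nat.sub_zero, Nat.add_sub_add_right] at k1
    push_cast at k1 ⊢
    linear_combination k1 - k0

theorem U_coef (k : ℕ) : tc k (fun z => exp (b * Lf α z) * Pf α z) =
    (((∏ j ∈ Finset.range k, (2 / α + j)) / k.factorial : ℝ) : ℂ) := by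
  have hα := alpha_pos hb hab
  have hb2 : 2 / α = 2 * b := by
    rw [div_eq_iff hα.ne']; linear_combination -2 * hab
  induction k with
  | zero => rw [tc_zero, L_zero hb hab, P_zero]; simp
  | succ k ih =>
    have h := U_rec hb hab k
    rw [ih] at h
    have h1 : (k + 1 : ℂ) ≠ 0 := by exact_mod_cast Nat.succ_ne_zero k
    have h2 : (k.factorial : ℂ) ≠ 0 := by exact_mod_cast k.factorial_ne_zero
    rw [Finset.prod_range_succ, Nat.factorial_succ, hb2] at *
    push_cast at h ⊢
    apply mul_left_cancel₀ h1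
    rw [h]
    field_simp

theorem G_coef (k : ℕ) : tc k (fun z => exp (b * Lf α z)) = (gcoef α k : ℂ) := by
  have hα := alpha_pos hb hab
  have hab' : (α : ℂ) * b = 1 := by exact_mod_cast hab
  have hPd := P_diff hb hab
  have hGd := G_diff hb hab
  have h1 : ∀ z ∈ ball (0 : ℂ) 1, (fun z => z * deriv (fun z => exp (b * Lf α z)) z) z +
      (fun z => b * exp (b * Lf α z)) z =
      (fun z => b * (exp (b * Lf α z) * Pf α z)) z := by
    intro z hz
    have hzn := mem_ball_zero_iff.1 hz
    simp only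
    rw [zG hb hab hzn]; ring
  have h2 := tc_congr h1 k
  have hzd : DifferentiableOn ℂ (fun z => z * deriv (fun z => exp (b * Lf α z)) z) (ball 0 1) :=
    differentiableOn_id.mul (hGd.deriv isOpen_ball)
  rw [tc_add hzd (hGd.const_mul _), tc_zderiv hGd, tc_const_mul, tc_const_mul, U_coef hb hab] at h2
  have hk : (0 : ℝ) < 1 + k * α := by positivity
  have hk' : (1 + k * α : ℂ) ≠ 0 := by exact_mod_cast hk.ne'
  have hf : (k.factorial : ℂ) ≠ 0 := by exact_mod_cast k.factorial_ne_zero
  rw [gcoef]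
  push_cast at h2 ⊢
  rw [← div_div, eq_div_iff hk']
  linear_combination α * h2 - (tc k (fun z => exp (b * Lf α z)) -
    (∏ j ∈ Finset.range k, (2 / (α : ℂ) + j)) / k.factorial) * hab'

theorem F_recg (m : ℕ) : (m + 1) * tc (m + 1) (Ff α) =
    ∑ i ∈ Finset.range (m + 1), ((1 + α) * (i + 1) - (m + 1)) * gcoef α (i + 1) *
      tc (m - i) (Ff α) := by
  have hab' : (α : ℂ) * b = 1 := by exact_mod_cast hab
  have hFd := F_diff hb hab
  have hGd := G_diff hb hab
  set G : ℂ → ℂ := fun z => exp (b * Lf α z) with hG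
  have hGd' : DifferentiableOn ℂ (fun z => z * deriv G z) (ball 0 1) :=
    differentiableOn_id.mul (hGd.deriv isOpen_ball)
  have hFd' : DifferentiableOn ℂ (fun z => z * deriv (Ff α) z) (ball 0 1) :=
    differentiableOn_id.mul (hFd.deriv isOpen_ball)
  have h1 : ∀ z ∈ ball (0 : ℂ) 1, (fun z => (z * deriv G z) * Ff α z) z =
      (fun z => b * (G z * (z * deriv (Ff α) z))) z := by
    intro z hz
    have hzn := mem_ball_zero_iff.1 hz
    simp only
    have e1 := zG hb hab hzn
    have h2 := zL hb hab hzn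
    rw [(L_hasDerivAt hb hab hzn).deriv] at h2
    rw [hG, e1, (F_hasDerivAt hb hab hzn).deriv]
    linear_combination (-b * exp (b * Lf α z) * Ff α z) * h2
  have h2 := tc_congr h1 (m + 1)
  rw [tc_mul hGd' hFd, tc_const_mul, tc_mul hGd hFd'] at h2
  simp only [tc_zderiv hGd, tc_zderiv hFd] at h2
  rw [Finset.sum_range_succ' _ (m + 1), Finset.sum_range_succ' _ (m + 1)] at h2
  simp only [Nat.sub_zero, Nat.add_sub_add_right, Nat.cast_zero, zero_mul, add_zero] at h2
  have hG0 : tc 0 G = 1 := by rw [tc_zero, hG]; simp [L_zero hb hab]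
  rw [hG0] at h2
  have hGc : ∀ k, tc k G = (gcoef α k : ℂ) := G_coef hb hab
  simp only [hGc] at h2
  have h3 : ∑ i ∈ Finset.range (m + 1), ((1 + α) * (i + 1) - (m + 1)) * gcoef α (i + 1) *
      tc (m - i) (Ff α) =
      α * ∑ i ∈ Finset.range (m + 1), ((i + 1 : ℕ) : ℂ) * gcoef α (i + 1) * tc (m - i) (Ff α) -
      ∑ i ∈ Finset.range (m + 1), (gcoef α (i + 1) : ℂ) * (((m - i : ℕ) : ℂ) * tc (m - i) (Ff α)) := by
    rw [Finset.mul_sum, ← Finset.sum_sub_distrib]
    apply Finset.sum_congr rfl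
    intro i hi
    have hi' : i ≤ m := Nat.lt_succ_iff.1 (Finset.mem_range.1 hi)
    rw [Nat.cast_sub hi']
    push_cast
    ring
  rw [h3]
  push_cast at h2 ⊢
  linear_combination (-α : ℂ) * h2 + (- (m + 1) * tc (m + 1) (Ff α) -
    ∑ i ∈ Finset.range (m + 1), (gcoef α (i + 1) : ℂ) * (((m - i : ℕ) : ℂ) * tc (m - i) (Ff α))) * hab'

/-- the extremal function belongs to `M(α)` -/
theorem ext_mem : AlphaConvex α (fun z => z * Ff α z) := by
  have hab' : (α : ℂ) * b = 1 := by exact_mod_cast hab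
  have hFd := F_diff hb hab
  have hPd := P_diff hb hab
  have h0b : (0 : ℂ) ∈ ball (0 : ℂ) 1 := mem_ball_self one_pos
  set f : ℂ → ℂ := fun z => z * Ff α z with hf
  have hfd : ∀ z ∈ ball (0 : ℂ) 1, HasDerivAt f (Ff α z * Pf α z) z := by
    intro z hz
    have hzn := mem_ball_zero_iff.1 hz
    have h1 : HasDerivAt f (1 * Ff α z + z * (Ff α z * (K α z / Rf α z))) z :=
      (hasDerivAt_id z).mul (F_hasDerivAt hb hab hzn)
    refine h1.congr_deriv ?_
    have h2 := zL hb hab hzn
    rw [(L_hasDerivAt hb hab hzn).deriv] at h2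
    linear_combination (Ff α z) * h2
  refine ⟨fun z hz => (hfd z hz).differentiableAt.differentiableWithinAt, zF_inj hb hab, ?_, ?_, ?_⟩
  · simp [hf]
  · rw [(hfd 0 h0b).deriv, F_zero hb hab, P_zero, one_mul]
  · intro z hz hz0
    have hzn := mem_ball_zero_iff.1 hz
    have h1 : deriv f =ᶠ[𝓝 z] fun z => Ff α z * Pf α z := by
      filter_upwards [isOpen_ball.mem_nhds hz] with w hw
      exact (hfd w hw).deriv
    have h2 : HasDerivAt (fun z => Ff α z * Pf α z) _ z :=
      (F_hasDerivAt hb hab hzn).mul (P_hasDerivAt hb hab hzn)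
    have h3 := zP hb hab hzn
    rw [(P_hasDerivAt hb hab hzn).deriv] at h3
    have h4 := zL hb hab hzn
    rw [(L_hasDerivAt hb hab hzn).deriv] at h4
    have hFn := F_ne (α := α) z
    have hPn := P_ne hb hab hzn
    have e1 : z * deriv (deriv f) z = Ff α z * Pf α z * (Pf α z - 1 + b * (qq z - Pf α z)) := by
      rw [h1.deriv_eq, h2.deriv]
      linear_combination (Ff α z * Pf α z) * h4 + (Ff α z) * h3
    have e2 : α * (1 + z * deriv (deriv f) z / deriv f z) + (1 - α) * (z * deriv f z / f z) =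
        qq z := by
      rw [e1, (hfd z hz).deriv, mul_div_cancel_left₀ _ (mul_ne_zero hFn hPn)]
      have e3 : z * (Ff α z * Pf α z) / f z = Pf α z := by
        simp only [hf]
        field_simp
      rw [e3]
      linear_combination (qq z - Pf α z) * hab'
    rw [e2]
    exact qq_re_pos hzn

theorem Ff_conv : Conv (Th α) b (16 * b + 8) where
  diff := Th_diff hb hab
  b0 := by linarith
  bound := fun _ hz => Th_bound hb hab hz
  re := fun _ hz => Th_re hb hab hz

/-- upper bound -/
theorem upper {f : ℂ → ℂ} (hf : AlphaConvex α f) (n : ℕ) :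
    ‖iteratedDeriv (n + 1) f 0 / (n + 1).factorial‖ ≤ ‖tc n (Ff α)‖ := by
  obtain ⟨ω, h1, h2, h3⟩ := main_sub hb hab hf
  have hd : DifferentiableOn ℂ (fun z => Ff α (ω z)) (ball 0 1) := by
    refine (F_diff hb hab).comp h1 ?_
    intro z hz
    rw [mem_ball_zero_iff] at hz ⊢
    exact (h2 z (mem_ball_zero_iff.2 hz)).trans_lt hz
  have e : iteratedDeriv (n + 1) f 0 / (n + 1).factorial = tc n (fun z => Ff α (ω z)) := by
    change tc (n + 1) f = _
    rw [tc_congr h3 (n + 1), tc_z_mul hd]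
  rw [e, tc, tc, norm_div, norm_div]
  exact div_le_div_of_nonneg_right (dom (Ff_conv hb hab) (F_diff hb hab)
    (fun w hw => F_deriv2 hb hab (mem_ball_zero_iff.1 hw)) n h1 h2) (norm_nonneg _)

end

end Pool.Agent.Y242.AC
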