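import Mathlib
import Pool.Agent.Helper469.Univalent

set_option autoImplicit false
open Complex Metric Set MeasureTheory Filter Topology

namespace Pool.Agent.Y242.Radial

/-- Holomorphic injective normalised functions on the unit disc. -/
structure InS (f : ℂ → ℂ) : Prop where
  diff : DifferentiableOn ℂ f (ball 0 1)
  inj : InjOn f (ball 0 1)
  zero : f 0 = 0
  one : deriv f 0 = 1

/-- the inverse map -/
noncomputable def inv (f : ℂ → ℂ) : ℂ → ℂ := Function.invFunOn f (ball 0 1)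

variable {f : ℂ → ℂ}

theorem inv_apply (hf : InS f) {z : ℂ} (hz : z ∈ ball (0 : ℂ) 1) : inv f (f z) = z :=
  hf.inj.leftInvOn_invFunOn hz

theorem deriv_ne (hf : InS f) {z : ℂ} (hz : z ∈ ball (0 : ℂ) 1) : deriv f z ≠ 0 :=
  Pool.Agent.Helper469.Univalent.deriv_ne_zero_of_injOn isOpen_ball hf.diff hf.inj hz

theorem hasStrict (hf : InS f) {z : ℂ} (hz : z ∈ ball (0 : ℂ) 1) :
    HasStrictDerivAt f (deriv f z) z :=
  (hf.diff.analyticAt (isOpen_ball.mem_nhds hz)).hasStrictDerivAt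

theorem map_nhds (hf : InS f) {z : ℂ} (hz : z ∈ ball (0 : ℂ) 1) : map f (𝓝 z) = 𝓝 (f z) :=
  (hasStrict hf hz).map_nhds_eq (deriv_ne hf hz)

theorem image_mem_nhds (hf : InS f) {z : ℂ} (hz : z ∈ ball (0 : ℂ) 1) {V : Set ℂ} (hV : V ∈ 𝓝 z) :
    f '' V ∈ 𝓝 (f z) := by
  rw [← map_nhds hf hz]
  exact image_mem_map hV

theorem isOpen_image (hf : InS f) {V : Set ℂ} (hV : IsOpen V) (hV1 : V ⊆ ball (0 : ℂ) 1) :
    IsOpen (f '' V) := by
  rw [isOpen_iff_mem_nhds]
  rintro _ ⟨z, hz, rfl⟩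
  exact image_mem_nhds hf (hV1 hz) (hV.mem_nhds hz)

theorem inv_continuousAt (hf : InS f) {z : ℂ} (hz : z ∈ ball (0 : ℂ) 1) :
    ContinuousAt (inv f) (f z) := by
  rw [ContinuousAt, inv_apply hf hz, ← map_nhds hf hz, tendsto_map'_iff]
  have h1 : (inv f ∘ f) =ᶠ[𝓝 z] id := by
    filter_upwards [isOpen_ball.mem_nhds hz] with w hw
    exact inv_apply hf hw
  rw [tendsto_congr' h1]
  exact tendsto_id

theorem inv_hasDerivAt (hf : InS f) {z : ℂ} (hz : z ∈ ball (0 : ℂ) 1) :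
    HasDerivAt (inv f) (deriv f z)⁻¹ (f z) := by
  apply HasDerivAt.of_local_left_inverse (inv_continuousAt hf hz)
  · rw [inv_apply hf hz]
    exact (hasStrict hf hz).hasDerivAt
  · exact deriv_ne hf hz
  · rw [← map_nhds hf hz]
    rw [eventually_map]
    filter_upwards [isOpen_ball.mem_nhds hz] with w hw
    rw [inv_apply hf hw]

theorem inv_differentiableAt (hf : InS f) {w : ℂ} (hw : w ∈ f '' ball (0 : ℂ) 1) :
    DifferentiableAt ℂ (inv f) w := by
  obtain ⟨z, hz, rfl⟩ := hw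
  exact (inv_hasDerivAt hf hz).differentiableAt

theorem inv_differentiableOn (hf : InS f) : DifferentiableOn ℂ (inv f) (f '' ball (0 : ℂ) 1) :=
  fun _ hw => (inv_differentiableAt hf hw).differentiableWithinAt

theorem inv_mem (hf : InS f) {w : ℂ} (hw : w ∈ f '' ball (0 : ℂ) 1) : inv f w ∈ ball (0 : ℂ) 1 := by
  obtain ⟨z, hz, rfl⟩ := hw
  rw [inv_apply hf hz]; exact hz

theorem f_inv (hf : InS f) {w : ℂ} (hw : w ∈ f '' ball (0 : ℂ) 1) : f (inv f w) = w := by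
  obtain ⟨z, hz, rfl⟩ := hw
  rw [inv_apply hf hz]

theorem inv_ne_zero (hf : InS f) {w : ℂ} (hw : w ∈ f '' ball (0 : ℂ) 1) (h0 : w ≠ 0) :
    inv f w ≠ 0 := by
  intro h
  apply h0
  rw [← f_inv hf hw, h, hf.zero]

theorem inv_injOn (hf : InS f) : InjOn (inv f) (f '' ball (0 : ℂ) 1) := by
  intro a ha b hb h
  rw [← f_inv hf ha, ← f_inv hf hb, h]

end Pool.Agent.Y242.Radial
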