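import Mathlib
import Pool.Agent.Y242.RadialInv

set_option autoImplicit false
open Complex Metric Set MeasureTheory Filter Topology

namespace Pool.Agent.Y242.Radial

variable {f : ℂ → ℂ}

theorem near_zero (hf : InS f) {η : ℝ} (hη : 0 < η) :
    ∃ δ : ℝ, 0 < δ ∧ δ < 1 ∧ ∀ z : ℂ, ‖z‖ < δ → (1 - η) * ‖z‖ ≤ ‖f z‖ ∧ ‖f z‖ ≤ (1 + η) * ‖z‖ := by
  have h0 : (0 : ℂ) ∈ ball (0 : ℂ) 1 := mem_ball_self one_pos
  have h1 : HasDerivAt f 1 0 := by
    have := (hasStrict hf h0).hasDerivAt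
    rwa [hf.one] at this
  have h2 := h1.isLittleO.def hη
  rw [Metric.eventually_nhds_iff] at h2
  obtain ⟨δ, hδ, h⟩ := h2
  refine ⟨min δ (1 / 2), by positivity, lt_of_le_of_lt (min_le_right _ _) (by norm_num), ?_⟩
  intro z hz
  have h3 := h (y := z) (by rw [dist_zero_right]; exact lt_of_lt_of_le hz (min_le_left _ _))
  rw [hf.zero] at h3
  simp only [sub_zero, smul_eq_mul, mul_one] at h3
  have h4 : ‖f z‖ ≤ ‖f z - z‖ + ‖z‖ := by
    calc ‖f z‖ = ‖(f z - z) + z‖ := by ring_nf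
      _ ≤ _ := norm_add_le _ _
  have h5 : ‖z‖ ≤ ‖f z - z‖ + ‖f z‖ := by
    calc ‖z‖ = ‖-(f z - z) + f z‖ := by ring_nf
      _ ≤ ‖-(f z - z)‖ + ‖f z‖ := norm_add_le _ _
      _ = _ := by rw [norm_neg]
  constructor <;> linarith

/-- the points all of whose radial segment lies in the image of the disc of radius `r` -/
def star (f : ℂ → ℂ) (r : ℝ) : Set ℂ := {w | ∀ s ∈ Icc (0 : ℝ) 1, (s : ℂ) * w ∈ f '' ball 0 r}

theorem isOpen_star (hf : InS f) {r : ℝ} (hr : r ≤ 1) : IsOpen (star f r) := by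
  have hU : IsOpen (f '' ball 0 r) := isOpen_image hf isOpen_ball (ball_subset_ball hr)
  rw [isOpen_iff_mem_nhds]
  intro w hw
  have hK : IsCompact (Icc (0 : ℝ) 1 ×ˢ ({w} : Set ℂ)) := isCompact_Icc.prod isCompact_singleton
  have hO : IsOpen ((fun p : ℝ × ℂ => (p.1 : ℂ) * p.2) ⁻¹' (f '' ball 0 r)) :=
    hU.preimage (by fun_prop)
  obtain ⟨U, V, hUo, hVo, hU1, hV1, hUV⟩ := generalized_tube_lemma isCompact_Icc
    (isCompact_singleton (x := w)) hO (by
      rintro ⟨s, v⟩ ⟨hs, hv⟩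
      rw [mem_singleton_iff] at hv
      subst hv
      exact hw s hs)
  apply mem_of_superset (hVo.mem_nhds (hV1 rfl))
  intro v hv s hs
  exact hUV (show (s, v) ∈ U ×ˢ V from ⟨hU1 hs, hv⟩)

/-- the structure of the rays -/
theorem ray (hf : InS f) {r : ℝ} (hr0 : 0 < r) (hr : r < 1) {θ : ℝ}
    (hθ : ∃ t : ℝ, 0 ≤ t ∧ t ≤ 1 ∧ (t : ℂ) * exp (θ * I) ∉ f '' ball 0 1) :
    ∃ l : ℝ, 0 < l ∧ l ≤ 1 ∧ (∀ t : ℝ, 0 ≤ t → t < l → (t : ℂ) * exp (θ * I) ∈ star f r) ∧
      ∃ z : ℂ, ‖z‖ = r ∧ f z = (l : ℂ) * exp (θ * I) := by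
  have hU : IsOpen (f '' ball 0 r) := isOpen_image hf isOpen_ball (ball_subset_ball hr.le)
  set T : Set ℝ := Icc (0 : ℝ) 1 ∩ (fun t : ℝ => (t : ℂ) * exp (θ * I)) ⁻¹' (f '' ball 0 r)ᶜ with hT
  have hTc : IsCompact T := by
    apply isCompact_Icc.inter_right
    apply hU.isClosed_compl.preimage
    fun_prop
  have hTne : T.Nonempty := by
    obtain ⟨t, h0, h1, h2⟩ := hθ
    refine ⟨t, ⟨h0, h1⟩, fun h => h2 (image_mono (ball_subset_ball hr.le) h)⟩
  have hl := hTc.sInf_mem hTne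
  set l := sInf T with hldef
  have hlt : ∀ t : ℝ, 0 ≤ t → t < l → (t : ℂ) * exp (θ * I) ∈ f '' ball 0 r := by
    intro t h0 h1
    by_contra hcon
    have : l ≤ t := csInf_le hTc.bddBelow ⟨⟨h0, h1.le.trans hl.1.2⟩, hcon⟩
    linarith
  have hl0 : 0 < l := by
    rcases hl.1.1.lt_or_eq with h | h
    · exact h
    · exfalso
      apply hl.2
      rw [← h]
      refine ⟨0, mem_ball_self hr0, ?_⟩
      rw [hf.zero]; simp
  refine ⟨l, hl0, hl.1.2, ?_, ?_⟩
  · intro t h0 h1 s hs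
    have : (s : ℂ) * ((t : ℂ) * exp (θ * I)) = ((s * t : ℝ) : ℂ) * exp (θ * I) := by
      push_cast; ring
    rw [this]
    apply hlt _ (mul_nonneg hs.1 h0)
    calc s * t ≤ 1 * t := mul_le_mul_of_nonneg_right hs.2 h0
      _ < l := by linarith
  · have hcl : (l : ℂ) * exp (θ * I) ∈ closure (f '' ball 0 r) := by
      have hc : Tendsto (fun t : ℝ => (t : ℂ) * exp (θ * I)) (𝓝[<] l) (𝓝 ((l : ℂ) * exp (θ * I))) := by
        apply tendsto_nhdsWithin_of_tendsto_nhds
        have : Continuous (fun t : ℝ => (t : ℂ) * exp (θ * I)) := by fun_prop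
        exact this.tendsto l
      apply mem_closure_of_tendsto hc
      filter_upwards [Ioo_mem_nhdsLT hl0] with t ht
      exact hlt t ht.1.le ht.2
    have hsub : closure (f '' ball 0 r) ⊆ f '' closedBall 0 r := by
      apply closure_minimal (image_mono ball_subset_closedBall)
      apply IsCompact.isClosed
      apply (isCompact_closedBall (0 : ℂ) r).image_of_continuousOn
      exact hf.diff.continuousOn.mono (closedBall_subset_ball hr)
    obtain ⟨z, hz, hzl⟩ := hsub hcl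
    refine ⟨z, ?_, hzl⟩
    have hz' : ‖z‖ ≤ r := by simpa using hz
    rcases hz'.lt_or_eq with h | h
    · exfalso
      exact hl.2 ⟨z, by simpa using h, hzl⟩
    · exact h

theorem hasDerivAt_log_norm {u : ℝ → ℂ} {u' : ℂ} {t : ℝ} (hu : HasDerivAt u u' t) (h0 : u t ≠ 0) :
    HasDerivAt (fun s => Real.log ‖u s‖) ((u' / u t).re) t := by
  have h1 : HasDerivAt (fun s => u s / u t) (u' / u t) t := hu.div_const _
  have h2 : HasDerivAt (fun s => Complex.log (u s / u t)) ((u' / u t) / (u t / u t)) t := by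
    apply HasDerivAt.clog_real h1
    rw [div_self h0]; exact one_mem_slitPlane
  rw [div_self h0, div_one] at h2
  have h3 : HasDerivAt (fun s => (Complex.log (u s / u t)).re) ((u' / u t).re) t := by
    exact (Complex.reCLM.hasFDerivAt.comp_hasDerivAt t h2)
  have h4 : HasDerivAt (fun s => (Complex.log (u s / u t)).re + Real.log ‖u t‖) ((u' / u t).re) t :=
    h3.add_const _
  apply h4.congr_of_eventuallyEq
  filter_upwards [hu.continuousAt.eventually_ne h0] with s hs
  rw [Complex.log_re, norm_div, Real.log_div (norm_ne_zero_iff.2 hs) (norm_ne_zero_iff.2 h0)]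
  ring

/-- the logarithmic derivative `w g' / g` of the inverse function -/
noncomputable def kk (f : ℂ → ℂ) (w : ℂ) : ℂ := w * deriv (inv f) w / inv f w

theorem kk_continuousOn (hf : InS f) : ContinuousOn (kk f) (f '' ball (0 : ℂ) 1 \ {0}) := by
  have hO : IsOpen (f '' ball (0 : ℂ) 1) := isOpen_image hf isOpen_ball subset_rfl
  have h1 : ContinuousOn (deriv (inv f)) (f '' ball (0 : ℂ) 1) :=
    ((inv_differentiableOn hf).deriv hO).continuousOn
  have h2 : ContinuousOn (inv f) (f '' ball (0 : ℂ) 1) := (inv_differentiableOn hf).continuousOn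
  unfold kk
  apply ContinuousOn.div
  · exact (continuousOn_id.mul h1).mono sdiff_subset
  · exact h2.mono sdiff_subset
  · rintro w ⟨hw, hw0⟩
    exact inv_ne_zero hf hw hw0

/-- the key inequality along one ray -/
theorem ray_ineq (hf : InS f) {r : ℝ} (hr0 : 0 < r) (hr : r < 1) {θ l ε : ℝ} (hl : l ≤ 1)
    (hε : 0 < ε) (hεl : ε < l)
    (hin : ∀ t : ℝ, 0 ≤ t → t < l → (t : ℂ) * exp (θ * I) ∈ star f r)
    {z : ℂ} (hz : ‖z‖ = r) (hfz : f z = (l : ℂ) * exp (θ * I)) :
    2 * (Real.log r - Real.log ‖inv f ((ε : ℂ) * exp (θ * I))‖) + Real.log ε +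
      ∫ t in ε..l, ‖kk f ((t : ℂ) * exp (θ * I)) - 1‖ ^ 2 / t ≤
      ∫ t in ε..l, ‖kk f ((t : ℂ) * exp (θ * I))‖ ^ 2 / t := by
  have hl0 : 0 < l := hε.trans hεl
  set w : ℝ → ℂ := fun t => (t : ℂ) * exp (θ * I) with hw
  have hO : IsOpen (f '' ball (0 : ℂ) 1) := isOpen_image hf isOpen_ball subset_rfl
  have hzb : z ∈ ball (0 : ℂ) 1 := by simpa [hz] using hr
  have hwin : ∀ t ∈ Icc ε l, w t ∈ f '' ball (0 : ℂ) 1 := by
    intro t ht
    rcases ht.2.lt_or_eq with h | h
    · have h1 := hin t (hε.le.trans ht.1) h 1 (by simp)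
      rw [Complex.ofReal_one, one_mul] at h1
      exact image_mono (ball_subset_ball hr.le) h1
    · rw [h]
      exact ⟨z, hzb, hfz⟩
  have hnorm : ∀ t : ℝ, 0 < t → ‖w t‖ = t := by
    intro t ht
    rw [hw]
    simp only [norm_mul, Complex.norm_real, Complex.norm_exp_ofReal_mul_I, mul_one, Real.norm_eq_abs,
      abs_of_pos ht]
  have hw0 : ∀ t : ℝ, 0 < t → w t ≠ 0 := by
    intro t ht h
    have := hnorm t ht
    rw [h, norm_zero] at this
    linarith
  have hwc : Continuous w := by rw [hw]; fun_prop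
  have hkc : ContinuousOn (fun t => kk f (w t)) (Icc ε l) := by
    apply (kk_continuousOn hf).comp hwc.continuousOn
    intro t ht
    exact ⟨hwin t ht, hw0 t (hε.trans_le ht.1)⟩
  have hinvc : ContinuousOn (fun t : ℝ => 1 / t) (Icc ε l) := by
    apply ContinuousOn.div continuousOn_const continuousOn_id
    intro t ht
    exact (hε.trans_le ht.1).ne'
  have huIcc : uIcc ε l = Icc ε l := uIcc_of_le hεl.le
  -- integrability
  have hi1 : IntervalIntegrable (fun t => (kk f (w t)).re / t) volume ε l := by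
    apply ContinuousOn.intervalIntegrable
    rw [huIcc]
    have := (Complex.continuous_re.comp_continuousOn hkc).mul hinvc
    refine this.congr fun t ht => ?_
    simp [div_eq_mul_inv]
  have hi2 : IntervalIntegrable (fun t : ℝ => 1 / t) volume ε l := by
    apply ContinuousOn.intervalIntegrable
    rw [huIcc]; exact hinvc
  have hi3 : IntervalIntegrable (fun t => ‖kk f (w t) - 1‖ ^ 2 / t) volume ε l := by
    apply ContinuousOn.intervalIntegrable
    rw [huIcc]
    have := (((hkc.sub continuousOn_const).norm (f := fun t => kk f (w t) - 1)).pow 2).mul hinvc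
    refine this.congr fun t ht => ?_
    simp [div_eq_mul_inv]
  -- the fundamental theorem of calculus
  have hder : ∀ t ∈ uIcc ε l, HasDerivAt (fun s => Real.log ‖inv f (w s)‖) ((kk f (w t)).re / t) t := by
    intro t ht
    rw [huIcc] at ht
    have ht0 : 0 < t := hε.trans_le ht.1
    have h1 : HasDerivAt w (exp (θ * I)) t := by
      have : HasDerivAt (fun s : ℝ => (s : ℂ) * exp (θ * I)) (1 * exp (θ * I)) t :=
        (Complex.ofRealCLM.hasDerivAt).mul_const _
      simpa using this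
    have h2 : HasDerivAt (fun s => inv f (w s)) (deriv (inv f) (w t) * exp (θ * I)) t :=
      ((inv_differentiableAt hf (hwin t ht)).hasDerivAt).comp t h1
    have h3 := hasDerivAt_log_norm h2 (inv_ne_zero hf (hwin t ht) (hw0 t ht0))
    convert h3 using 1
    rw [← Complex.div_ofReal_re]
    congr 1
    unfold kk
    have hi : inv f (w t) ≠ 0 := inv_ne_zero hf (hwin t ht) (hw0 t ht0)
    have htc : (t : ℂ) ≠ 0 := by exact_mod_cast ht0.ne'
    rw [hw] at hi ⊢
    simp only at hi ⊢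
    field_simp
  have hF := intervalIntegral.integral_eq_sub_of_hasDerivAt hder hi1
  have hgl : inv f (w l) = z := by
    rw [hw]; simp only; rw [← hfz]; exact inv_apply hf hzb
  rw [hgl, hz] at hF
  have hlog : ∫ t in ε..l, 1 / t = Real.log l - Real.log ε := by
    rw [integral_one_div_of_pos hε hl0, Real.log_div hl0.ne' hε.ne']
  have hpt : ∀ t, ‖kk f (w t)‖ ^ 2 / t = 2 * ((kk f (w t)).re / t) - 1 / t + ‖kk f (w t) - 1‖ ^ 2 / t := by
    intro t
    have h1 : ‖kk f (w t) - 1‖ ^ 2 = ‖kk f (w t)‖ ^ 2 - 2 * (kk f (w t)).re + 1 := by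
      rw [← Complex.normSq_eq_norm_sq, ← Complex.normSq_eq_norm_sq, Complex.normSq_apply,
        Complex.normSq_apply]
      simp only [Complex.sub_re, Complex.one_re, Complex.sub_im, Complex.one_im]
      ring
    rw [h1]
    ring
  have hsum : ∫ t in ε..l, ‖kk f (w t)‖ ^ 2 / t = 2 * (∫ t in ε..l, (kk f (w t)).re / t) -
      (∫ t in ε..l, 1 / t) + ∫ t in ε..l, ‖kk f (w t) - 1‖ ^ 2 / t := by
    rw [← intervalIntegral.integral_const_mul, ← intervalIntegral.integral_sub (hi1.const_mul 2) hi2,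
      ← intervalIntegral.integral_add ((hi1.const_mul 2).sub hi2) hi3]
    congr 1
    funext t
    rw [hpt]
  rw [hsum, hF, hlog]
  have hl1 : Real.log l ≤ 0 := Real.log_nonpos hl0.le hl
  have hwe : w ε = (ε : ℂ) * exp (θ * I) := rfl
  rw [hwe]
  linarith

end Pool.Agent.Y242.Radial
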