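import Mathlib
import Pool.Agent.Y242.RadialA

set_option autoImplicit false
open Complex Metric Set MeasureTheory Filter Topology
open scoped ENNReal

namespace Pool.Agent.Y242.Radial

variable {f : ℂ → ℂ}

lemma lintegral_image_complex {s : Set ℂ} (hs : MeasurableSet s) {g g' : ℂ → ℂ}
    (h : ∀ x ∈ s, HasDerivAt g (g' x) x) (inj : InjOn g s) (φ : ℂ → ℝ≥0∞) :
    ∫⁻ x in g '' s, φ x = ∫⁻ x in s, ENNReal.ofReal (‖g' x‖ ^ 2) * φ (g x) := by
  have h1 := lintegral_image_eq_lintegral_abs_det_fderiv_mul volume hs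
    (f' := fun x => (ContinuousLinearMap.toSpanSingleton ℂ (g' x)).restrictScalars ℝ)
    (fun x hx => ((h x hx).hasFDerivAt.restrictScalars ℝ).hasFDerivWithinAt) inj φ
  rw [h1]
  have h2 : ∀ x, |((ContinuousLinearMap.toSpanSingleton ℂ (g' x)).restrictScalars ℝ).det| = ‖g' x‖ ^ 2 := by
    intro x
    simp [ContinuousLinearMap.det, LinearMap.det_restrictScalars, Algebra.norm_complex_eq,
      Complex.normSq_eq_norm_sq]
  simp only [h2]

/-- the logarithmic area of a round annulus -/
theorem log_area {a b : ℝ} (ha : 0 < a) (hab : a ≤ b) :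
    ∫⁻ z in {z : ℂ | a ≤ ‖z‖ ∧ ‖z‖ < b}, ENNReal.ofReal (1 / ‖z‖ ^ 2) =
      ENNReal.ofReal (2 * Real.pi * (Real.log b - Real.log a)) := by
  have hm : MeasurableSet {z : ℂ | a ≤ ‖z‖ ∧ ‖z‖ < b} :=
    (measurableSet_le measurable_const measurable_norm).inter
      (measurableSet_lt measurable_norm measurable_const)
  have hb : 0 < b := ha.trans_le hab
  rw [← lintegral_indicator hm, ← Complex.lintegral_comp_polarCoord_symm]
  have h1 : ∫⁻ p in polarCoord.target, ENNReal.ofReal p.1 •
      ({z : ℂ | a ≤ ‖z‖ ∧ ‖z‖ < b}).indicator (fun w => ENNReal.ofReal (1 / ‖w‖ ^ 2))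
        (Complex.polarCoord.symm p) =
      ∫⁻ p in (Ioi (0:ℝ)) ×ˢ (Ioo (-Real.pi) Real.pi),
        (Ico a b).indicator (fun r => ENNReal.ofReal (1 / r)) p.1 := by
    change ∫⁻ p in (Ioi (0:ℝ)) ×ˢ (Ioo (-Real.pi) Real.pi), _ = _
    apply setLIntegral_congr_fun (measurableSet_Ioi.prod measurableSet_Ioo)
    rintro ⟨r, θ⟩ ⟨hr, -⟩
    simp only [mem_Ioi] at hr
    simp only [smul_eq_mul]
    have hn : ‖Complex.polarCoord.symm (r, θ)‖ = r := by
      rw [Complex.norm_polarCoord_symm]; exact abs_of_pos hr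
    by_cases h : a ≤ r ∧ r < b
    · rw [indicator_of_mem (by rw [mem_ofPred_eq, hn]; exact h), indicator_of_mem (by exact h), hn,
        ← ENNReal.ofReal_mul hr.le]
      congr 1
      field_simp
    · rw [indicator_of_notMem (by rw [mem_ofPred_eq, hn]; exact h), indicator_of_notMem (by exact h),
        mul_zero]
  rw [h1, Measure.volume_eq_prod, setLIntegral_prod _ (by
    apply Measurable.aemeasurable
    exact ((by fun_prop : Measurable (fun r : ℝ => ENNReal.ofReal (1 / r))).indicator
      measurableSet_Ico).comp measurable_fst)]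
  simp only [setLIntegral_const, Real.volume_Ioo]
  rw [lintegral_mul_const _ ((by fun_prop : Measurable (fun r : ℝ => ENNReal.ofReal (1 / r))).indicator
      measurableSet_Ico), setLIntegral_indicator measurableSet_Ico]
  have h2 : Ico a b ∩ Ioi 0 = Ico a b := by
    apply inter_eq_left.2
    intro x hx
    exact ha.trans_le hx.1
  rw [h2, restrict_Ico_eq_restrict_Ioc, ← ofReal_integral_eq_lintegral_ofReal]
  · rw [← intervalIntegral.integral_of_le hab, integral_one_div_of_pos ha hb,
      Real.log_div hb.ne' ha.ne']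
    rw [← ENNReal.ofReal_mul (sub_nonneg.2 (Real.log_le_log ha hab))]
    congr 1
    ring
  · have : ContinuousOn (fun r : ℝ => 1 / r) (Icc a b) := by
      apply ContinuousOn.div continuousOn_const continuousOn_id
      intro t ht
      exact (ha.trans_le ht.1).ne'
    exact this.integrableOn_Icc.mono_set Ioc_subset_Icc_self
  · filter_upwards [ae_restrict_mem measurableSet_Ioc] with x hx
    have : 0 < x := ha.trans hx.1
    positivity

/-- polar coordinates, lower bound -/
theorem polar_le (φ : ℂ → ℝ≥0∞) (S : Set ℂ) (hS : IsOpen S)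
    (hφ : Measurable (S.indicator φ)) :
    ∫⁻ θ in Ioo (-Real.pi) Real.pi, ∫⁻ t in Ioi (0 : ℝ),
      ENNReal.ofReal t * S.indicator φ ((t : ℂ) * exp (θ * I)) = ∫⁻ w in S, φ w := by
  rw [← lintegral_indicator hS.measurableSet, ← Complex.lintegral_comp_polarCoord_symm]
  change _ = ∫⁻ p in (Ioi (0:ℝ)) ×ˢ (Ioo (-Real.pi) Real.pi), _
  have hsymm : ∀ p : ℝ × ℝ, Complex.polarCoord.symm p = (p.1 : ℂ) * exp (p.2 * I) := by
    intro p
    rw [Complex.polarCoord_symm_apply, Complex.exp_mul_I]
    push_cast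
    ring
  have hmeas : Measurable (fun p : ℝ × ℝ => ENNReal.ofReal p.1 •
      S.indicator φ (Complex.polarCoord.symm p)) := by
    simp only [hsymm, smul_eq_mul]
    apply Measurable.mul (by fun_prop)
    apply hφ.comp
    fun_prop
  rw [Measure.volume_eq_prod, ← Measure.prod_restrict, lintegral_prod_symm _ hmeas.aemeasurable]
  apply lintegral_congr
  intro θ
  apply lintegral_congr
  intro t
  rw [hsymm]
  rfl

end Pool.Agent.Y242.Radial
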