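import Mathlib
import Pool.Agent.Y242.RadialB

set_option autoImplicit false
open Complex Metric Set MeasureTheory Filter Topology
open scoped ENNReal

namespace Pool.Agent.Y242.Radial

variable {f : ℂ → ℂ}

/-- every ray from the origin leaves the image at distance at most one -/
def Blocked (f : ℂ → ℂ) : Prop :=
  ∀ θ : ℝ, ∃ t : ℝ, 0 ≤ t ∧ t ≤ 1 ∧ (t : ℂ) * exp (θ * I) ∉ f '' ball 0 1

/-- the integral of `|w g'/g - 1|²` over an annulus, in polar coordinates -/
noncomputable def XX (f : ℂ → ℂ) (δ : ℝ) : ℝ≥0∞ :=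
  ∫⁻ θ in Ioo (-Real.pi) Real.pi, ∫⁻ t in Ioo δ (2 * δ),
    ENNReal.ofReal (‖kk f ((t : ℂ) * exp (θ * I)) - 1‖ ^ 2 / t)

noncomputable def phi (f : ℂ → ℂ) (w : ℂ) : ℝ≥0∞ :=
  ENNReal.ofReal (‖deriv (inv f) w‖ ^ 2) * ENNReal.ofReal (1 / ‖inv f w‖ ^ 2)

lemma norm_ray {t : ℝ} (ht : 0 < t) (θ : ℝ) : ‖(t : ℂ) * exp (θ * I)‖ = t := by
  simp only [norm_mul, Complex.norm_real, Complex.norm_exp_ofReal_mul_I, mul_one, Real.norm_eq_abs,
    abs_of_pos ht]

lemma phi_ray {t : ℝ} (ht : 0 < t) (θ : ℝ) :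
    ENNReal.ofReal t * phi f ((t : ℂ) * exp (θ * I)) =
      ENNReal.ofReal (‖kk f ((t : ℂ) * exp (θ * I))‖ ^ 2 / t) := by
  unfold phi kk
  rw [← ENNReal.ofReal_mul (by positivity), ← ENNReal.ofReal_mul ht.le]
  congr 1
  rw [norm_div, norm_mul, norm_ray ht]
  by_cases h : ‖inv f ((t : ℂ) * exp (θ * I))‖ = 0
  · rw [h]; simp
  · field_simp

/-- one ray, in extended nonnegative reals -/
theorem ray_lower (hf : InS f) (hb : Blocked f) {r δ ε η : ℝ} (hr0 : 1 / 2 < r) (hr : r < 1)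
    (hδ : closedBall (0 : ℂ) (2 * δ) ⊆ f '' ball 0 (1 / 2)) (hδ0 : 0 < δ) (hε : 0 < ε) (hεδ : ε ≤ δ)
    (hη : η < 1)
    (hinv : ∀ w : ℂ, ‖w‖ = ε → ‖inv f w‖ ≤ ε / (1 - η))
    (hc : 0 ≤ 2 * Real.log r - Real.log ε + 2 * Real.log (1 - η)) (θ : ℝ) :
    ENNReal.ofReal (2 * Real.log r - Real.log ε + 2 * Real.log (1 - η)) +
      ∫⁻ t in Ioo δ (2 * δ), ENNReal.ofReal (‖kk f ((t : ℂ) * exp (θ * I)) - 1‖ ^ 2 / t) ≤
    ∫⁻ t in Ioi (0 : ℝ), ENNReal.ofReal t *
      (star f r ∩ (closedBall (0 : ℂ) ε)ᶜ).indicator (phi f) ((t : ℂ) * exp (θ * I)) := by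
  have hr00 : 0 < r := by linarith
  obtain ⟨l, hl0, hl1, hin, z, hz, hfz⟩ := ray hf hr00 hr (hb θ)
  have hzb : z ∈ ball (0 : ℂ) 1 := by simpa [hz] using hr
  -- 2 δ < l
  have hδl : 2 * δ < l := by
    by_contra hcon
    push Not at hcon
    have h1 : (l : ℂ) * exp (θ * I) ∈ closedBall (0 : ℂ) (2 * δ) := by
      rw [mem_closedBall, dist_zero_right, norm_ray hl0]; exact hcon
    obtain ⟨z', hz', h2⟩ := hδ h1
    rw [← hfz] at h2
    have hz'1 : ‖z'‖ < 1 / 2 := by simpa using hz'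
    have h3 := hf.inj (show z' ∈ ball (0 : ℂ) 1 by
      rw [mem_ball, dist_zero_right]; linarith) hzb h2
    rw [h3, hz] at hz'1
    linarith
  have hεl : ε < l := by linarith
  have hineq := ray_ineq hf hr00 hr hl1 hε hεl hin hz hfz
  set w : ℝ → ℂ := fun t => (t : ℂ) * exp (θ * I) with hw
  have hw0 : ∀ t : ℝ, 0 < t → w t ≠ 0 := by
    intro t ht h
    have := norm_ray ht θ
    rw [hw] at h
    simp only at h
    rw [h, norm_zero] at this
    linarith
  have hwin : ∀ t ∈ Icc ε l, w t ∈ f '' ball (0 : ℂ) 1 := by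
    intro t ht
    rcases ht.2.lt_or_eq with h | h
    · have h1 := hin t (hε.le.trans ht.1) h 1 (by simp)
      rw [Complex.ofReal_one, one_mul] at h1
      exact image_mono (ball_subset_ball hr.le) h1
    · rw [h]
      exact ⟨z, hzb, hfz⟩
  have hwc : Continuous w := by rw [hw]; fun_prop
  have hkc : ContinuousOn (fun t => kk f (w t)) (Icc ε l) := by
    apply (kk_continuousOn hf).comp hwc.continuousOn
    intro t ht
    exact ⟨hwin t ht, hw0 t (hε.trans_le ht.1)⟩
  have hinvc : ContinuousOn (fun t : ℝ => 1 / t) (Icc ε l) := by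
    apply ContinuousOn.div continuousOn_const continuousOn_id
    intro t ht
    exact (hε.trans_le ht.1).ne'
  have hc1 : ContinuousOn (fun t => ‖kk f (w t)‖ ^ 2 / t) (Icc ε l) := by
    have := ((hkc.norm).pow 2).mul hinvc
    refine this.congr fun t ht => ?_
    simp [div_eq_mul_inv]
  have hc2 : ContinuousOn (fun t => ‖kk f (w t) - 1‖ ^ 2 / t) (Icc ε l) := by
    have := (((hkc.sub continuousOn_const).norm (f := fun t => kk f (w t) - 1)).pow 2).mul hinvc
    refine this.congr fun t ht => ?_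
    simp [div_eq_mul_inv]
  have hlint : ∀ F : ℝ → ℝ, ContinuousOn F (Icc ε l) → (∀ t, 0 < t → 0 ≤ F t) →
      ∫⁻ t in Ioo ε l, ENNReal.ofReal (F t) = ENNReal.ofReal (∫ t in ε..l, F t) := by
    intro F hF hF0
    rw [intervalIntegral.integral_of_le hεl.le, ← restrict_Ioo_eq_restrict_Ioc,
      ofReal_integral_eq_lintegral_ofReal]
    · exact hF.integrableOn_Icc.mono_set Ioo_subset_Icc_self
    · filter_upwards [ae_restrict_mem measurableSet_Ioo] with x hx
      exact hF0 x (hε.trans hx.1)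
  have hstep1 : ∫⁻ t in Ioo δ (2 * δ), ENNReal.ofReal (‖kk f (w t) - 1‖ ^ 2 / t) ≤
      ∫⁻ t in Ioo ε l, ENNReal.ofReal (‖kk f (w t) - 1‖ ^ 2 / t) :=
    lintegral_mono_set (Ioo_subset_Ioo hεδ hδl.le)
  have hstep2 : ∫⁻ t in Ioo ε l, ENNReal.ofReal (‖kk f (w t)‖ ^ 2 / t) ≤
      ∫⁻ t in Ioi (0 : ℝ), ENNReal.ofReal t *
        (star f r ∩ (closedBall (0 : ℂ) ε)ᶜ).indicator (phi f) (w t) := by
    have h1 : ∫⁻ t in Ioo ε l, ENNReal.ofReal (‖kk f (w t)‖ ^ 2 / t) =
        ∫⁻ t in Ioo ε l, ENNReal.ofReal t *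
        (star f r ∩ (closedBall (0 : ℂ) ε)ᶜ).indicator (phi f) (w t) := by
      apply setLIntegral_congr_fun measurableSet_Ioo
      intro t ht
      have ht0 : 0 < t := hε.trans ht.1
      simp only
      rw [indicator_of_mem, hw, phi_ray ht0]
      refine ⟨hin t ht0.le ht.2, ?_⟩
      rw [mem_compl_iff, mem_closedBall, dist_zero_right, norm_ray ht0]
      linarith [ht.1]
    rw [h1]
    apply lintegral_mono_set
    intro t ht
    exact hε.trans ht.1
  refine le_trans ?_ hstep2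
  rw [hlint _ hc1 (fun t ht => by positivity)]
  refine (add_le_add le_rfl hstep1).trans ?_
  rw [hlint _ hc2 (fun t ht => by positivity)]
  have hnn : 0 ≤ ∫ t in ε..l, ‖kk f (w t) - 1‖ ^ 2 / t := by
    apply intervalIntegral.integral_nonneg hεl.le
    intro t ht
    have : 0 < t := hε.trans_le ht.1
    positivity
  rw [← ENNReal.ofReal_add hc hnn]
  apply ENNReal.ofReal_le_ofReal
  have hη1 : 0 < 1 - η := by linarith
  have hgpos : 0 < ‖inv f (w ε)‖ :=
    norm_pos_iff.2 (inv_ne_zero hf (hwin ε ⟨le_rfl, hεl.le⟩) (hw0 ε hε))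
  have hg : Real.log ‖inv f (w ε)‖ ≤ Real.log ε - Real.log (1 - η) := by
    rw [← Real.log_div hε.ne' hη1.ne']
    exact Real.log_le_log hgpos (hinv _ (norm_ray hε θ))
  have hineq' : 2 * (Real.log r - Real.log ‖inv f (w ε)‖) + Real.log ε +
      ∫ t in ε..l, ‖kk f (w t) - 1‖ ^ 2 / t ≤ ∫ t in ε..l, ‖kk f (w t)‖ ^ 2 / t := hineq
  linarith

/-- the total inequality -/
theorem total (hf : InS f) (hb : Blocked f) {r δ η : ℝ} (hr0 : 1 / 2 < r) (hr : r < 1)
    (hδ : closedBall (0 : ℂ) (2 * δ) ⊆ f '' ball 0 (1 / 2)) (hδ0 : 0 < δ)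
    (hη0 : 0 < η) (hη : η < 1) :
    XX f δ ≤ ENNReal.ofReal (2 * Real.pi *
      (-Real.log r + Real.log (1 + η) - 2 * Real.log (1 - η))) := by
  have hpi := Real.pi_pos
  have hη1 : 0 < 1 - η := by linarith
  have hr00 : 0 < r := by linarith
  obtain ⟨d, hd0, hd1, hd⟩ := near_zero hf hη0
  have h0 : (0 : ℂ) ∈ ball (0 : ℂ) 1 := mem_ball_self one_pos
  have himg : f '' ball 0 d ∈ 𝓝 (0 : ℂ) := by
    have := image_mem_nhds hf h0 (ball_mem_nhds (0 : ℂ) hd0)
    rwa [hf.zero] at this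
  obtain ⟨e, he0, he⟩ := Metric.nhds_basis_closedBall.mem_iff.1 himg
  set ε : ℝ := min (min e δ) (min (d / 2) (r ^ 2 * (1 - η) ^ 2)) with hεdef
  have hε0 : 0 < ε := by positivity
  have hεe : ε ≤ e := (min_le_left _ _).trans (min_le_left _ _)
  have hεδ : ε ≤ δ := (min_le_left _ _).trans (min_le_right _ _)
  have hεd : ε ≤ d / 2 := (min_le_right _ _).trans (min_le_left _ _)
  have hεc : ε ≤ r ^ 2 * (1 - η) ^ 2 := (min_le_right _ _).trans (min_le_right _ _)
  have hinv : ∀ w : ℂ, ‖w‖ = ε → ‖inv f w‖ ≤ ε / (1 - η) := by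
    intro w hw
    have h1 : w ∈ closedBall (0 : ℂ) e := by rw [mem_closedBall, dist_zero_right, hw]; exact hεe
    obtain ⟨z, hz, rfl⟩ := he h1
    have hz' : ‖z‖ < d := by simpa using hz
    rw [inv_apply hf (by rw [mem_ball, dist_zero_right]; linarith), le_div_iff₀ hη1]
    have := (hd z hz').1
    rw [hw] at this
    linarith
  have hc : 0 ≤ 2 * Real.log r - Real.log ε + 2 * Real.log (1 - η) := by
    have h1 : Real.log ε ≤ Real.log (r ^ 2 * (1 - η) ^ 2) := Real.log_le_log hε0 hεc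
    rw [Real.log_mul (by positivity) (by positivity), Real.log_pow, Real.log_pow] at h1
    push_cast at h1
    linarith
  set c := 2 * Real.log r - Real.log ε + 2 * Real.log (1 - η) with hcdef
  set S : Set ℂ := star f r ∩ (closedBall (0 : ℂ) ε)ᶜ with hS
  have hSo : IsOpen S := (isOpen_star hf hr.le).inter isClosed_closedBall.isOpen_compl
  have hSsub : S ⊆ f '' ball 0 r := by
    rintro w ⟨hw, -⟩
    have := hw 1 (by simp)
    simpa using this
  have hSsub1 : S ⊆ f '' ball 0 1 := hSsub.trans (image_mono (ball_subset_ball hr.le))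
  have hS0 : ∀ w ∈ S, w ≠ 0 := by
    rintro w ⟨-, hw⟩ rfl
    exact hw (mem_closedBall_self hε0.le)
  -- measurability
  have hO : IsOpen (f '' ball (0 : ℂ) 1) := isOpen_image hf isOpen_ball subset_rfl
  have hmeas : Measurable (S.indicator (phi f)) := by
    classical
    have h1 : ContinuousOn (fun w => ‖deriv (inv f) w‖ ^ 2 * (1 / ‖inv f w‖ ^ 2)) S := by
      have h2 : ContinuousOn (deriv (inv f)) S :=
        (((inv_differentiableOn hf).deriv hO).continuousOn).mono hSsub1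
      have h3 : ContinuousOn (inv f) S := ((inv_differentiableOn hf).continuousOn).mono hSsub1
      apply (h2.norm.pow 2).mul
      apply continuousOn_const.div (h3.norm.pow 2)
      intro w hw
      have := norm_pos_iff.2 (inv_ne_zero hf (hSsub1 hw) (hS0 w hw))
      exact (pow_pos this 2).ne'
    have h4 : S.indicator (phi f) =
        fun w => ENNReal.ofReal (S.piecewise
          (fun w => ‖deriv (inv f) w‖ ^ 2 * (1 / ‖inv f w‖ ^ 2)) 0 w) := by
      funext w
      by_cases hw : w ∈ S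
      · rw [indicator_of_mem hw, piecewise_eq_of_mem _ _ _ hw]
        unfold phi
        rw [← ENNReal.ofReal_mul (by positivity)]
      · rw [indicator_of_notMem hw, piecewise_eq_of_notMem _ _ _ hw]
        simp
    rw [h4]
    exact (h1.measurable_piecewise continuousOn_const hSo.measurableSet).ennreal_ofReal
  -- upper bound for the area
  have hup : ∫⁻ w in S, phi f w ≤
      ENNReal.ofReal (2 * Real.pi * (Real.log r - Real.log (ε / (1 + η)))) := by
    have h1 := lintegral_image_complex hSo.measurableSet (g := inv f) (g' := deriv (inv f))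
      (fun w hw => (inv_differentiableAt hf (hSsub1 hw)).hasDerivAt)
      ((inv_injOn hf).mono hSsub1) (fun z => ENNReal.ofReal (1 / ‖z‖ ^ 2))
    have h2 : ∫⁻ w in S, phi f w = ∫⁻ z in inv f '' S, ENNReal.ofReal (1 / ‖z‖ ^ 2) := by
      rw [h1]; rfl
    have hηp : 0 < 1 + η := by linarith
    have hεr : ε / (1 + η) ≤ r := by
      rw [div_le_iff₀ hηp]
      have h5 : r ^ 2 * (1 - η) ^ 2 ≤ r := by
        have h6 : r ^ 2 ≤ r := by nlinarith
        have h7 : (1 - η) ^ 2 ≤ 1 := by nlinarith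
        nlinarith [mul_nonneg hr00.le (sub_nonneg.2 h7), sq_nonneg r]
      nlinarith
    rw [h2, ← log_area (by positivity) hεr]
    apply lintegral_mono_set
    rintro _ ⟨w, hw, rfl⟩
    obtain ⟨z, hz, hzw⟩ := hSsub hw
    have hz1 : ‖z‖ < r := by simpa using hz
    have hzb : z ∈ ball (0 : ℂ) 1 := by rw [mem_ball, dist_zero_right]; linarith
    rw [← hzw, inv_apply hf hzb]
    refine ⟨?_, hz1⟩
    by_contra hcon
    push Not at hcon
    have h3 : ‖z‖ < d := by
      refine hcon.trans_le ?_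
      rw [div_le_iff₀ hηp]
      nlinarith
    have h4 := (hd z h3).2
    have h5 : ‖w‖ ≤ ε := by
      rw [← hzw]
      rw [lt_div_iff₀ hηp] at hcon
      linarith
    exact hw.2 (by rw [mem_closedBall, dist_zero_right]; exact h5)
  rw [← polar_le (phi f) S hSo hmeas] at hup
  have hlow : ENNReal.ofReal c * ENNReal.ofReal (2 * Real.pi) + XX f δ ≤
      ∫⁻ θ in Ioo (-Real.pi) Real.pi, ∫⁻ t in Ioi (0 : ℝ),
      ENNReal.ofReal t * S.indicator (phi f) ((t : ℂ) * exp (θ * I)) := by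
    have h1 : ENNReal.ofReal c * ENNReal.ofReal (2 * Real.pi) =
        ∫⁻ θ in Ioo (-Real.pi) Real.pi, ENNReal.ofReal c := by
      rw [setLIntegral_const, Real.volume_Ioo]
      congr 2
      ring
    rw [h1]
    unfold XX
    rw [← lintegral_add_left measurable_const]
    apply lintegral_mono
    intro θ
    exact ray_lower hf hb hr0 hr hδ hδ0 hε0 hεδ hη hinv hc θ
  have h3 := hlow.trans hup
  rw [← ENNReal.ofReal_mul hc] at h3
  have h4 : XX f δ ≤ ENNReal.ofReal (2 * Real.pi * (Real.log r - Real.log (ε / (1 + η)))) -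
      ENNReal.ofReal (c * (2 * Real.pi)) := by
    apply ENNReal.le_sub_of_add_le_left ENNReal.ofReal_ne_top h3
  rw [← ENNReal.ofReal_sub _ (by positivity)] at h4
  refine h4.trans (le_of_eq ?_)
  congr 1
  rw [Real.log_div hε0.ne' (by positivity), hcdef]
  ring

end Pool.Agent.Y242.Radial
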