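import Mathlib
import Pool.Agent.Y242.RadialC

set_option autoImplicit false
open Complex Metric Set MeasureTheory Filter Topology
open scoped ENNReal

namespace Pool.Agent.Y242.Radial

variable {f : ℂ → ℂ}

theorem XX_zero (hf : InS f) (hb : Blocked f) {δ : ℝ}
    (hδ : closedBall (0 : ℂ) (2 * δ) ⊆ f '' ball 0 (1 / 2)) (hδ0 : 0 < δ) : XX f δ = 0 := by
  have hpi := Real.pi_pos
  -- let r → 1 and η → 0 simultaneously
  have hlim : Tendsto (fun x : ℝ => ENNReal.ofReal (2 * Real.pi *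
      (-Real.log (1 - x) + Real.log (1 + x) - 2 * Real.log (1 - x)))) (𝓝[>] 0) (𝓝 (ENNReal.ofReal 0)) := by
    apply (ENNReal.continuous_ofReal.tendsto 0).comp
    apply tendsto_nhdsWithin_of_tendsto_nhds
    have h1 : ContinuousAt (fun x : ℝ => 2 * Real.pi *
      (-Real.log (1 - x) + Real.log (1 + x) - 2 * Real.log (1 - x))) 0 := by
      have h2 : ContinuousAt (fun x : ℝ => Real.log (1 - x)) 0 := by
        apply ContinuousAt.log (by fun_prop); norm_num
      have h3 : ContinuousAt (fun x : ℝ => Real.log (1 + x)) 0 := by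
        apply ContinuousAt.log (by fun_prop); norm_num
      exact continuousAt_const.mul ((h2.neg.add h3).sub (continuousAt_const.mul h2))
    have h4 := h1.tendsto
    simpa using h4
  have hle : ∀ᶠ x : ℝ in 𝓝[>] 0, XX f δ ≤ ENNReal.ofReal (2 * Real.pi *
      (-Real.log (1 - x) + Real.log (1 + x) - 2 * Real.log (1 - x))) := by
    filter_upwards [Ioo_mem_nhdsGT (show (0 : ℝ) < 1 / 2 by norm_num)] with x hx
    exact total hf hb (by linarith [hx.2]) (by linarith [hx.1]) hδ hδ0 hx.1 (by linarith [hx.2])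
  have := ge_of_tendsto hlim hle
  rw [ENNReal.ofReal_zero] at this
  exact le_antisymm this bot_le

theorem kk_eq_one (hf : InS f) (hb : Blocked f) {δ : ℝ}
    (hδ : closedBall (0 : ℂ) (2 * δ) ⊆ f '' ball 0 (1 / 2)) (hδ0 : 0 < δ)
    {w₀ : ℂ} (h1 : δ < ‖w₀‖) (h2 : ‖w₀‖ < 2 * δ) (h3 : w₀ ∈ slitPlane) : kk f w₀ = 1 := by
  by_contra hne
  have hX := XX_zero hf hb hδ hδ0
  have hpos : 0 < ‖w₀‖ := hδ0.trans h1
  have hw0 : w₀ ≠ 0 := norm_pos_iff.1 hpos
  have hann : ∀ w : ℂ, δ < ‖w‖ → ‖w‖ < 2 * δ → w ∈ f '' ball (0 : ℂ) 1 \ {0} := by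
    intro w hw1 hw2
    refine ⟨?_, ?_⟩
    · have := hδ (show w ∈ closedBall (0 : ℂ) (2 * δ) by
        rw [mem_closedBall, dist_zero_right]; exact hw2.le)
      exact image_mono (ball_subset_ball (by norm_num)) this
    · rintro rfl
      rw [norm_zero] at hw1
      linarith
  have hO : IsOpen (f '' ball (0 : ℂ) 1 \ {0}) :=
    (isOpen_image hf isOpen_ball subset_rfl).sdiff isClosed_singleton
  -- the function of (θ, t)
  have hc : ContinuousAt (fun p : ℝ × ℝ => ‖kk f ((p.2 : ℂ) * exp (p.1 * I)) - 1‖ ^ 2 / p.2)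
      (arg w₀, ‖w₀‖) := by
    have e1 : ((‖w₀‖ : ℝ) : ℂ) * exp (arg w₀ * I) = w₀ := Complex.norm_mul_exp_arg_mul_I w₀
    have e2 : ContinuousAt (kk f) w₀ :=
      (kk_continuousOn hf).continuousAt (hO.mem_nhds (hann w₀ h1 h2))
    have e3 : ContinuousAt (fun p : ℝ × ℝ => kk f ((p.2 : ℂ) * exp (p.1 * I))) (arg w₀, ‖w₀‖) := by
      apply ContinuousAt.comp (g := kk f) (f := fun p : ℝ × ℝ => (p.2 : ℂ) * exp (p.1 * I))
      · simp only; rw [e1]; exact e2
      · fun_prop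
    exact ((e3.sub continuousAt_const).norm.pow 2).div continuousAt_snd hpos.ne'
  set c : ℝ := ‖kk f w₀ - 1‖ ^ 2 / ‖w₀‖ with hcdef
  have hcpos : 0 < c := by
    have : 0 < ‖kk f w₀ - 1‖ := norm_pos_iff.2 (sub_ne_zero.2 hne)
    positivity
  have hval : (fun p : ℝ × ℝ => ‖kk f ((p.2 : ℂ) * exp (p.1 * I)) - 1‖ ^ 2 / p.2)
      (arg w₀, ‖w₀‖) = c := by
    simp only
    rw [Complex.norm_mul_exp_arg_mul_I w₀]
  have hev : ∀ᶠ p : ℝ × ℝ in 𝓝 (arg w₀, ‖w₀‖),
      c / 2 < ‖kk f ((p.2 : ℂ) * exp (p.1 * I)) - 1‖ ^ 2 / p.2 := by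
    apply hc.eventually_const_lt
    rw [hval]; linarith
  have harg : arg w₀ ∈ Ioo (-Real.pi) Real.pi := by
    refine ⟨neg_pi_lt_arg w₀, lt_of_le_of_ne (arg_le_pi w₀) ?_⟩
    exact (mem_slitPlane_iff_arg.1 h3).1
  rw [nhds_prod_eq] at hev
  obtain ⟨P, hP, Q, hQ, hPQ⟩ := Filter.eventually_prod_iff.1 hev
  obtain ⟨a, ha, ha'⟩ := Metric.eventually_nhds_iff.1 (hP.and (isOpen_Ioo.mem_nhds harg))
  obtain ⟨b, hb1, hb'⟩ := Metric.eventually_nhds_iff.1 (hQ.and (isOpen_Ioo.mem_nhds (show ‖w₀‖ ∈ Ioo δ (2 * δ) from ⟨h1, h2⟩)))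
  have hlow : ENNReal.ofReal (c / 2) * ENNReal.ofReal (2 * b) * ENNReal.ofReal (2 * a) ≤ XX f δ := by
    unfold XX
    have s1 : ∀ θ ∈ Ioo (arg w₀ - a) (arg w₀ + a), ENNReal.ofReal (c / 2) * ENNReal.ofReal (2 * b) ≤
        ∫⁻ t in Ioo δ (2 * δ), ENNReal.ofReal (‖kk f ((t : ℂ) * exp (θ * I)) - 1‖ ^ 2 / t) := by
      intro θ hθ
      have hθ1 := ha' (y := θ) (by rw [Real.dist_eq, abs_lt]; constructor <;> linarith [hθ.1, hθ.2])
      have s2 : ENNReal.ofReal (c / 2) * ENNReal.ofReal (2 * b) =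
          ∫⁻ t in Ioo (‖w₀‖ - b) (‖w₀‖ + b), ENNReal.ofReal (c / 2) := by
        rw [setLIntegral_const, Real.volume_Ioo]
        congr 2
        ring
      rw [s2]
      refine le_trans ?_ (lintegral_mono_set (s := Ioo (‖w₀‖ - b) (‖w₀‖ + b)) ?_)
      · apply setLIntegral_mono' measurableSet_Ioo
        intro t ht
        apply ENNReal.ofReal_le_ofReal
        have ht1 := hb' (y := t) (by rw [Real.dist_eq, abs_lt]; constructor <;> linarith [ht.1, ht.2])
        exact (hPQ hθ1.1 ht1.1).le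
      · intro t ht
        exact (hb' (y := t) (by rw [Real.dist_eq, abs_lt]; constructor <;> linarith [ht.1, ht.2])).2
    have s3 : ENNReal.ofReal (c / 2) * ENNReal.ofReal (2 * b) * ENNReal.ofReal (2 * a) =
        ∫⁻ θ in Ioo (arg w₀ - a) (arg w₀ + a), ENNReal.ofReal (c / 2) * ENNReal.ofReal (2 * b) := by
      rw [setLIntegral_const, Real.volume_Ioo]
      congr 2
      ring
    rw [s3]
    refine le_trans ?_ (lintegral_mono_set (s := Ioo (arg w₀ - a) (arg w₀ + a)) ?_)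
    · exact setLIntegral_mono' measurableSet_Ioo s1
    · intro θ hθ
      exact (ha' (y := θ) (by rw [Real.dist_eq, abs_lt]; constructor <;> linarith [hθ.1, hθ.2])).2
  rw [hX] at hlow
  have hne0 : ENNReal.ofReal (c / 2) * ENNReal.ofReal (2 * b) * ENNReal.ofReal (2 * a) ≠ 0 := by
    apply mul_ne_zero
    · apply mul_ne_zero
      · simpa using hcpos
      · simpa using hb1
    · simpa using ha
  exact hne0 (le_antisymm hlow bot_le)

/-- If every ray from the origin leaves the image at distance at most one, the function is the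
identity. -/
theorem rigid (hf : InS f) (hb : Blocked f) : ∀ z ∈ ball (0 : ℂ) 1, f z = z := by
  have h0 : (0 : ℂ) ∈ ball (0 : ℂ) 1 := mem_ball_self one_pos
  have hsub : ball (0 : ℂ) (1 / 2) ⊆ ball 0 1 := ball_subset_ball (by norm_num)
  -- choose δ
  have himg : f '' ball 0 (1 / 2) ∈ 𝓝 (0 : ℂ) := by
    have := image_mem_nhds hf h0 (ball_mem_nhds (0 : ℂ) (show (0 : ℝ) < 1 / 2 by norm_num))
    rwa [hf.zero] at this
  obtain ⟨e, he0, he⟩ := Metric.nhds_basis_closedBall.mem_iff.1 himg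
  obtain ⟨δ, hδe⟩ : ∃ δ, δ = e / 2 := ⟨_, rfl⟩
  have hδ0 : 0 < δ := by linarith
  have hδ : closedBall (0 : ℂ) (2 * δ) ⊆ f '' ball 0 (1 / 2) := by
    rw [hδe, mul_div_cancel₀ _ two_ne_zero]; exact he
  -- the point 3δ/2
  obtain ⟨z₁, hz₁, hfz₁⟩ := hδ (show ((3 * δ / 2 : ℝ) : ℂ) ∈ closedBall (0 : ℂ) (2 * δ) by
    rw [mem_closedBall, dist_zero_right, Complex.norm_real, Real.norm_eq_abs, abs_of_pos (by linarith)]
    linarith)
  have hz₁' : z₁ ∈ ball (0 : ℂ) 1 := hsub hz₁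
  have hcont : ContinuousAt f z₁ := (hf.diff.differentiableAt (isOpen_ball.mem_nhds hz₁')).continuousAt
  have hV : ∀ᶠ z in 𝓝 z₁, f z = z * deriv f z := by
    have o1 : IsOpen {w : ℂ | δ < ‖w‖ ∧ ‖w‖ < 2 * δ ∧ w ∈ slitPlane} :=
      (isOpen_lt continuous_const continuous_norm).inter
        ((isOpen_lt continuous_norm continuous_const).inter isOpen_slitPlane)
    have o2 : f z₁ ∈ {w : ℂ | δ < ‖w‖ ∧ ‖w‖ < 2 * δ ∧ w ∈ slitPlane} := by
      rw [hfz₁]
      refine ⟨?_, ?_, ?_⟩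
      · rw [Complex.norm_real, Real.norm_eq_abs, abs_of_pos (by linarith)]; linarith
      · rw [Complex.norm_real, Real.norm_eq_abs, abs_of_pos (by linarith)]; linarith
      · rw [mem_slitPlane_iff]; left; rw [Complex.ofReal_re]; linarith
    filter_upwards [hcont.eventually (o1.mem_nhds o2), isOpen_ball.mem_nhds hz₁'] with z h1 h2
    have h3 := kk_eq_one hf hb hδ hδ0 h1.1 h1.2.1 h1.2.2
    unfold kk at h3
    rw [(inv_hasDerivAt hf h2).deriv, inv_apply hf h2] at h3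
    have hd := deriv_ne hf h2
    have hz0 : z ≠ 0 := by
      rintro rfl
      rw [div_zero] at h3
      exact zero_ne_one h3
    field_simp at h3
    linear_combination h3
  have hA1 : AnalyticOnNhd ℂ f (ball 0 1) := hf.diff.analyticOnNhd isOpen_ball
  have hA2 : AnalyticOnNhd ℂ (fun z => z * deriv f z) (ball 0 1) :=
    (differentiableOn_id.mul (hf.diff.deriv isOpen_ball)).analyticOnNhd isOpen_ball
  have hEq : EqOn f (fun z => z * deriv f z) (ball 0 1) :=
    hA1.eqOn_of_preconnected_of_eventuallyEq hA2 (convex_ball (0 : ℂ) 1).isPreconnected hz₁' hV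
  -- f / z is constant
  intro z hz
  have hz1 : ‖z‖ < 1 := by simpa using hz
  set φ : ℝ → ℂ := fun t => f (t * z) / t with hφ
  have hmem : ∀ t : ℝ, |t| ≤ 1 → (t : ℂ) * z ∈ ball (0 : ℂ) 1 := by
    intro t ht
    rw [mem_ball, dist_zero_right, norm_mul, Complex.norm_real, Real.norm_eq_abs]
    calc |t| * ‖z‖ ≤ 1 * ‖z‖ := mul_le_mul_of_nonneg_right ht (norm_nonneg _)
      _ < 1 := by linarith
  have hder : ∀ t ∈ Ioc (0 : ℝ) 1, HasDerivAt φ 0 t := by
    intro t ht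
    have htc : (t : ℂ) ≠ 0 := by exact_mod_cast ht.1.ne'
    have hm := hmem t (by rw [abs_of_pos ht.1]; exact ht.2)
    have h1 : HasDerivAt (fun s : ℝ => (s : ℂ) * z) z t := by
      have : HasDerivAt (fun s : ℝ => (s : ℂ) * z) (1 * z) t :=
        (Complex.ofRealCLM.hasDerivAt).mul_const _
      simpa using this
    have h2 : HasDerivAt (fun s : ℝ => f ((s : ℂ) * z)) (deriv f (t * z) * z) t :=
      ((hf.diff.differentiableAt (isOpen_ball.mem_nhds hm)).hasDerivAt).comp t h1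
    have h3 : HasDerivAt (fun s : ℝ => (s : ℂ)) 1 t := Complex.ofRealCLM.hasDerivAt
    have h4 := h2.div h3 htc
    have h5 : f (t * z) = t * z * deriv f (t * z) := hEq hm
    have h6 : (deriv f (t * z) * z * t - f (t * z) * 1) / (t : ℂ) ^ 2 = 0 := by
      rw [h5]
      field_simp
      ring
    rw [h6] at h4
    exact h4
  have hconst : ∀ t ∈ Ioc (0 : ℝ) 1, φ t = φ 1 := by
    intro t ht
    have hcs : ∀ s ∈ Icc t 1, s ∈ Ioc (0 : ℝ) 1 := fun s hs => ⟨ht.1.trans_le hs.1, hs.2⟩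
    have h1 : ContinuousOn φ (Icc t 1) := fun s hs => (hder s (hcs s hs)).continuousAt.continuousWithinAt
    have h2 : ∀ s ∈ Ico t 1, HasDerivWithinAt φ 0 (Ici s) s := fun s hs =>
      (hder s (hcs s ⟨hs.1, hs.2.le⟩)).hasDerivWithinAt
    have h3 := constant_of_has_deriv_right_zero h1 h2 1 ⟨ht.2, le_rfl⟩
    exact h3.symm
  have hlim : Tendsto φ (𝓝[>] 0) (𝓝 z) := by
    have h1 : HasDerivAt (fun s : ℝ => f ((s : ℂ) * z)) z 0 := by
      have h2 : HasDerivAt (fun s : ℝ => (s : ℂ) * z) z 0 := by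
        have : HasDerivAt (fun s : ℝ => (s : ℂ) * z) (1 * z) 0 :=
          (Complex.ofRealCLM.hasDerivAt).mul_const _
        simpa using this
      have h3 : HasDerivAt f 1 (((0 : ℝ) : ℂ) * z) := by
        rw [Complex.ofReal_zero, zero_mul]
        have := (hasStrict hf h0).hasDerivAt
        rwa [hf.one] at this
      have h4 : HasDerivAt (fun s : ℝ => f ((s : ℂ) * z)) (1 * z) 0 := h3.comp (0 : ℝ) h2
      rwa [one_mul] at h4
    rw [hasDerivAt_iff_tendsto_slope] at h1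
    have h5 : Tendsto (slope (fun s : ℝ => f ((s : ℂ) * z)) 0) (𝓝[>] 0) (𝓝 z) :=
      h1.mono_left (nhdsWithin_mono _ (fun x hx => ne_of_gt hx))
    refine h5.congr' ?_
    filter_upwards [self_mem_nhdsWithin] with t ht
    have ht0 : (0 : ℝ) < t := ht
    rw [slope_def_module]
    simp only [Complex.ofReal_zero, zero_mul, hf.zero, sub_zero]
    rw [hφ]
    simp only
    rw [Complex.real_smul, div_eq_inv_mul]
    push_cast
    ring
  have hev : ∀ᶠ t in 𝓝[>] (0 : ℝ), φ t = φ 1 := by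
    filter_upwards [Ioc_mem_nhdsGT (show (0 : ℝ) < 1 by norm_num)] with t ht
    exact hconst t ht
  have h6 := tendsto_nhds_unique (hlim.congr' hev) tendsto_const_nhds
  have h7 : φ 1 = f z := by rw [hφ]; simp
  rw [← h7, ← h6]

end Pool.Agent.Y242.Radial
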