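import Mathlib
import Pool.Agent.Y242.RadialD

set_option autoImplicit false
open Complex Metric Set Filter Topology
open scoped ENNReal

namespace Pool.Agent.Y242.Radial

/-- the supremum of the lengths of the radial segments in the set `U` -/
noncomputable def reachSet (U : Set ℂ) : ℝ≥0∞ :=
  sSup {x : ℝ≥0∞ | ∃ l : ℝ, 0 < l ∧ x = ENNReal.ofReal l ∧
    ∃ θ : ℝ, ∀ t : ℝ, 0 ≤ t → t < l → (t : ℂ) * exp (θ * I) ∈ U}

theorem reach_ball : reachSet (ball (0 : ℂ) 1) = 1 := by
  apply le_antisymm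
  · apply sSup_le
    rintro _ ⟨l, hl, rfl, θ, h⟩
    rw [← ENNReal.ofReal_one]
    apply ENNReal.ofReal_le_ofReal
    by_contra hcon
    push Not at hcon
    have := h 1 zero_le_one hcon
    rw [mem_ball, dist_zero_right, norm_ray one_pos] at this
    exact lt_irrefl _ this
  · apply le_sSup
    refine ⟨1, one_pos, by simp, 0, fun t h0 h1 => ?_⟩
    rw [mem_ball, dist_zero_right, norm_mul, Complex.norm_exp_ofReal_mul_I, mul_one,
      Complex.norm_real, Real.norm_eq_abs, abs_of_nonneg h0]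
    exact h1

theorem blocked_of_reach {f : ℂ → ℂ} (hf : InS f) (h : reachSet (f '' ball 0 1) ≤ 1) : Blocked f := by
  intro θ
  by_contra hcon
  push Not at hcon
  have hO : IsOpen (f '' ball (0 : ℂ) 1) := isOpen_image hf isOpen_ball subset_rfl
  have hO' : IsOpen ((fun t : ℝ => (t : ℂ) * exp (θ * I)) ⁻¹' (f '' ball (0 : ℂ) 1)) :=
    hO.preimage (by fun_prop)
  obtain ⟨κ, hκ, hκ'⟩ := Metric.isOpen_iff.1 hO' 1 (hcon 1 zero_le_one le_rfl)
  have h1 : ENNReal.ofReal (1 + κ) ≤ reachSet (f '' ball 0 1) := by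
    apply le_sSup
    refine ⟨1 + κ, by linarith, rfl, θ, fun t h0 h1 => ?_⟩
    rcases le_or_gt t 1 with h2 | h2
    · exact hcon t h0 h2
    · exact hκ' (by rw [mem_ball, Real.dist_eq, abs_lt]; constructor <;> linarith)
  have h2 := h1.trans h
  rw [← ENNReal.ofReal_one, ENNReal.ofReal_le_ofReal_iff zero_le_one] at h2
  linarith

theorem id_of_reach {f : ℂ → ℂ} (hf : InS f) (h : reachSet (f '' ball 0 1) ≤ 1) :
    ∀ z ∈ ball (0 : ℂ) 1, f z = z := rigid hf (blocked_of_reach hf h)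

theorem reach_of_id {f : ℂ → ℂ} (h : ∀ z ∈ ball (0 : ℂ) 1, f z = z) :
    reachSet (f '' ball 0 1) = 1 := by
  rw [image_congr h, image_id']
  exact reach_ball

theorem one_le_reach {f : ℂ → ℂ} (hf : InS f) : 1 ≤ reachSet (f '' ball 0 1) := by
  by_contra hcon
  push Not at hcon
  have := reach_of_id (id_of_reach hf hcon.le)
  rw [this] at hcon
  exact lt_irrefl _ hcon

end Pool.Agent.Y242.Radial
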