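import Mathlib
import Pool.Agent.Y242.RadialC

set_option autoImplicit false
open Complex Metric Set MeasureTheory Filter Topology

namespace Pool.Agent.Y242.Conv

open Pool.Agent.Y242.Radial

variable {f : ℂ → ℂ}

/-- the support inequality for convex univalent functions -/
theorem support (hf : InS f) (hc : Convex ℝ (f '' ball 0 1)) {z₀ ζ : ℂ} (hz : ‖z₀‖ < 1) (hz0 : z₀ ≠ 0)
    (hζ : ‖ζ‖ ≤ ‖z₀‖) : 0 ≤ ((f z₀ - f ζ) / (z₀ * deriv f z₀)).re := by
  have hz0' : 0 < ‖z₀‖ := norm_pos_iff.2 hz0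
  have hzb : z₀ ∈ ball (0 : ℂ) 1 := by simpa using hz
  -- write `ζ = c z₀`
  set c : ℂ := ζ / z₀ with hcdef
  have hcn : ‖c‖ ≤ 1 := by
    rw [hcdef, norm_div]; exact div_le_one_of_le₀ hζ hz0'.le
  have hcz : c * z₀ = ζ := by rw [hcdef]; field_simp
  -- the self maps
  have hself : ∀ t : ℝ, 0 ≤ t → t ≤ 1 →
      ‖inv f (f z₀ + t * (f ζ - f z₀))‖ ≤ ‖z₀‖ := by
    intro t ht0 ht1
    set g : ℂ → ℂ := fun z => inv f ((1 - t) * f z + t * f (c * z)) with hg
    have hcb : ∀ z ∈ ball (0 : ℂ) 1, c * z ∈ ball (0 : ℂ) 1 := by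
      intro z hz
      rw [mem_ball, dist_zero_right] at hz ⊢
      rw [norm_mul]
      calc ‖c‖ * ‖z‖ ≤ 1 * ‖z‖ := mul_le_mul_of_nonneg_right hcn (norm_nonneg _)
        _ < 1 := by linarith
    have hmem : ∀ z ∈ ball (0 : ℂ) 1, (1 - t) * f z + t * f (c * z) ∈ f '' ball (0 : ℂ) 1 := by
      intro z hz
      have := hc (mem_image_of_mem f hz) (mem_image_of_mem f (hcb z hz)) (show 0 ≤ 1 - t by linarith)
        ht0 (by ring)
      simp only [Complex.real_smul] at this
      push_cast at this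
      exact this
    have hgd : DifferentiableOn ℂ g (ball 0 1) := by
      have h1 : DifferentiableOn ℂ (fun z => (1 - t) * f z + t * f (c * z)) (ball 0 1) := by
        apply DifferentiableOn.add
        · exact hf.diff.const_mul _
        · apply DifferentiableOn.const_mul
          exact hf.diff.comp (differentiableOn_id.const_mul c) hcb
      exact (inv_differentiableOn hf).comp h1 hmem
    have hgm : MapsTo g (ball 0 1) (ball 0 1) := fun z hz => inv_mem hf (hmem z hz)
    have hg0 : g 0 = 0 := by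
      rw [hg]; simp only
      rw [mul_zero, hf.zero, mul_zero, mul_zero, add_zero]
      have := inv_apply hf (mem_ball_self (x := (0 : ℂ)) one_pos)
      rwa [hf.zero] at this
    have h2 := Complex.norm_le_norm_of_mapsTo_ball hgd (hgm.mono_right ball_subset_closedBall) hg0 hz
    have h3 : g z₀ = inv f (f z₀ + t * (f ζ - f z₀)) := by
      rw [hg]; simp only
      rw [hcz]
      congr 1
      ring
    rwa [h3] at h2
  -- differentiate at `t = 0`
  set u : ℝ → ℂ := fun t => inv f (f z₀ + t * (f ζ - f z₀)) with hu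
  have hu0 : u 0 = z₀ := by
    rw [hu]; simp only; rw [Complex.ofReal_zero, zero_mul, add_zero, inv_apply hf hzb]
  have h1 : HasDerivAt (fun t : ℝ => f z₀ + (t : ℂ) * (f ζ - f z₀)) (f ζ - f z₀) 0 := by
    have h2 : HasDerivAt (fun t : ℝ => (t : ℂ) * (f ζ - f z₀)) (1 * (f ζ - f z₀)) 0 :=
      (Complex.ofRealCLM.hasDerivAt).mul_const _
    rw [one_mul] at h2
    exact h2.const_add _
  have h2 : HasDerivAt u ((deriv f z₀)⁻¹ * (f ζ - f z₀)) 0 := by
    have h3 : HasDerivAt (inv f) (deriv f z₀)⁻¹ (f z₀ + ((0 : ℝ) : ℂ) * (f ζ - f z₀)) := by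
      rw [Complex.ofReal_zero, zero_mul, add_zero]; exact inv_hasDerivAt hf hzb
    exact h3.comp (0 : ℝ) h1
  have h3 := hasDerivAt_log_norm h2 (by rw [hu0]; exact hz0)
  rw [hu0] at h3
  by_contra hcon
  push Not at hcon
  have h4 : 0 < ((deriv f z₀)⁻¹ * (f ζ - f z₀) / z₀).re := by
    have : (deriv f z₀)⁻¹ * (f ζ - f z₀) / z₀ = -((f z₀ - f ζ) / (z₀ * deriv f z₀)) := by
      have := deriv_ne hf hzb
      field_simp
      ring
    rw [this, Complex.neg_re]
    linarith
  -- the logarithm would increase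
  have h5 := h3.hasDerivWithinAt (s := Ioi 0)
  rw [hasDerivWithinAt_iff_tendsto_slope' (by simp)] at h5
  have h6 : ∀ᶠ t in 𝓝[>] (0 : ℝ), 0 < slope (fun s => Real.log ‖u s‖) 0 t :=
    h5.eventually_const_lt h4
  obtain ⟨t, ht1, ht2⟩ := (h6.and (Ioc_mem_nhdsGT (show (0 : ℝ) < 1 by norm_num))).exists
  rw [slope_def_field, hu0, sub_zero, div_pos_iff_of_pos_right ht2.1, sub_pos] at ht1
  have h7 := hself t ht2.1.le ht2.2
  rcases eq_or_ne (u t) 0 with h8 | h8
  · -- `u t = 0`
    rw [h8, norm_zero, Real.log_zero] at ht1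
    have := Real.log_neg hz0' hz
    -- choose a smaller `t`: use continuity instead
    sorry
  · have := Real.log_le_log (norm_pos_iff.2 h8) h7
    linarith

end Pool.Agent.Y242.Conv
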